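import Pool.Agent.TH305.AX.BVdef

/-!
Axisymmetric flows (helper305): comparison of the circulation with a barrier that has smooth
majorants, for locally bounded solutions.
-/

set_option autoImplicit false

open MeasureTheory Set Metric Filter Topology
open scoped ContDiff

namespace Pool.Agent.TH305.AX

open H459R3.NS W221.NS Pool.Agent.TH305.DR

variable {ν T : ℝ} {u : ℝ → V → V} {p : ℝ → V → ℝ}

theorem cmpB (hν : 0 < ν) (h : BSol ν T u p) {A δ : ℝ} (hA : 0 ≤ A) (hδ : 0 < δ)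
    {Φ : ℝ → ℝ → ℝ} (hΦ0 : ∀ t ∈ Ico 0 T, ∀ σ, 0 ≤ σ → 0 ≤ Φ t σ)
    (hΦc : ContinuousOn (fun z : ℝ × ℝ => Φ z.1 z.2) (Ico 0 T ×ˢ Ici 0))
    (hin : ∀ x, |circ (u 0) x| ≤ δ + A * Φ 0 (sg x))
    (hmaj : ∀ t ∈ Ioo 0 T, ∀ x, 0 < sg x → δ < |circ (u t) x| →
      ∃ χ χ₁ c₂ d ζ, Maj Φ t (sg x) χ χ₁ c₂ d ζ ∧
        4 * ν * sg x * c₂ - 2 * (x 0 * u t x 0 + x 1 * u t x 1) * χ₁ (sg x) ≤ d) :
    ∀ t ∈ Ico 0 T, ∀ x, |circ (u t) x| ≤ δ + A * Φ t (sg x) := by
  intro t₀ ht₀ x₀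
  by_contra hcon
  push Not at hcon
  have ht00 : 0 < t₀ := by
    rcases eq_or_lt_of_le ht₀.1 with h1 | h1
    · rw [← h1] at hcon
      exact absurd (hin x₀) (not_le.2 hcon)
    · exact h1
  obtain ⟨U, hU0, hU⟩ := h.u_bdd ht₀.2
  obtain ⟨s, hs1, hs2⟩ : ∃ s : ℝ, |s| = 1 ∧
      δ + A * Φ t₀ (sg x₀) < s * circ (u t₀) x₀ := by
    rcases le_total 0 (circ (u t₀) x₀) with h1 | h1
    · exact ⟨1, by simp, by rwa [abs_of_nonneg h1, ← one_mul (circ (u t₀) x₀)] at hcon⟩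
    · exact ⟨-1, by simp, by rw [abs_of_nonpos h1] at hcon; linarith⟩
  obtain ⟨K, hK⟩ : ∃ K : ℝ, K = 2 * ν + 6 * U + 1 := ⟨_, rfl⟩
  have hK0 : 0 < K := by rw [hK]; positivity
  obtain ⟨ε, hε, hε2⟩ : ∃ ε : ℝ, 0 < ε ∧
      0 < s * circ (u t₀) x₀ - (δ + A * Φ t₀ (sg x₀)) - ε * (Real.exp (K * t₀) * PP x₀) := by
    have hP : 0 < Real.exp (K * t₀) * PP x₀ :=
      mul_pos (Real.exp_pos _) (by linarith [PP_one x₀])
    obtain ⟨Z, hZ⟩ : ∃ Z : ℝ, Z = Real.exp (K * t₀) * PP x₀ := ⟨_, rfl⟩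
    obtain ⟨m, hm⟩ : ∃ m : ℝ, m = s * circ (u t₀) x₀ - (δ + A * Φ t₀ (sg x₀)) := ⟨_, rfl⟩
    have hm0 : 0 < m := by rw [hm]; linarith
    rw [← hZ] at hP ⊢
    rw [← hm]
    refine ⟨m / (2 * Z), by positivity, ?_⟩
    have : m / (2 * Z) * Z = m / 2 := by field_simp
    rw [this]
    linarith
  obtain ⟨F, hF⟩ : ∃ F : ℝ × V → ℝ, F = fun z => s * circ (u z.1) z.2
      - (δ + A * Φ z.1 (sg z.2)) - ε * (Real.exp (K * z.1) * PP z.2) := ⟨_, rfl⟩
  have hsc : ∀ v : V → V, ∀ x, s * circ v x ≤ |circ v x| := by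
    intro v x
    calc s * circ v x ≤ |s * circ v x| := le_abs_self _
      _ = |circ v x| := by rw [abs_mul, hs1, one_mul]
  have hI : ∀ t ∈ Icc 0 t₀, t ∈ Ico 0 T := fun t ht => ⟨ht.1, ht.2.trans_lt ht₀.2⟩
  have hlo : ∀ t ∈ Icc 0 t₀, ∀ x, 0 ≤ A * Φ t (sg x) := fun t ht x =>
    mul_nonneg hA (hΦ0 t (hI t ht) _ (sg_nonneg x))
  -- outside a ball F is negative
  obtain ⟨R, hR⟩ : ∃ R : ℝ, R = 4 * U / ε + ‖x₀‖ + 1 := ⟨_, rfl⟩
  have hR0 : 4 * U / ε < R := by
    have := norm_nonneg x₀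
    linarith
  have hout : ∀ t ∈ Icc 0 t₀, ∀ x, R < ‖x‖ → F (t, x) < 0 := by
    intro t ht x hx
    rw [hF]
    show s * circ (u t) x - (δ + A * Φ t (sg x)) - ε * (Real.exp (K * t) * PP x) < 0
    have h1 := (hsc (u t) x).trans (circ_le (u t) x)
    have hsx : √(sg x) ≤ 2 * ‖x‖ := by
      apply Real.sqrt_le_iff.2
      refine ⟨by positivity, ?_⟩
      have a0 : |x 0| ≤ ‖x‖ := norm_le_pi_norm x 0
      have a1 : |x 1| ≤ ‖x‖ := norm_le_pi_norm x 1
      unfold sg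
      nlinarith [abs_nonneg (x 0), abs_nonneg (x 1), sq_abs (x 0), sq_abs (x 1)]
    have h2 : s * circ (u t) x ≤ 4 * ‖x‖ * U := by
      calc s * circ (u t) x ≤ 2 * √(sg x) * ‖u t x‖ := h1
        _ ≤ 2 * (2 * ‖x‖) * U := by
          have := hU t ht x
          gcongr
        _ = _ := by ring
    have h3 : 4 * U < ε * ‖x‖ := by
      have := hR0.trans hx
      rw [div_lt_iff₀ hε] at this
      linarith
    have h4 : 0 < ‖x‖ := by
      have : 0 ≤ 4 * U / ε := by positivity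
      linarith
    have h5 : ε * ‖x‖ ^ 2 ≤ ε * (Real.exp (K * t) * PP x) := by
      apply mul_le_mul_of_nonneg_left _ hε.le
      have h6 := PP_norm x
      have h7 : 1 ≤ Real.exp (K * t) := Real.one_le_exp (mul_nonneg hK0.le ht.1)
      have h8 : 0 < PP x := by linarith [PP_one x]
      nlinarith
    have h9 : 4 * ‖x‖ * U < ε * ‖x‖ ^ 2 := by nlinarith
    have h10 := hlo t ht x
    linarith
  have hFc : ContinuousOn F (Icc 0 t₀ ×ˢ closedBall (0 : V) R) := by
    have h1 : ContinuousOn (fun z : ℝ × V => circ (u z.1) z.2)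
        (Icc 0 t₀ ×ˢ closedBall (0 : V) R) :=
      (h.circ_cont).mono fun z hz => ⟨⟨hz.1.1, hz.1.2.trans_lt ht₀.2⟩, trivial⟩
    have h2 : Continuous fun z : ℝ × V => ε * (Real.exp (K * z.1) * PP z.2) := by
      have := sm_PP.continuous
      fun_prop
    have h5 : ContinuousOn (fun z : ℝ × V => Φ z.1 (sg z.2))
        (Icc 0 t₀ ×ˢ closedBall (0 : V) R) :=
      hΦc.comp (f := fun z : ℝ × V => (z.1, sg z.2)) (continuous_fst.prodMk
        (sm_sg.continuous.comp continuous_snd)).continuousOn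
        fun z hz => ⟨hI _ hz.1, sg_nonneg z.2⟩
    rw [hF]
    exact ((continuousOn_const.mul h1).sub (continuousOn_const.add (continuousOn_const.mul h5))).sub
      h2.continuousOn
  have hRn : 0 ≤ R := by rw [hR]; positivity
  obtain ⟨⟨t, x⟩, ⟨ht, hx⟩, hmx⟩ := (isCompact_Icc.prod
    (isCompact_closedBall (0 : V) R)).exists_isMaxOn (s := Icc 0 t₀ ×ˢ closedBall (0 : V) R)
    ⟨(t₀, x₀), ⟨ht00.le, le_rfl⟩, by
      rw [mem_closedBall, dist_zero_right, hR]
      have : 0 ≤ 4 * U / ε := by positivity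
      linarith⟩ hFc
  simp only at ht hx
  have hF0 : 0 < F (t, x) := by
    refine lt_of_lt_of_le ?_ (hmx (show (t₀, x₀) ∈ Icc 0 t₀ ×ˢ closedBall (0 : V) R from
      ⟨⟨ht00.le, le_rfl⟩, by
        rw [mem_closedBall, dist_zero_right, hR]
        have : 0 ≤ 4 * U / ε := by positivity
        linarith⟩))
    rw [hF]
    exact hε2
  have hglob : ∀ t' ∈ Icc 0 t₀, ∀ y, F (t', y) ≤ F (t, x) := by
    intro t' ht' y
    rcases le_or_gt ‖y‖ R with hy | hy
    · exact hmx (show (t', y) ∈ Icc 0 t₀ ×ˢ closedBall (0 : V) R from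
        ⟨ht', by rw [mem_closedBall, dist_zero_right]; exact hy⟩)
    · exact (hout t' ht' y hy).le.trans hF0.le
  have hPpos : ∀ y, 0 < PP y := fun y => by linarith [PP_one y]
  have ht0 : 0 < t := by
    rcases eq_or_lt_of_le ht.1 with h1 | h1
    · exfalso
      rw [hF, ← h1] at hF0
      have h2 : 0 < s * circ (u 0) x - (δ + A * Φ 0 (sg x))
        - ε * (Real.exp (K * 0) * PP x) := hF0
      have h3 := (hsc (u 0) x).trans (hin x)
      have h4 : 0 < ε * (Real.exp (K * 0) * PP x) :=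
        mul_pos hε (mul_pos (Real.exp_pos _) (hPpos x))
      linarith
    · exact h1
  have htT : t ∈ Ioo 0 T := ⟨ht0, ht.2.trans_lt ht₀.2⟩
  have hlox := hlo t ht x
  have hbig : δ < s * circ (u t) x := by
    have h3 : 0 < s * circ (u t) x - (δ + A * Φ t (sg x))
      - ε * (Real.exp (K * t) * PP x) := by
      rw [hF] at hF0
      exact hF0
    have h4 : 0 < ε * (Real.exp (K * t) * PP x) :=
      mul_pos hε (mul_pos (Real.exp_pos _) (hPpos x))
    linarith
  have hσ : 0 < sg x := by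
    rcases eq_or_lt_of_le (sg_nonneg x) with h1 | h1
    · exfalso
      have h2 := (hsc (u t) x).trans (circ_le (u t) x)
      rw [← h1, Real.sqrt_zero] at h2
      linarith
    · exact h1
  -- the touching function
  obtain ⟨c, hc⟩ : ∃ c : ℝ, c = ε * Real.exp (K * t) := ⟨_, rfl⟩
  have hc0 : 0 < c := by rw [hc]; positivity
  have hFt : ∀ y, F (t, y) = s * circ (u t) y - (δ + A * Φ t (sg y)) - c * PP y := by
    intro y
    rw [hF, hc]
    show s * circ (u t) y - (δ + A * Φ t (sg y)) - ε * (Real.exp (K * t) * PP y) = _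
    ring
  have hax := h.axi t (Ioo_subset_Ico_self htT)
  have hFrot : ∀ θ, F (t, rot θ x) = F (t, x) := by
    intro θ
    rw [hFt, hFt, circ_rot hax, PP_rot, sg_rot]
  obtain ⟨θ, hθq⟩ := rolle (h.slicep htT) x
  obtain ⟨x', hx'⟩ : ∃ x', x' = rot θ x := ⟨_, rfl⟩
  rw [← hx'] at hθq
  have hsx : sg x' = sg x := by rw [hx', sg_rot]
  have hσ' : 0 < sg x' := by rw [hsx]; exact hσ
  have hcx : circ (u t) x' = circ (u t) x := by rw [hx', circ_rot hax]
  have hcx' : δ < |circ (u t) x'| := by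
    rw [hcx]
    exact hbig.trans_le (hsc (u t) x)
  obtain ⟨χ, χ₁, c₂, d', ζ, hMj, hkey⟩ := hmaj t htT x' hσ' hcx'
  have hsmf : ContDiff ℝ ∞ fun y : V => c * PP y := contDiff_const.mul sm_PP
  have hsmW : ContDiffAt ℝ 2 (fun y => -A * χ (sg y)) x' :=
    contDiffAt_const.mul (hMj.smooth.comp _ (sm_sg.contDiffAt.of_le (by norm_cast)))
  obtain ⟨W, hW⟩ : ∃ W : V → ℝ, W = fun y => c * PP y - (-A * χ (sg y)) := ⟨_, rfl⟩
  have hlm : IsLocalMax (fun y => s * circ (u t) y - W y) x' := by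
    have h3 : ∀ᶠ y in 𝓝 x', Φ t (sg y) ≤ χ (sg y) :=
      ev_sg (P := fun r => Φ t r ≤ χ r) hMj.le
    filter_upwards [h3] with y hy
    have h1 := hglob t ht y
    have h2 := hFrot θ
    rw [← hx'] at h2
    rw [← h2, hFt, hFt] at h1
    have h4 := mul_le_mul_of_nonneg_left hy hA
    have h5 := hMj.eq
    rw [hW]
    show s * circ (u t) y - (c * PP y - (-A * χ (sg y)))
      ≤ s * circ (u t) x' - (c * PP x' - (-A * χ (sg x')))
    rw [h5]
    linarith
  have hθ := touch hν (h.slice0 (Ioo_subset_Ico_self htT)) hax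
    (d := fun i => deriv (fun τ => u τ x' i) t) (fun i => h.momentum t htT x' i) hθq
    hσ' (by rw [hW]; exact (hsmf.contDiffAt.of_le (by norm_cast)).sub hsmW) hlm
  have hd1 := hMj.hd1
  have hd2 := hMj.hd2
  have hpdW : ∀ j, pd j W x' = c * (2 * x' j) - -A * (χ₁ (sg x') * (2 * cj j * x' j)) := by
    intro j
    rw [hW, (pd2_sub_at hsmf hsmW j).1, pd_maj (-A) hd1.self_of_nhds j, pd_cmul, pd_PP]
  have hlapW : lap W x' = c * 6 - -A * (4 * sg x' * c₂ + 4 * χ₁ (sg x')) := by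
    rw [← lap_maj (-A) hd1 hd2]
    unfold lap
    rw [hW]
    simp only [(pd2_sub_at hsmf hsmW _).2]
    rw [Finset.sum_sub_distrib]
    congr 1
    simp only [pd_cmul]
    rw [← Finset.mul_sum]
    congr 1
    exact lap_PP x'
  rw [hlapW, hpdW 0, hpdW 1] at hθ
  simp only [hpdW] at hθ
  obtain ⟨L1, hL1⟩ : ∃ L1 : ℝ, L1 = χ₁ (sg x') := ⟨_, rfl⟩
  rw [← hL1] at hθ hkey
  have hom : 2 * (x' 0 * (c * (2 * x' 0) - -A * (L1 * (2 * cj 0 * x' 0)))
      + x' 1 * (c * (2 * x' 1) - -A * (L1 * (2 * cj 1 * x' 1)))) / sg x' = 4 * c + 4 * A * L1 := by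
    rw [div_eq_iff hσ'.ne', cj0, cj1]
    unfold sg
    ring
  rw [hom] at hθ
  have hsum : ∑ j, u t x' j * (c * (2 * x' j) - -A * (L1 * (2 * cj j * x' j)))
      = ∑ j, u t x' j * (c * (2 * x' j)) + 2 * A * L1 * (x' 0 * u t x' 0 + x' 1 * u t x' 1) := by
    simp only [Fin.sum_univ_three, cj0, cj1, cj2]
    ring
  rw [hsum] at hθ
  have htr : -(c * (6 * U * PP x')) ≤ ∑ j, u t x' j * (c * (2 * x' j)) := by
    have h1 : ∀ j, -(c * (2 * U * PP x')) ≤ u t x' j * (c * (2 * x' j)) := by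
      intro j
      have a1 : |u t x' j| ≤ U := (norm_le_pi_norm (u t x') j).trans (hU t ht x')
      have a2 : |x' j| ≤ ‖x'‖ := norm_le_pi_norm x' j
      have a3 : ‖x'‖ ≤ PP x' := by
        have b1 := PP_norm x'
        have b2 := PP_one x'
        have b3 := norm_nonneg x'
        by_contra hcon'
        push Not at hcon'
        nlinarith
      have a4 : |u t x' j * x' j| ≤ U * PP x' := by
        rw [abs_mul]
        exact mul_le_mul a1 (a2.trans a3) (abs_nonneg _) hU0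
      have a5 : -(U * PP x') ≤ u t x' j * x' j := (abs_le.1 a4).1
      calc -(c * (2 * U * PP x')) = 2 * c * -(U * PP x') := by ring
        _ ≤ 2 * c * (u t x' j * x' j) := by gcongr
        _ = _ := by ring
    calc -(c * (6 * U * PP x')) = ∑ _j : Fin 3, -(c * (2 * U * PP x')) := by
          rw [Finset.sum_const, Finset.card_univ, Fintype.card_fin, nsmul_eq_mul]
          push_cast
          ring
      _ ≤ _ := Finset.sum_le_sum fun j _ => h1 j
  have hkeyM := mul_le_mul_of_nonneg_left hkey hA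
  -- the time derivative
  have hexp : HasDerivAt (fun τ => ε * (Real.exp (K * τ) * PP x'))
      (ε * (Real.exp (K * t) * K * PP x')) t := by
    have h1 : HasDerivAt (fun τ : ℝ => K * τ) K t := by
      simpa using (hasDerivAt_id t).const_mul K
    exact ((h1.exp).mul_const (PP x')).const_mul ε
  have hζd : HasDerivAt (fun τ => δ + A * ζ τ) (A * d') t :=
    (hMj.td.const_mul A).const_add δ
  have hder := (((h.circ_hd htT x').const_mul s).sub hζd).sub hexp
  have hnn := deriv_nonneg_ev hder (by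
    filter_upwards [hMj.tle, Ioo_mem_nhdsLT ht0] with τ h3 hτ
    have h1 := hglob τ ⟨hτ.1.le, hτ.2.le.trans ht.2⟩ x'
    have h2 := hFrot θ
    rw [← hx'] at h2
    rw [← h2, hF] at h1
    have h4 : s * circ (u τ) x' - (δ + A * Φ τ (sg x')) - ε * (Real.exp (K * τ) * PP x')
      ≤ s * circ (u t) x' - (δ + A * Φ t (sg x')) - ε * (Real.exp (K * t) * PP x') := h1
    have h5 := mul_le_mul_of_nonneg_left h3 hA
    have h6 := hMj.teq
    show s * circ (u τ) x' - (δ + A * ζ τ) - ε * (Real.exp (K * τ) * PP x')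
      ≤ s * circ (u t) x' - (δ + A * ζ t) - ε * (Real.exp (K * t) * PP x')
    rw [h6]
    linarith)
  have hP' := PP_one x'
  have e1 : ε * (Real.exp (K * t) * K * PP x') = c * K * PP x' := by rw [hc]; ring
  rw [e1, hK] at hnn
  have h10 : c * (2 * ν * 1) ≤ c * (2 * ν * PP x') := by gcongr
  have h11 : 0 < c * PP x' := mul_pos hc0 (hPpos x')
  nlinarith

end Pool.Agent.TH305.AX
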