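import Pool.Agent.TH305.AX.Bar4

/-!
Axisymmetric flows (helper305): bounds of the barrier; the main theorem.
-/

set_option autoImplicit false

open MeasureTheory Set Metric Filter Topology
open scoped ContDiff

namespace Pool.Agent.TH305.AX

open H459R3.NS W221.NS Pool.Agent.TH305.DR

section
variable {ν C α Λ γ y₁ X₁ : ℝ}

lemma bar_pos (h : Par ν C α Λ γ y₁ X₁) {T t σ : ℝ} (ht : t < T) (hσ : 0 < σ) :
    0 < Bar T C α Λ γ y₁ X₁ t σ := by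
  have hs : 0 < T - t := by linarith
  unfold Bar
  exact mul_pos (Real.rpow_pos_of_pos hs _) (gb_pos h (Real.sqrt_pos.2 (by positivity)))

lemma bar_cont (h : Par ν C α Λ γ y₁ X₁) {T S : ℝ} :
    ContinuousOn (fun z : ℝ × ℝ => Bar T C α Λ γ y₁ X₁ z.1 z.2) (Ico 0 T ×ˢ Ioc 0 S) := by
  have hne : ∀ z ∈ Ico 0 T ×ˢ Ioc 0 S, T - z.1 ≠ 0 := by
    intro z hz
    have : 0 < T - z.1 := by linarith [hz.1.2]
    exact this.ne'
  have h1 : ContinuousOn (fun z : ℝ × ℝ => (T - z.1) ^ (γ / 2)) (Ico 0 T ×ˢ Ioc 0 S) :=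
    ContinuousOn.rpow_const (by fun_prop) fun z hz => Or.inl (hne z hz)
  have h2 : ContinuousOn (fun z : ℝ × ℝ => √(z.2 / (T - z.1))) (Ico 0 T ×ˢ Ioc 0 S) :=
    ContinuousOn.sqrt (continuous_snd.continuousOn.div (by fun_prop) hne)
  unfold Bar
  exact h1.mul ((gb_cont h).comp_continuousOn h2)

/-- The barrier near the axis. -/
lemma bar_low (h : Par ν C α Λ γ y₁ X₁) {T t σ : ℝ} (ht : t ∈ Ico 0 T) (hσ : 0 < σ)
    (hσs : σ ≤ T - t) : (T - t) ^ (γ / 2) * (Λ / (1 + Λ) * (σ / T) ^ α)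
      ≤ Bar T C α Λ γ y₁ X₁ t σ := by
  obtain ⟨s, hs⟩ : ∃ s, s = T - t := ⟨_, rfl⟩
  have hs0 : 0 < s := by rw [hs]; linarith [ht.2]
  have hsT : s ≤ T := by rw [hs]; linarith [ht.1]
  have hL := h.L_pos
  have hα := h.hα
  have hy1 : 1 ≤ y₁ := by
    have := h.hy₁
    have := h.hC
    linarith
  rw [← hs] at hσs
  have hz1 : σ / s ≤ 1 := (div_le_one hs0).2 hσs
  have hz0 : 0 < σ / s := by positivity
  have hsq : √(σ / s) ≤ y₁ := le_trans (Real.sqrt_le_one.2 hz1) hy1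
  unfold Bar gb
  rw [← hs, if_pos hsq]
  unfold gin
  rw [sqrt_pow hz0.le]
  obtain ⟨X, hX⟩ : ∃ X, X = Λ * (σ / s) ^ α := ⟨_, rfl⟩
  have hX0 : 0 < X := by rw [hX]; positivity
  have hX1 : X ≤ Λ := by
    rw [hX]
    have : (σ / s) ^ α ≤ 1 := Real.rpow_le_one hz0.le hz1 hα.le
    nlinarith
  rw [← hX]
  have h1 : X / (1 + X) ≤ 1 - Real.exp (-X) := by
    have h2 := Real.add_one_le_exp X
    have h3 : Real.exp (-X) ≤ 1 / (1 + X) := by
      rw [Real.exp_neg, ← one_div]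
      apply one_div_le_one_div_of_le (by linarith) (by linarith)
    have h4 : X / (1 + X) = 1 - 1 / (1 + X) := by field_simp; ring
    linarith
  have h5 : Λ / (1 + Λ) * (σ / T) ^ α ≤ X / (1 + X) := by
    have h6 : (σ / T) ^ α ≤ (σ / s) ^ α := by
      apply Real.rpow_le_rpow (div_nonneg hσ.le (by linarith)) _ hα.le
      apply div_le_div_of_nonneg_left hσ.le hs0 hsT
    calc Λ / (1 + Λ) * (σ / T) ^ α ≤ Λ / (1 + Λ) * (σ / s) ^ α := by gcongr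
      _ = X / (1 + Λ) := by rw [hX]; ring
      _ ≤ X / (1 + X) := by
        apply div_le_div_of_nonneg_left hX0.le (by linarith) (by linarith)
  have h7 : 0 ≤ s ^ (γ / 2) := (Real.rpow_pos_of_pos hs0 _).le
  exact mul_le_mul_of_nonneg_left (h5.trans h1) h7

lemma bar_axis (h : Par ν C α Λ γ y₁ X₁) {T S : ℝ} : ∀ T' < T, ∀ ε > 0, ∃ δ > 0,
    ∀ t ∈ Icc 0 T', ∀ σ ∈ Ioc 0 S, σ < δ → √σ ≤ ε * Bar T C α Λ γ y₁ X₁ t σ := by
  intro T' hT' ε hε
  rcases lt_or_ge T' 0 with hneg | hT'0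
  · exact ⟨1, one_pos, fun t ht => absurd (ht.1.trans ht.2) (not_le.2 hneg)⟩
  have hT : 0 < T := by linarith
  have hL := h.L_pos
  have hα := h.hα
  have hα2 := h.hα2
  have hγ := h.g_pos
  have hTT : 0 < T - T' := by linarith
  obtain ⟨k, hk⟩ : ∃ k, k = (T - T') ^ (γ / 2) * (Λ / (1 + Λ) * (1 / T) ^ α) := ⟨_, rfl⟩
  have hk0 : 0 < k := by rw [hk]; positivity
  obtain ⟨β, hβ⟩ : ∃ β, β = 1 / 2 - α := ⟨_, rfl⟩
  have hβ0 : 0 < β := by rw [hβ]; linarith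
  refine ⟨min (T - T') ((ε * k) ^ (1 / β)), lt_min hTT (by positivity), ?_⟩
  intro t ht σ hσ hσδ
  have hσ1 : σ < T - T' := hσδ.trans_le (min_le_left _ _)
  have hσ2 : σ < (ε * k) ^ (1 / β) := hσδ.trans_le (min_le_right _ _)
  have hσ0 := hσ.1
  have hlow := bar_low h (t := t) (T := T) ⟨ht.1, ht.2.trans_lt hT'⟩ hσ0 (by linarith [ht.2])
  have h1 : k * σ ^ α ≤ Bar T C α Λ γ y₁ X₁ t σ := by
    refine le_trans ?_ hlow
    have h2 : (σ / T) ^ α = (1 / T) ^ α * σ ^ α := by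
      rw [← Real.mul_rpow (by positivity) hσ0.le]
      congr 1
      ring
    rw [h2, hk]
    have h3 : (T - T') ^ (γ / 2) ≤ (T - t) ^ (γ / 2) :=
      Real.rpow_le_rpow hTT.le (by linarith [ht.2]) (by linarith)
    have h4 : 0 ≤ Λ / (1 + Λ) * ((1 / T) ^ α * σ ^ α) := by positivity
    calc (T - T') ^ (γ / 2) * (Λ / (1 + Λ) * (1 / T) ^ α) * σ ^ α
        = (T - T') ^ (γ / 2) * (Λ / (1 + Λ) * ((1 / T) ^ α * σ ^ α)) := by ring
      _ ≤ _ := mul_le_mul_of_nonneg_right h3 h4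
  have h5 : √σ = σ ^ α * σ ^ β := by
    rw [← Real.rpow_add hσ0, Real.sqrt_eq_rpow, hβ]
    congr 1
    ring
  have h6 : σ ^ β ≤ ε * k := by
    calc σ ^ β ≤ ((ε * k) ^ (1 / β)) ^ β := Real.rpow_le_rpow hσ0.le hσ2.le hβ0.le
      _ = ε * k := by
        rw [← Real.rpow_mul (by positivity), one_div, inv_mul_cancel₀ hβ0.ne', Real.rpow_one]
  rw [h5]
  calc σ ^ α * σ ^ β ≤ σ ^ α * (ε * k) := by gcongr
    _ = ε * (k * σ ^ α) := by ring
    _ ≤ _ := by gcongr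

/-- The barrier at the lateral boundary. -/
lemma bar_lat (h : Par ν C α Λ γ y₁ X₁) {T S : ℝ} (hT : 0 < T) (hS : 0 < S) :
    ∃ m : ℝ, 0 < m ∧ ∀ t ∈ Ico 0 T, m ≤ Bar T C α Λ γ y₁ X₁ t S := by
  have hL := h.L_pos
  have hα := h.hα
  have hγ := h.g_pos
  have hy := h.y1_pos
  have hRS : 0 < √S := Real.sqrt_pos.2 hS
  obtain ⟨m₁, hm₁⟩ : ∃ m₁, m₁ = (S / y₁ ^ 2) ^ (γ / 2) * gin Λ α √(S / T) := ⟨_, rfl⟩
  obtain ⟨m₂, hm₂⟩ : ∃ m₂, m₂ = (1 - Real.exp (-X₁)) * (√S / y₁) ^ γ := ⟨_, rfl⟩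
  have hm₁0 : 0 < m₁ := by
    rw [hm₁]
    exact mul_pos (by positivity) (gin_pos h (Real.sqrt_pos.2 (by positivity)))
  have hm₂0 : 0 < m₂ := by
    rw [hm₂]
    exact mul_pos h.E1.1 (by positivity)
  refine ⟨min m₁ m₂, lt_min hm₁0 hm₂0, fun t ht => ?_⟩
  have hs0 : 0 < T - t := by linarith [ht.2]
  rcases le_or_gt (√(S / (T - t))) y₁ with h1 | h1
  · refine (min_le_left _ _).trans ?_
    rw [hm₁]
    unfold Bar gb
    rw [if_pos h1]
    have h2 : S / y₁ ^ 2 ≤ T - t := by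
      rw [div_le_iff₀ (by positivity)]
      have h3 : S / (T - t) ≤ y₁ ^ 2 := by
        rw [← Real.sqrt_le_left hy.le] at *
        exact h1
      rw [div_le_iff₀ hs0] at h3
      linarith
    have h4 : (S / y₁ ^ 2) ^ (γ / 2) ≤ (T - t) ^ (γ / 2) :=
      Real.rpow_le_rpow (by positivity) h2 (by linarith)
    have h5 : gin Λ α √(S / T) ≤ gin Λ α √(S / (T - t)) := by
      unfold gin
      have h6 : √(S / T) ^ (2 * α) ≤ √(S / (T - t)) ^ (2 * α) := by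
        apply Real.rpow_le_rpow (Real.sqrt_nonneg _) _ (by linarith)
        apply Real.sqrt_le_sqrt
        apply div_le_div_of_nonneg_left hS.le hs0
        linarith [ht.1]
      have h7 : Real.exp (-(Λ * √(S / (T - t)) ^ (2 * α)))
          ≤ Real.exp (-(Λ * √(S / T) ^ (2 * α))) := by
        apply Real.exp_le_exp.2
        have := mul_le_mul_of_nonneg_left h6 hL.le
        linarith
      linarith
    exact mul_le_mul h4 h5 (gin_pos h (Real.sqrt_pos.2 (by positivity))).le (by positivity)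
  · refine (min_le_right _ _).trans ?_
    rw [hm₂, bar_out h ht.2 hS h1]
    have h2 : √(T - t) < √S / y₁ := by
      rw [Real.sqrt_div hS.le, lt_div_iff₀ (Real.sqrt_pos.2 hs0)] at h1
      rw [lt_div_iff₀ hy]
      linarith
    have h3 : √S / y₁ ≤ √S - 2 * C * √(T - t) := by
      have h4 : 2 * C * √(T - t) ≤ 2 * C * (√S / y₁) := by
        have := h.hC
        gcongr
      have h5 : √S - 2 * C * (√S / y₁) = √S / y₁ * (y₁ - 2 * C) := by
        field_simp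
      have h6 : y₁ - 2 * C = 1 := by rw [h.hy₁]; ring
      rw [h6, mul_one] at h5
      linarith
    have h7 := h.E1.1
    have h8 : (√S / y₁) ^ γ ≤ (√S - 2 * C * √(T - t)) ^ γ :=
      Real.rpow_le_rpow (by positivity) h3 hγ.le
    gcongr

/-- A lower bound of the barrier. -/
lemma bar_low2 (h : Par ν C α Λ γ y₁ X₁) {T S : ℝ} (hT : 0 < T) (hS : 0 < S) :
    ∃ m : ℝ, 0 < m ∧ ∀ t ∈ Ico 0 T, ∀ σ ∈ Ioc 0 S, m * σ ^ α ≤ Bar T C α Λ γ y₁ X₁ t σ := by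
  have hL := h.L_pos
  have hα := h.hα
  have hγ := h.g_pos
  have hγα := h.g_lt
  have hy := h.y1_pos
  have hX1 := h.X1_pos
  obtain ⟨m₁, hm₁⟩ : ∃ m₁, m₁ = T ^ (γ / 2 - α) * (Λ / (1 + X₁)) := ⟨_, rfl⟩
  obtain ⟨m₂, hm₂⟩ : ∃ m₂, m₂ = (1 - Real.exp (-X₁)) * ((1 / y₁) ^ γ * S ^ (γ / 2 - α)) :=
    ⟨_, rfl⟩
  have hm₁0 : 0 < m₁ := by rw [hm₁]; positivity
  have hm₂0 : 0 < m₂ := by
    rw [hm₂]
    exact mul_pos h.E1.1 (by positivity)
  refine ⟨min m₁ m₂, lt_min hm₁0 hm₂0, fun t ht σ hσ => ?_⟩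
  have hs0 : 0 < T - t := by linarith [ht.2]
  have hσ0 := hσ.1
  have hσα : 0 < σ ^ α := Real.rpow_pos_of_pos hσ0 _
  rcases le_or_gt (√(σ / (T - t))) y₁ with h1 | h1
  · refine (mul_le_mul_of_nonneg_right (min_le_left _ _) hσα.le).trans ?_
    unfold Bar gb
    rw [if_pos h1]
    obtain ⟨s, hs⟩ : ∃ s, s = T - t := ⟨_, rfl⟩
    have hs0' : 0 < s := by rw [hs]; exact hs0
    have hsT : s ≤ T := by rw [hs]; linarith [ht.1]
    rw [← hs] at h1 ⊢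
    have hz0 : 0 < σ / s := by positivity
    obtain ⟨X, hX⟩ : ∃ X, X = Λ * (σ / s) ^ α := ⟨_, rfl⟩
    have hX0 : 0 < X := by rw [hX]; positivity
    have hXX : X ≤ X₁ := by
      rw [hX, h.hX₁, ← sqrt_pow hz0.le]
      exact mul_le_mul_of_nonneg_left (Real.rpow_le_rpow (Real.sqrt_nonneg _) h1 (by linarith))
        hL.le
    unfold gin
    rw [sqrt_pow hz0.le, ← hX]
    have h2 : X / (1 + X) ≤ 1 - Real.exp (-X) := by
      have h2 := Real.add_one_le_exp X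
      have h3 : Real.exp (-X) ≤ 1 / (1 + X) := by
        rw [Real.exp_neg, ← one_div]
        apply one_div_le_one_div_of_le (by linarith) (by linarith)
      have h4 : X / (1 + X) = 1 - 1 / (1 + X) := by field_simp; ring
      linarith
    have h3 : X / (1 + X₁) ≤ X / (1 + X) :=
      div_le_div_of_nonneg_left hX0.le (by linarith) (by linarith)
    have h4 : T ^ (γ / 2 - α) ≤ s ^ (γ / 2 - α) :=
      Real.rpow_le_rpow_of_nonpos hs0' hsT (by linarith)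
    have h5 : s ^ (γ / 2) * (σ / s) ^ α = s ^ (γ / 2 - α) * σ ^ α := by
      rw [Real.div_rpow hσ0.le hs0'.le, Real.rpow_sub hs0']
      field_simp
    have h6 : 0 < s ^ (γ / 2) := Real.rpow_pos_of_pos hs0' _
    calc m₁ * σ ^ α = T ^ (γ / 2 - α) * (Λ / (1 + X₁)) * σ ^ α := by rw [hm₁]
      _ ≤ s ^ (γ / 2 - α) * (Λ / (1 + X₁)) * σ ^ α := by gcongr
      _ = (s ^ (γ / 2) * (σ / s) ^ α) * (Λ / (1 + X₁)) := by rw [h5]; ring
      _ = s ^ (γ / 2) * (X / (1 + X₁)) := by rw [hX]; ring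
      _ ≤ s ^ (γ / 2) * (1 - Real.exp (-X)) :=
        mul_le_mul_of_nonneg_left (h3.trans h2) h6.le
  · refine (mul_le_mul_of_nonneg_right (min_le_right _ _) hσα.le).trans ?_
    rw [bar_out h ht.2 hσ0 h1]
    have h2 : √(T - t) < √σ / y₁ := by
      rw [Real.sqrt_div hσ0.le, lt_div_iff₀ (Real.sqrt_pos.2 hs0)] at h1
      rw [lt_div_iff₀ hy]
      linarith
    have h3 : √σ / y₁ ≤ √σ - 2 * C * √(T - t) := by
      have h4 : 2 * C * √(T - t) ≤ 2 * C * (√σ / y₁) := by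
        have := h.hC
        gcongr
      have h5 : √σ - 2 * C * (√σ / y₁) = √σ / y₁ * (y₁ - 2 * C) := by
        field_simp
      have h6 : y₁ - 2 * C = 1 := by rw [h.hy₁]; ring
      rw [h6, mul_one] at h5
      linarith
    have h7 := h.E1.1
    have hRσ : 0 < √σ := Real.sqrt_pos.2 hσ0
    have h8 : (√σ / y₁) ^ γ ≤ (√σ - 2 * C * √(T - t)) ^ γ :=
      Real.rpow_le_rpow (by positivity) h3 hγ.le
    have h9 : (√σ / y₁) ^ γ = (1 / y₁) ^ γ * σ ^ (γ / 2) := by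
      have e1 : √σ / y₁ = 1 / y₁ * √σ := by ring
      rw [e1, Real.mul_rpow (by positivity) hRσ.le]
      congr 1
      rw [← sqrt_pow hσ0.le]
      congr 1
      ring
    have h10 : S ^ (γ / 2 - α) * σ ^ α ≤ σ ^ (γ / 2) := by
      have e1 : σ ^ (γ / 2) = σ ^ (γ / 2 - α) * σ ^ α := by
        rw [← Real.rpow_add hσ0]
        congr 1
        ring
      rw [e1]
      exact mul_le_mul_of_nonneg_right (Real.rpow_le_rpow_of_nonpos hσ0 hσ.2 (by linarith)) hσα.le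
    rw [hm₂]
    calc (1 - Real.exp (-X₁)) * ((1 / y₁) ^ γ * S ^ (γ / 2 - α)) * σ ^ α
        = (1 - Real.exp (-X₁)) * ((1 / y₁) ^ γ * (S ^ (γ / 2 - α) * σ ^ α)) := by ring
      _ ≤ (1 - Real.exp (-X₁)) * ((1 / y₁) ^ γ * σ ^ (γ / 2)) := by gcongr
      _ = (1 - Real.exp (-X₁)) * (√σ / y₁) ^ γ := by rw [h9]
      _ ≤ _ := by gcongr

/-- The barrier at the initial time. -/
lemma bar_ini (h : Par ν C α Λ γ y₁ X₁) {T S : ℝ} (hT : 0 < T) (hS : 0 < S) :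
    ∃ k : ℝ, 0 < k ∧ ∀ σ ∈ Ioc 0 S, k * √σ ≤ Bar T C α Λ γ y₁ X₁ 0 σ := by
  obtain ⟨δ, hδ, hδ'⟩ := bar_axis h (T := T) (S := S) 0 hT 1 one_pos
  have hT0 : (0 : ℝ) ∈ Ico 0 T := ⟨le_rfl, hT⟩
  have hc : ContinuousOn (fun σ => Bar T C α Λ γ y₁ X₁ 0 σ) (Icc (min δ S) S) :=
    (bar_cont h (T := T) (S := S)).comp (f := fun σ : ℝ => ((0 : ℝ), σ)) (by fun_prop)
      fun σ hσ => ⟨hT0, (lt_min hδ hS).trans_le hσ.1, hσ.2⟩
  obtain ⟨σ₀, hσ₀, hmin⟩ := isCompact_Icc.exists_isMinOn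
    (nonempty_Icc.2 (min_le_right δ S)) hc
  have hσ₀0 : 0 < σ₀ := (lt_min hδ hS).trans_le hσ₀.1
  have hm0 : 0 < Bar T C α Λ γ y₁ X₁ 0 σ₀ := bar_pos h hT hσ₀0
  have hRS : 0 < √S := Real.sqrt_pos.2 hS
  refine ⟨min 1 (Bar T C α Λ γ y₁ X₁ 0 σ₀ / √S), lt_min one_pos (by positivity), fun σ hσ => ?_⟩
  have hsq := Real.sqrt_nonneg σ
  rcases lt_or_ge σ δ with h1 | h1
  · have h2 := hδ' 0 ⟨le_rfl, le_rfl⟩ σ hσ h1
    rw [one_mul] at h2
    refine le_trans ?_ h2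
    have := min_le_left 1 (Bar T C α Λ γ y₁ X₁ 0 σ₀ / √S)
    nlinarith
  · have h2 : Bar T C α Λ γ y₁ X₁ 0 σ₀ ≤ Bar T C α Λ γ y₁ X₁ 0 σ :=
      hmin (show σ ∈ Icc (min δ S) S from ⟨(min_le_left _ _).trans h1, hσ.2⟩)
    refine le_trans ?_ h2
    have h3 := min_le_right 1 (Bar T C α Λ γ y₁ X₁ 0 σ₀ / √S)
    have h4 : √σ ≤ √S := Real.sqrt_le_sqrt hσ.2
    calc min 1 (Bar T C α Λ γ y₁ X₁ 0 σ₀ / √S) * √σ
        ≤ Bar T C α Λ γ y₁ X₁ 0 σ₀ / √S * √S := by gcongr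
      _ = _ := by field_simp

/-- Upper bound of the barrier. -/
lemma bar_up (h : Par ν C α Λ γ y₁ X₁) {T t σ : ℝ} (ht : t < T) (hσ : 0 < σ) :
    Bar T C α Λ γ y₁ X₁ t σ ≤ (Λ + 1) * σ ^ (γ / 2) := by
  have hL := h.L_pos
  have hα := h.hα
  have hγ := h.g_pos
  have hγα := h.g_lt
  have hs0 : 0 < T - t := by linarith
  have hσγ : 0 < σ ^ (γ / 2) := Real.rpow_pos_of_pos hσ _
  rcases le_or_gt (√(σ / (T - t))) y₁ with h1 | h1
  · unfold Bar gb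
    rw [if_pos h1]
    obtain ⟨z, hz⟩ : ∃ z, z = σ / (T - t) := ⟨_, rfl⟩
    have hz0 : 0 < z := by rw [hz]; positivity
    have hσz : σ = (T - t) * z := by rw [hz]; field_simp
    unfold gin
    rw [← hz, sqrt_pow hz0.le]
    have h2 : 1 - Real.exp (-(Λ * z ^ α)) ≤ (Λ + 1) * z ^ (γ / 2) := by
      have h3 : 0 < z ^ (γ / 2) := Real.rpow_pos_of_pos hz0 _
      rcases le_total z 1 with h4 | h4
      · have h5 := Real.add_one_le_exp (-(Λ * z ^ α))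
        have h6 : z ^ α ≤ z ^ (γ / 2) :=
          Real.rpow_le_rpow_of_exponent_ge hz0 h4 (by linarith)
        have h7 : Λ * z ^ α ≤ Λ * z ^ (γ / 2) := by gcongr
        linarith
      · have h5 := Real.exp_pos (-(Λ * z ^ α))
        have h6 : 1 ≤ z ^ (γ / 2) := Real.one_le_rpow h4 (by linarith)
        nlinarith
    have h3 : 0 ≤ (T - t) ^ (γ / 2) := (Real.rpow_pos_of_pos hs0 _).le
    calc (T - t) ^ (γ / 2) * (1 - Real.exp (-(Λ * z ^ α)))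
        ≤ (T - t) ^ (γ / 2) * ((Λ + 1) * z ^ (γ / 2)) := by gcongr
      _ = (Λ + 1) * ((T - t) ^ (γ / 2) * z ^ (γ / 2)) := by ring
      _ = (Λ + 1) * σ ^ (γ / 2) := by rw [← Real.mul_rpow hs0.le hz0.le, ← hσz]
  · rw [bar_out h ht hσ h1]
    have h2 : (√σ - 2 * C * √(T - t)) ^ γ ≤ √σ ^ γ := by
      have h3 : √(T - t) * y₁ < √σ := by
        rw [Real.sqrt_div hσ.le, lt_div_iff₀ (Real.sqrt_pos.2 hs0)] at h1
        linarith
      have h4 := h.hy₁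
      have h5 := Real.sqrt_pos.2 hs0
      have h6 := h.hC
      apply Real.rpow_le_rpow _ _ hγ.le
      · rw [h4] at h3
        linarith
      · have : 0 ≤ 2 * C * √(T - t) := by positivity
        linarith
    have h3 : √σ ^ γ = σ ^ (γ / 2) := by
      rw [← sqrt_pow hσ.le]
      congr 1
      ring
    rw [h3] at h2
    have h4 := h.E1
    have h5 : 0 ≤ (√σ - 2 * C * √(T - t)) ^ γ ∨ True := Or.inr trivial
    calc (1 - Real.exp (-X₁)) * (√σ - 2 * C * √(T - t)) ^ γ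
        ≤ (1 - Real.exp (-X₁)) * σ ^ (γ / 2) := mul_le_mul_of_nonneg_left h2 h4.1.le
      _ ≤ 1 * σ ^ (γ / 2) := mul_le_mul_of_nonneg_right h4.2 hσγ.le
      _ ≤ (Λ + 1) * σ ^ (γ / 2) := by
        apply mul_le_mul_of_nonneg_right _ hσγ.le
        linarith

end

end Pool.Agent.TH305.AX
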