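import Pool.Agent.TH305.AX.BVfin
import Pool.Agent.TH305.AX.BVgen
import Pool.Agent.TH305.AX.Bar5

/-!
Axisymmetric flows (helper305): ancient solutions, one-sided condition of type I.
-/

set_option autoImplicit false

open MeasureTheory Set Metric Filter Topology
open scoped ContDiff

namespace Pool.Agent.TH305.AX

open H459R3.NS W221.NS Pool.Agent.TH305.DR

variable {ν T : ℝ} {u : ℝ → V → V} {p : ℝ → V → ℝ}

lemma BSol.restrict (h : BSol ν T u p) {T' : ℝ} (hT : T' ≤ T) : BSol ν T' u p where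
  smooth_u := h.smooth_u.mono (prod_mono (Ico_subset_Ico_right hT) Subset.rfl)
  smooth_p := h.smooth_p.mono (prod_mono (Ioo_subset_Ioo_right hT) Subset.rfl)
  divfree := fun t ht => h.divfree t ⟨ht.1, ht.2.trans_le hT⟩
  momentum := fun t ht => h.momentum t ⟨ht.1, ht.2.trans_le hT⟩
  axi := fun t ht => h.axi t ⟨ht.1, ht.2.trans_le hT⟩
  bdd := fun S hS => h.bdd S (hS.trans_le hT)

/-- `1 - exp (-z) ≥ z / (1 + z)`. -/
lemma one_sub_exp_ge {z : ℝ} (hz : 0 ≤ z) : z / (1 + z) ≤ 1 - Real.exp (-z) := by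
  have h1 : Real.exp (-z) ≤ 1 / (1 + z) := by
    rw [Real.exp_neg, ← one_div]
    apply one_div_le_one_div_of_le (by positivity)
    have := Real.add_one_le_exp z
    linarith
  have h2 : z / (1 + z) = 1 - 1 / (1 + z) := by
    have : (1 + z) ≠ 0 := by positivity
    field_simp
    ring
  linarith

/-- A lower bound of the profile. -/
lemma gb_low {C α Λ γ y₁ X₁ : ℝ} (h : Par ν C α Λ γ y₁ X₁) : ∃ k : ℝ, 0 < k ∧
    ∀ y, 0 ≤ y → min 1 (y ^ (2 * α)) ≤ k * gb C α Λ γ y₁ X₁ y := by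
  have hΛ := h.L_pos
  have hX := h.X1_pos
  have hα := h.hα
  refine ⟨(1 + X₁) * (1 / Λ + 1 / X₁), by positivity, fun y hy => ?_⟩
  unfold gb
  split_ifs with h1
  · obtain ⟨Z, hZ⟩ : ∃ Z, Z = y ^ (2 * α) := ⟨_, rfl⟩
    have hZ0 : 0 ≤ Z := by rw [hZ]; positivity
    have hZ1 : Λ * Z ≤ X₁ := by
      rw [h.hX₁, hZ]
      gcongr
    have h2 := one_sub_exp_ge (z := Λ * Z) (by positivity)
    have h3 : Λ * Z / (1 + X₁) ≤ 1 - Real.exp (-(Λ * Z)) := by
      refine le_trans ?_ h2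
      apply div_le_div_of_nonneg_left (by positivity) (by positivity)
      linarith
    unfold gin
    rw [← hZ]
    calc min 1 Z ≤ Z := min_le_right _ _
      _ = (1 + X₁) * (1 / Λ) * (Λ * Z / (1 + X₁)) := by field_simp
      _ ≤ (1 + X₁) * (1 / Λ + 1 / X₁) * (Λ * Z / (1 + X₁)) := by
        gcongr
        have : 0 < 1 / X₁ := by positivity
        linarith
      _ ≤ _ := by gcongr
  · push Not at h1
    have h2 := one_sub_exp_ge hX.le
    have h3 : 1 ≤ (y - 2 * C) ^ γ := by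
      apply Real.one_le_rpow _ h.g_pos.le
      have := h.hy₁
      linarith
    unfold gout
    calc min 1 (y ^ (2 * α)) ≤ 1 := min_le_left _ _
      _ = (1 + X₁) * (1 / X₁) * (X₁ / (1 + X₁)) := by field_simp
      _ ≤ (1 + X₁) * (1 / Λ + 1 / X₁) * (X₁ / (1 + X₁)) := by
        gcongr
        have : 0 < 1 / Λ := by positivity
        linarith
      _ ≤ (1 + X₁) * (1 / Λ + 1 / X₁) * (1 - Real.exp (-X₁)) := by gcongr
      _ = (1 + X₁) * (1 / Λ + 1 / X₁) * ((1 - Real.exp (-X₁)) * 1) := by ring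
      _ ≤ _ := by
        have := h.E1.1
        gcongr

/-- The first stage: smoothing on the first half of a long time interval. -/
lemma stage1 (hν : 0 < ν) {S C μ M δ : ℝ} (hS : 0 < S) (hC : 0 ≤ C) (hμ : 0 < μ) (hμ1 : μ ≤ 1)
    (hM : 0 ≤ M) (hδ : 0 < δ) (h : BSol ν (2 * S) u p) (hin : ∀ x, |circ (u 0) x| ≤ M)
    (hcond : ∀ t ∈ Ioo 0 (2 * S), ∀ x, 0 < sg x → δ < |circ (u t) x| →
      -((2 - μ) * ν) - C * √(sg x) / √(2 * S - t) ≤ x 0 * u t x 0 + x 1 * u t x 1) (x : V) :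
    |circ (u S) x| ≤ δ + M * lo (μ / 4) (μ * ν / (2 * (1 + 3 * C ^ 2 / (μ * ν))) * S) (sg x) := by
  obtain ⟨c, hc⟩ : ∃ c : ℝ, c = μ * ν / (2 * (1 + 3 * C ^ 2 / (μ * ν))) := ⟨_, rfl⟩
  have hc0 : 0 < c := by rw [hc]; positivity
  rw [← hc]
  have hc1 : 2 * c * (1 + 3 * C ^ 2 / (μ * ν)) = μ * ν := by
    rw [hc]
    field_simp
  have hh := h.restrict (T' := 3 / 2 * S) (by linarith)
  have ha : 0 < μ / 4 := by positivity
  obtain ⟨η', hη', hini'⟩ := ini h (by positivity) (δ := δ) hM hδ ha hin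
  obtain ⟨b, hb⟩ : ∃ b : ℝ, b = C ^ 2 / (μ * ν * S) := ⟨_, rfl⟩
  have hb0 : 0 ≤ b := by rw [hb]; positivity
  obtain ⟨η, hη, hηη', hηb⟩ : ∃ η : ℝ, 0 < η ∧ η ≤ η' ∧ 4 * b * η ≤ μ * ν := by
    refine ⟨min η' (μ * ν / (4 * b + 1)), lt_min hη' (by positivity), min_le_left _ _, ?_⟩
    have h1 : min η' (μ * ν / (4 * b + 1)) ≤ μ * ν / (4 * b + 1) := min_le_right _ _
    rw [le_div_iff₀ (by positivity)] at h1
    have h2 : 0 < min η' (μ * ν / (4 * b + 1)) := lt_min hη' (by positivity)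
    nlinarith
  have hmono : ∀ {q q' : ℝ}, 0 < q → q ≤ q' → ∀ y : V, lo (μ / 4) q' (sg y) ≤ lo (μ / 4) q (sg y) := by
    intro q q' hq hqq y
    have hq' : 0 < q' := hq.trans_le hqq
    unfold lo
    apply Real.rpow_le_rpow (lo_nonneg hq' (sg_nonneg y)) _ ha.le
    have h1 : sg y / q' ≤ sg y / q := div_le_div_of_nonneg_left (sg_nonneg y) hq hqq
    have : Real.exp (-(sg y / q)) ≤ Real.exp (-(sg y / q')) := Real.exp_le_exp.2 (by linarith)
    linarith
  have hbS : b * S = C ^ 2 / (μ * ν) := by rw [hb]; field_simp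
  have key := swirl_cmp hν hh (M := M) (δ := δ) (a := μ / 4) hM hδ ha (by linarith)
    (φ := fun t => η + c * t) (φ' := fun _ => c) (B := fun _ => b)
    (fun t ht => by
      have := mul_nonneg hc0.le ht.1
      show 0 < η + c * t
      linarith)
    (by fun_prop)
    (fun t ht => by
      have h1 : HasDerivAt (fun t : ℝ => c * t) c t := by
        simpa using (hasDerivAt_id t).const_mul c
      exact h1.const_add η)
    (fun t ht => by
      show c ≤ 4 * (μ / 4) * ν - 2 * b * (η + c * t)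
      have h1 : b * t ≤ b * (3 / 2 * S) := mul_le_mul_of_nonneg_left ht.2.le hb0
      have h2 : c * (b * t) ≤ c * (3 / 2 * (C ^ 2 / (μ * ν))) := by
        apply mul_le_mul_of_nonneg_left _ hc0.le
        rw [← hbS]
        linarith
      have h3 : 2 * c + 2 * c * (3 * C ^ 2 / (μ * ν)) = μ * ν := by linear_combination hc1
      have h4 : c * (3 / 2 * (C ^ 2 / (μ * ν))) = 1 / 4 * (2 * c * (3 * C ^ 2 / (μ * ν))) := by
        ring
      have h5 : 0 ≤ 2 * c * (3 * C ^ 2 / (μ * ν)) := by positivity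
      rw [h4] at h2
      nlinarith)
    (fun y => by
      show |circ (u 0) y| ≤ δ + M * lo (μ / 4) (η + c * 0) (sg y)
      rw [mul_zero, add_zero]
      have h1 := mul_le_mul_of_nonneg_left (hmono hη hηη' y) hM
      exact (hini' y).trans (by linarith))
    (fun t ht y hy hyd => by
      show -(2 * (1 - μ / 4) * ν) - b * sg y ≤ y 0 * u t y 0 + y 1 * u t y 1
      have h1 := hcond t ⟨ht.1, ht.2.trans_le (by linarith)⟩ y hy hyd
      obtain ⟨w, hw⟩ : ∃ w : ℝ, w = 2 * S - t := ⟨_, rfl⟩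
      have hw1 : S / 2 < w := by rw [hw]; linarith [ht.2]
      have hw0 : 0 < w := by linarith
      rw [← hw] at h1
      obtain ⟨g, hg⟩ : ∃ g : ℝ, g = C * √(sg y) / √w := ⟨_, rfl⟩
      have hg2 : g ^ 2 = C ^ 2 * sg y / w := by
        rw [hg, div_pow, mul_pow, Real.sq_sqrt hy.le, Real.sq_sqrt hw0.le]
      rw [← hg] at h1
      have h2 : g ≤ μ / 2 * ν + g ^ 2 / (2 * μ * ν) := by
        have h3 : 0 < 2 * μ * ν := by positivity
        rw [← sub_nonneg]
        have h4 : μ / 2 * ν + g ^ 2 / (2 * μ * ν) - g = (g - μ * ν) ^ 2 / (2 * μ * ν) := by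
          field_simp
          ring
        rw [h4]
        positivity
      have h5 : g ^ 2 / (2 * μ * ν) ≤ b * sg y := by
        rw [hg2, hb, div_div, div_mul_eq_mul_div]
        apply div_le_div_of_nonneg_left (by positivity) (by positivity)
        have h6 : 0 < μ * ν := by positivity
        nlinarith
      linarith)
    S ⟨hS.le, by linarith⟩ x
  have h1 : c * S ≤ η + c * S := by linarith
  have h2 := mul_le_mul_of_nonneg_left (hmono (q := c * S) (by positivity) h1 x) hM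
  have h3 : |circ (u S) x| ≤ δ + M * lo (μ / 4) (η + c * S) (sg x) := key
  linarith

/-- **Ancient solutions**, condition of type I. -/
theorem ancientC (hν : 0 < ν)
    (h : ∀ t₀ < 0, BSol ν (-t₀) (fun t => u (t₀ + t)) (fun t => p (t₀ + t))) {M : ℝ}
    (hM : ∀ t < 0, ∀ x, |circ (u t) x| ≤ M)
    (hcond : ∀ δ > 0, ∃ μ > 0, ∃ C : ℝ, ∀ t < 0, ∀ x, 0 < sg x → δ < |circ (u t) x| →
      -((2 - μ) * ν) - C * √(sg x) / √(-t) ≤ x 0 * u t x 0 + x 1 * u t x 1) :
    ∀ t < 0, ∀ x, circ (u t) x = 0 := by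
  intro t ht x
  have hM0 : 0 ≤ M := (abs_nonneg _).trans (hM t ht x)
  rw [← abs_nonpos_iff]
  apply le_of_forall_pos_le_add
  intro d hd
  rw [zero_add]
  obtain ⟨μ', hμ', C', hc'⟩ := hcond (d / 2) (by positivity)
  obtain ⟨μ, hμe⟩ : ∃ μ : ℝ, μ = min μ' 1 := ⟨_, rfl⟩
  have hμ : 0 < μ := by rw [hμe]; exact lt_min hμ' (by norm_num)
  have hμ1 : μ ≤ 1 := by rw [hμe]; exact min_le_right _ _
  have hμμ : μ ≤ μ' := by rw [hμe]; exact min_le_left _ _
  obtain ⟨C, hCe⟩ : ∃ C : ℝ, C = max C' 0 := ⟨_, rfl⟩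
  have hC : 0 ≤ C := by rw [hCe]; exact le_max_right _ _
  have hCC : C' ≤ C := by rw [hCe]; exact le_max_left _ _
  have hc : ∀ t < 0, ∀ x, 0 < sg x → d / 2 < |circ (u t) x| →
      -((2 - μ) * ν) - C * √(sg x) / √(-t) ≤ x 0 * u t x 0 + x 1 * u t x 1 := by
    intro s hs y hy hyd
    have h1 := hc' s hs y hy hyd
    have h2 : -((2 - μ) * ν) ≤ -((2 - μ') * ν) := by nlinarith
    have h3 : C' * √(sg y) / √(-s) ≤ C * √(sg y) / √(-s) := by gcongr
    linarith
  have hα0 : 0 < μ / 4 := by positivity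
  obtain ⟨Λ, γ, y₁, X₁, hpar⟩ := par_exists hν hC hα0 (show μ / 4 < 1 / 2 by linarith)
  obtain ⟨k, hk, hlow⟩ := gb_low hpar
  obtain ⟨c, hce⟩ : ∃ c : ℝ, c = μ * ν / (2 * (1 + 3 * C ^ 2 / (μ * ν))) := ⟨_, rfl⟩
  have hc0 : 0 < c := by rw [hce]; positivity
  obtain ⟨K₀, hK₀⟩ : ∃ K₀ : ℝ, K₀ = max 1 ((1 / c) ^ (μ / 4)) := ⟨_, rfl⟩
  have hK1 : 1 ≤ K₀ := by rw [hK₀]; exact le_max_left _ _
  have hK2 : (1 / c) ^ (μ / 4) ≤ K₀ := by rw [hK₀]; exact le_max_right _ _
  obtain ⟨G, hG⟩ : ∃ G : ℝ, G = (-t) ^ (γ / 2) * gb C (μ / 4) Λ γ y₁ X₁ (√(sg x / -t)) := ⟨_, rfl⟩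
  -- a long time interval
  have hlim : Tendsto (fun s : ℝ => s ^ (γ / 2)) atTop atTop :=
    tendsto_rpow_atTop (by have := hpar.g_pos; positivity)
  obtain ⟨S, hS1, hS2⟩ := ((hlim.eventually_ge_atTop (2 * (M * K₀ * k * G) / d)).and
    (eventually_gt_atTop (-t))).exists
  have hS0 : 0 < S := by linarith
  have hSg : 0 < S ^ (γ / 2) := Real.rpow_pos_of_pos hS0 _
  -- first stage
  have hB1 := h (-(2 * S)) (by linarith)
  rw [neg_neg] at hB1
  have st1 := fun y => stage1 (u := fun t => u (-(2 * S) + t)) hν hS0 hC hμ hμ1 hM0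
    (show 0 < d / 2 by positivity) hB1
    (fun z => by
      show |circ (u (-(2 * S) + 0)) z| ≤ M
      exact hM _ (by linarith) z)
    (fun s hs z hz hzd => by
      have h1 := hc (-(2 * S) + s) (by linarith [hs.2]) z hz hzd
      have e : -(-(2 * S) + s) = 2 * S - s := by ring
      rw [e] at h1
      exact h1) y
  rw [← hce] at st1
  have e1 : -(2 * S) + S = -S := by ring
  simp only [e1] at st1
  -- second stage
  have hB2 := h (-S) (by linarith)
  rw [neg_neg] at hB2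
  obtain ⟨A, hA⟩ : ∃ A : ℝ, A = M * K₀ * k / S ^ (γ / 2) := ⟨_, rfl⟩
  have hA0 : 0 ≤ A := by rw [hA]; positivity
  have hbarnn : ∀ s ∈ Ico 0 S, ∀ σ, 0 ≤ σ → 0 ≤ Bar S C (μ / 4) Λ γ y₁ X₁ s σ := by
    intro s hs σ hσ
    unfold Bar
    apply mul_nonneg
    · exact Real.rpow_nonneg (by linarith [hs.2]) _
    · rcases eq_or_lt_of_le (Real.sqrt_nonneg (σ / (S - s))) with h1 | h1
      · rw [← h1]
        have h2 := hlow 0 le_rfl
        have h3 : (0 : ℝ) ≤ min 1 (0 ^ (2 * (μ / 4))) := le_min zero_le_one (Real.rpow_nonneg le_rfl _)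
        by_contra hneg
        push Not at hneg
        nlinarith
      · exact (gb_pos hpar h1).le
  have key := cmpB hν hB2 (A := A) (δ := d / 2) hA0 (by positivity)
    (Φ := Bar S C (μ / 4) Λ γ y₁ X₁) hbarnn
    (by
      unfold Bar
      have h1 : ContinuousOn (fun z : ℝ × ℝ => S - z.1) (Ico 0 S ×ˢ Ici 0) := by fun_prop
      have h2 : ContinuousOn (fun z : ℝ × ℝ => z.2) (Ico 0 S ×ˢ Ici 0) := by fun_prop
      have h3 : ∀ z ∈ Ico 0 S ×ˢ Ici (0 : ℝ), S - z.1 ≠ 0 := fun z hz => by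
        have := hz.1.2
        exact (by linarith : 0 < S - z.1).ne'
      exact (h1.rpow_const fun z hz => Or.inl (h3 z hz)).mul
        ((gb_cont hpar).comp_continuousOn ((h2.div h1 h3).sqrt)))
    (fun y => by
      show |circ (u (-S + 0)) y| ≤ d / 2 + A * Bar S C (μ / 4) Λ γ y₁ X₁ 0 (sg y)
      rw [add_zero]
      refine (st1 y).trans ?_
      have hσ := sg_nonneg y
      obtain ⟨z, hz⟩ : ∃ z : ℝ, z = sg y / S := ⟨_, rfl⟩
      have hz0 : 0 ≤ z := by rw [hz]; positivity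
      have h1 : lo (μ / 4) (c * S) (sg y) ≤ K₀ * min 1 (√z ^ (2 * (μ / 4))) := by
        rw [sqrt_pow hz0]
        unfold lo
        have h2 : sg y / (c * S) = z * (1 / c) := by rw [hz]; field_simp
        rw [h2]
        have h3 : 0 ≤ 1 - Real.exp (-(z * (1 / c))) := by
          have : Real.exp (-(z * (1 / c))) ≤ 1 := Real.exp_le_one_iff.2 (by
            have : 0 ≤ z * (1 / c) := by positivity
            linarith)
          linarith
        have h4 : 1 - Real.exp (-(z * (1 / c))) ≤ 1 := by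
          have := Real.exp_pos (-(z * (1 / c)))
          linarith
        have h5 : 1 - Real.exp (-(z * (1 / c))) ≤ z * (1 / c) := by
          have := Real.add_one_le_exp (-(z * (1 / c)))
          linarith
        rw [mul_min_of_nonneg _ _ (by linarith)]
        apply le_min
        · rw [mul_one]
          exact (Real.rpow_le_one h3 h4 hα0.le).trans hK1
        · calc (1 - Real.exp (-(z * (1 / c)))) ^ (μ / 4) ≤ (z * (1 / c)) ^ (μ / 4) :=
                Real.rpow_le_rpow h3 h5 hα0.le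
            _ = z ^ (μ / 4) * (1 / c) ^ (μ / 4) := Real.mul_rpow hz0 (by positivity)
            _ ≤ z ^ (μ / 4) * K₀ := by gcongr
            _ = K₀ * z ^ (μ / 4) := by ring
      have h2 := hlow (√z) (Real.sqrt_nonneg _)
      have h3 : A * Bar S C (μ / 4) Λ γ y₁ X₁ 0 (sg y) = M * K₀ * (k * gb C (μ / 4) Λ γ y₁ X₁ (√z)) := by
        unfold Bar
        rw [hA, sub_zero, ← hz]
        field_simp
      rw [h3]
      have h4 : M * lo (μ / 4) (c * S) (sg y) ≤ M * (K₀ * min 1 (√z ^ (2 * (μ / 4)))) :=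
        mul_le_mul_of_nonneg_left h1 hM0
      have h5 : M * K₀ * min 1 (√z ^ (2 * (μ / 4))) ≤ M * K₀ * (k * gb C (μ / 4) Λ γ y₁ X₁ (√z)) := by
        apply mul_le_mul_of_nonneg_left h2
        positivity
      linarith)
    (fun s hs y hy hyd => by
      have h1 := hc (-S + s) (by linarith [hs.2]) y hy hyd
      have e : -(-S + s) = S - s := by ring
      rw [e] at h1
      have hw : -((2 - 2 * (μ / 4)) * ν) - C * √(sg y) / √(S - s) - 0 * sg y
          ≤ y 0 * u (-S + s) y 0 + y 1 * u (-S + s) y 1 := by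
        have h2 : -((2 - 2 * (μ / 4)) * ν) ≤ -((2 - μ) * ν) := by nlinarith
        linarith
      rcases le_or_gt (√(sg y / (S - s))) y₁ with hy1 | hy1
      · obtain ⟨χ, χ₁, c₂, d', ζ, g1, g2⟩ := inner_maj hpar hs.2 hy hy1 le_rfl hw
        exact ⟨χ, χ₁, c₂, d', ζ, g1, by
          rw [zero_mul, add_zero] at g2
          exact g2⟩
      · obtain ⟨χ, χ₁, c₂, d', ζ, g1, g2⟩ := outer_maj hpar hs.2 hy hy1 le_rfl hw
        exact ⟨χ, χ₁, c₂, d', ζ, g1, by
          rw [zero_mul, add_zero] at g2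
          exact g2⟩)
    (t + S) ⟨by linarith, by linarith⟩ x
  have e2 : -S + (t + S) = t := by ring
  simp only [e2] at key
  have e3 : Bar S C (μ / 4) Λ γ y₁ X₁ (t + S) (sg x) = G := by
    unfold Bar
    rw [hG]
    have : S - (t + S) = -t := by ring
    rw [this]
  rw [e3] at key
  have h6 : A * G ≤ d / 2 := by
    rw [hA, div_mul_eq_mul_div, div_le_iff₀ hSg]
    rw [div_le_iff₀ hd] at hS1
    linarith
  linarith

end Pool.Agent.TH305.AX
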