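import Pool.Agent.TH305.AX.Max
import Pool.Agent.TH305.AX.CmpT2

/-!
Axisymmetric flows (helper305): locally bounded solutions, the Lamb-Oseen barrier.
-/

set_option autoImplicit false

open MeasureTheory Set Metric Filter Topology
open scoped ContDiff

namespace Pool.Agent.TH305.AX

open H459R3.NS W221.NS Pool.Agent.TH305.DR

/-- `(u, p)` is a smooth axisymmetric solution of the Navier-Stokes equations with viscosity `ν`
and without force on `[0, T) × ℝ³` and `u` is bounded on `[0, T'] × ℝ³` for each `T' < T`. -/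
structure BSol (ν T : ℝ) (u : ℝ → V → V) (p : ℝ → V → ℝ) : Prop where
  smooth_u : ContDiffOn ℝ ∞ (fun z : ℝ × V => u z.1 z.2) (Ico 0 T ×ˢ univ)
  smooth_p : ContDiffOn ℝ ∞ (fun z : ℝ × V => p z.1 z.2) (Ioo 0 T ×ˢ univ)
  divfree : ∀ t ∈ Ico 0 T, ∀ x, ∑ i, pd i (fun y => u t y i) x = 0
  momentum : ∀ t ∈ Ioo 0 T, ∀ x i,
    deriv (fun s => u s x i) t + ∑ j, u t x j * pd j (fun y => u t y i) x
      = ν * ∑ j, pd j (pd j (fun y => u t y i)) x - pd i (p t) x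
  axi : ∀ t ∈ Ico 0 T, Axi (u t)
  bdd : ∀ T' < T, ∃ U : ℝ, ∀ t ∈ Icc 0 T', ∀ x, ‖u t x‖ ≤ U

variable {ν T : ℝ} {u : ℝ → V → V} {p : ℝ → V → ℝ}

namespace BSol

lemma slice0 (h : BSol ν T u p) {t : ℝ} (ht : t ∈ Ico 0 T) : ContDiff ℝ ∞ (u t) := by
  rw [← contDiffOn_univ]
  exact h.smooth_u.comp (f := fun x : V => (t, x)) (by fun_prop) (fun x _ => ⟨ht, mem_univ _⟩)

lemma slicep (h : BSol ν T u p) {t : ℝ} (ht : t ∈ Ioo 0 T) : Differentiable ℝ (p t) := by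
  have h1 : ContDiff ℝ ∞ (p t) := by
    rw [← contDiffOn_univ]
    exact h.smooth_p.comp (f := fun x : V => (t, x)) (by fun_prop) (fun x _ => ⟨ht, mem_univ _⟩)
  exact h1.differentiable (by norm_cast)

/-- The time derivative of the circulation. -/
lemma circ_hd (h : BSol ν T u p) {t : ℝ} (ht : t ∈ Ioo 0 T) (x : V) :
    HasDerivAt (fun τ => circ (u τ) x)
      (x 0 * deriv (fun s => u s x 1) t - x 1 * deriv (fun s => u s x 0) t) t := by
  have hi : ∀ i : Fin 3, HasDerivAt (fun s => u s x i) (deriv (fun s => u s x i) t) t := by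
    intro i
    have h1 : ContDiffOn ℝ ∞ (fun s : ℝ => u s x i) (Ioo 0 T) := by
      have h2 : ContDiffOn ℝ ∞ (fun s : ℝ => u s x) (Ioo 0 T) :=
        h.smooth_u.comp (f := fun s : ℝ => (s, x)) (by fun_prop)
          (fun s hs => ⟨Ioo_subset_Ico_self hs, mem_univ _⟩)
      exact (contDiffOn_pi.1 h2) i
    exact ((h1.differentiableOn (by norm_cast)) t ht).differentiableAt
      (Ioo_mem_nhds ht.1 ht.2) |>.hasDerivAt
  exact ((hi 1).const_mul (x 0)).sub ((hi 0).const_mul (x 1))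

/-- Continuity of the circulation. -/
lemma circ_cont (h : BSol ν T u p) :
    ContinuousOn (fun z : ℝ × V => circ (u z.1) z.2) (Ico 0 T ×ˢ univ) := by
  have hi : ∀ i : Fin 3, ContinuousOn (fun z : ℝ × V => u z.1 z.2 i) (Ico 0 T ×ˢ univ) :=
    fun i => (continuous_apply i).comp_continuousOn h.smooth_u.continuousOn
  unfold circ
  have c0 : ContinuousOn (fun z : ℝ × V => z.2 0) (Ico 0 T ×ˢ univ) := by fun_prop
  have c1 : ContinuousOn (fun z : ℝ × V => z.2 1) (Ico 0 T ×ˢ univ) := by fun_prop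
  exact (c0.mul (hi 1)).sub (c1.mul (hi 0))

lemma u_bdd (h : BSol ν T u p) {T' : ℝ} (hT' : T' < T) :
    ∃ U : ℝ, 0 ≤ U ∧ ∀ t ∈ Icc 0 T', ∀ x, ‖u t x‖ ≤ U := by
  obtain ⟨U, hU⟩ := h.bdd T' hT'
  exact ⟨max U 0, le_max_right _ _, fun t ht x => (hU t ht x).trans (le_max_left _ _)⟩

/-- The equation of the circulation at some point of a circle of touching points. -/
lemma touch_t (hν : 0 < ν) (h : BSol ν T u p) {t : ℝ} (ht : t ∈ Ioo 0 T) {x : V}
    (hσ : 0 < sg x) {s : ℝ} {W : V → ℝ} (hW : ∀ θ, ContDiffAt ℝ 2 W (rot θ x))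
    (hmax : ∀ θ, IsLocalMax (fun y => s * circ (u t) y - W y) (rot θ x)) :
    ∃ θ, s * ((rot θ x) 0 * deriv (fun τ => u τ (rot θ x) 1) t
        - (rot θ x) 1 * deriv (fun τ => u τ (rot θ x) 0) t)
      ≤ ν * (lap W (rot θ x) - 2 * ((rot θ x) 0 * pd 0 W (rot θ x)
        + (rot θ x) 1 * pd 1 W (rot θ x)) / sg (rot θ x))
        - ∑ j, u t (rot θ x) j * pd j W (rot θ x) := by
  obtain ⟨θ, hθ⟩ := rolle (slicep h ht) x
  exact ⟨θ, touch hν (slice0 h (Ioo_subset_Ico_self ht)) (h.axi t (Ioo_subset_Ico_self ht))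
    (d := fun i => deriv (fun τ => u τ (rot θ x) i) t) (fun i => h.momentum t ht (rot θ x) i) hθ
    (by rw [sg_rot]; exact hσ) (hW θ) (hmax θ)⟩

end BSol

/-- `(1 - exp (-σ / φ)) ^ a`. -/
noncomputable def lo (a φ σ : ℝ) : ℝ := (1 - Real.exp (-(σ / φ))) ^ a

/-- The derivative in `σ`. -/
noncomputable def lo₁ (a φ σ : ℝ) : ℝ :=
  Real.exp (-(σ / φ)) / φ * a * (1 - Real.exp (-(σ / φ))) ^ (a - 1)

/-- The second derivative in `σ`. -/
noncomputable def lo₂ (a φ σ : ℝ) : ℝ :=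
  lo₁ a φ σ * (-(1 / φ) - (1 - a) * (Real.exp (-(σ / φ)) / (φ * (1 - Real.exp (-(σ / φ))))))

section lo
variable {a φ σ : ℝ}

lemma lo_pos (hφ : 0 < φ) (hσ : 0 < σ) : 0 < 1 - Real.exp (-(σ / φ)) := by
  have : Real.exp (-(σ / φ)) < 1 := by
    rw [Real.exp_lt_one_iff]
    have : 0 < σ / φ := by positivity
    linarith
  linarith

lemma lo_nonneg (hφ : 0 < φ) (hσ : 0 ≤ σ) : 0 ≤ 1 - Real.exp (-(σ / φ)) := by
  have : Real.exp (-(σ / φ)) ≤ 1 := by
    rw [Real.exp_le_one_iff]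
    have : 0 ≤ σ / φ := by positivity
    linarith
  linarith

lemma inner_hd : HasDerivAt (fun r => 1 - Real.exp (-(r / φ))) (Real.exp (-(σ / φ)) / φ) σ := by
  have h1 : HasDerivAt (fun r : ℝ => -(r / φ)) (-(1 / φ)) σ :=
    ((hasDerivAt_id σ).div_const φ).neg
  exact (h1.exp.const_sub 1).congr_deriv (by ring)

lemma lo_hd (hφ : 0 < φ) (hσ : 0 < σ) : HasDerivAt (lo a φ) (lo₁ a φ σ) σ := by
  have h1 := (inner_hd (φ := φ) (σ := σ)).rpow_const (p := a) (Or.inl (lo_pos hφ hσ).ne')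
  exact h1

lemma lo_hd2 (hφ : 0 < φ) (hσ : 0 < σ) : HasDerivAt (lo₁ a φ) (lo₂ a φ σ) σ := by
  have hp := lo_pos hφ hσ
  have h1 : HasDerivAt (fun r : ℝ => Real.exp (-(r / φ)) / φ * a)
      (-(Real.exp (-(σ / φ)) / φ) / φ * a) σ := by
    have h2 : HasDerivAt (fun r : ℝ => -(r / φ)) (-(1 / φ)) σ :=
      ((hasDerivAt_id σ).div_const φ).neg
    exact ((h2.exp.div_const φ).mul_const a).congr_deriv (by ring)
  have h3 := (inner_hd (φ := φ) (σ := σ)).rpow_const (p := a - 1) (Or.inl hp.ne')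
  refine (h1.mul h3).congr_deriv ?_
  unfold lo₂ lo₁
  obtain ⟨E, hE⟩ : ∃ E : ℝ, E = Real.exp (-(σ / φ)) := ⟨_, rfl⟩
  rw [← hE] at hp ⊢
  have e : (1 - E) ^ (a - 1) = (1 - E) ^ (a - 1 - 1) * (1 - E) := by
    rw [← Real.rpow_add_one hp.ne']
    congr 1
    ring
  rw [e]
  field_simp
  ring

/-- The barrier in time. -/
lemma lo_td {f : ℝ → ℝ} {f' t : ℝ} (hf : HasDerivAt f f' t) (hft : 0 < f t) (hσ : 0 < σ) :
    HasDerivAt (fun τ => lo a (f τ) σ) (-(lo₁ a (f t) σ * (σ / f t) * f')) t := by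
  have hp := lo_pos hft hσ
  have h1 : HasDerivAt (fun τ : ℝ => -(σ / f τ)) (σ * f' / f t ^ 2) t := by
    have h2 := (hf.fun_inv hft.ne').const_mul σ
    have h3 := h2.neg
    have e : (fun τ : ℝ => -(σ / f τ)) = fun τ => -(σ * (f τ)⁻¹) := by
      funext τ
      rw [div_eq_mul_inv]
    rw [e]
    exact h3.congr_deriv (by ring)
  have h4 := (h1.exp.const_sub 1).rpow_const (p := a) (Or.inl hp.ne')
  refine h4.congr_deriv ?_
  unfold lo₁
  field_simp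

lemma lo₁_nonneg (ha : 0 ≤ a) (hφ : 0 < φ) (hσ : 0 < σ) : 0 ≤ lo₁ a φ σ := by
  have := lo_pos hφ hσ
  unfold lo₁
  positivity

/-- The differential inequality. -/
lemma lo_ineq (ha : 0 < a) (ha1 : a ≤ 1) (hφ : 0 < φ) (hσ : 0 < σ) {ν B f' q : ℝ} (hν : 0 < ν)
    (hf' : f' ≤ 4 * a * ν - 2 * B * φ) (hq : -(2 * (1 - a) * ν) - B * σ ≤ q) :
    4 * ν * σ * lo₂ a φ σ - 2 * q * lo₁ a φ σ ≤ -(lo₁ a φ σ * (σ / φ) * f') := by
  have h1 := lo₁_nonneg ha.le hφ hσ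
  have hp := lo_pos hφ hσ
  obtain ⟨E, hE⟩ : ∃ E : ℝ, E = Real.exp (-(σ / φ)) := ⟨_, rfl⟩
  obtain ⟨z, hz⟩ : ∃ z : ℝ, z = σ / φ := ⟨_, rfl⟩
  have hσz : σ = z * φ := by rw [hz]; field_simp
  have hz0 : 0 < z := by rw [hz]; positivity
  have hEz : 1 - z ≤ E := by
    rw [hE, ← hz]
    have := Real.add_one_le_exp (-z)
    linarith
  rw [← hE] at hp
  have hkey : 1 - z * (E / (1 - E)) ≤ z := by
    rw [sub_le_iff_le_add, ← sub_le_iff_le_add', ← mul_div_assoc, le_div_iff₀ hp]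
    nlinarith
  have hfac : 4 * ν * σ * (-(1 / φ) - (1 - a) * (E / (φ * (1 - E)))) - 2 * q ≤ -(z * f') := by
    have e1 : 4 * ν * σ * (-(1 / φ) - (1 - a) * (E / (φ * (1 - E))))
        = -(4 * ν * z) - 4 * ν * (1 - a) * (z * (E / (1 - E))) := by
      rw [hσz]
      field_simp
    rw [e1]
    have h2 : 4 * ν * (1 - a) * (1 - z * (E / (1 - E))) ≤ 4 * ν * (1 - a) * z := by
      apply mul_le_mul_of_nonneg_left hkey
      have : 0 ≤ 1 - a := by linarith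
      positivity
    have h3 : z * f' ≤ z * (4 * a * ν - 2 * B * φ) := mul_le_mul_of_nonneg_left hf' hz0.le
    rw [hσz] at hq
    nlinarith
  have h5 := mul_le_mul_of_nonneg_left hfac h1
  have e2 : lo₂ a φ σ = lo₁ a φ σ * (-(1 / φ) - (1 - a) * (E / (φ * (1 - E)))) := by
    unfold lo₂
    rw [← hE]
  rw [e2, ← hz]
  linarith

end lo

end Pool.Agent.TH305.AX
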