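import Pool.Agent.TH305.AX.BVcmp

/-!
Axisymmetric flows (helper305): the sharp bound of the circulation, and ancient solutions.
-/

set_option autoImplicit false

open MeasureTheory Set Metric Filter Topology
open scoped ContDiff

namespace Pool.Agent.TH305.AX

open H459R3.NS W221.NS Pool.Agent.TH305.DR

variable {ν T : ℝ} {u : ℝ → V → V} {p : ℝ → V → ℝ}

/-- `2 μ ν ∫_{t₀}^t exp (-2 ∫_s^t B) ds`. -/
noncomputable def rad (μ ν : ℝ) (B : ℝ → ℝ) (t₀ t : ℝ) : ℝ :=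
  2 * μ * ν * ∫ s in t₀..t, Real.exp (-2 * ∫ r in s..t, B r)

/-- The barrier with a small parameter is above the initial values. -/
lemma ini (h : BSol ν T u p) (hT : 0 < T) {M δ a : ℝ} (hM : 0 ≤ M) (hδ : 0 < δ) (ha : 0 < a)
    (hin : ∀ x, |circ (u 0) x| ≤ M) :
    ∃ η : ℝ, 0 < η ∧ ∀ x, |circ (u 0) x| ≤ δ + M * lo a η (sg x) := by
  obtain ⟨U, hU0, hU⟩ := h.u_bdd hT
  have hlim : Tendsto (fun L : ℝ => M * (1 - Real.exp (-L)) ^ a) atTop (𝓝 (M * (1 - 0) ^ a)) := by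
    apply Tendsto.const_mul
    apply Tendsto.rpow_const
    · exact tendsto_const_nhds.sub (Real.tendsto_exp_neg_atTop_nhds_zero)
    · exact Or.inl (by norm_num)
  rw [sub_zero, Real.one_rpow, mul_one] at hlim
  have hev : ∀ᶠ L : ℝ in atTop, M - δ < M * (1 - Real.exp (-L)) ^ a :=
    hlim.eventually (lt_mem_nhds (by linarith))
  obtain ⟨L, hL1, hL2⟩ := (hev.and (eventually_ge_atTop 1)).exists
  refine ⟨δ ^ 2 / (4 * L * (U + 1) ^ 2), by positivity, fun x => ?_⟩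
  obtain ⟨η, hη⟩ : ∃ η : ℝ, η = δ ^ 2 / (4 * L * (U + 1) ^ 2) := ⟨_, rfl⟩
  have hη0 : 0 < η := by rw [hη]; positivity
  rw [← hη]
  have hlo0 : 0 ≤ M * lo a η (sg x) := mul_nonneg hM
    (Real.rpow_nonneg (lo_nonneg hη0 (sg_nonneg x)) _)
  rcases le_total (L * η) (sg x) with h1 | h1
  · have h2 : (1 - Real.exp (-L)) ^ a ≤ lo a η (sg x) := by
      unfold lo
      have h3 : L ≤ sg x / η := by rwa [le_div_iff₀ hη0]
      have h4 : 0 ≤ 1 - Real.exp (-L) := by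
        have : Real.exp (-L) ≤ 1 := Real.exp_le_one_iff.2 (by linarith)
        linarith
      apply Real.rpow_le_rpow h4 _ ha.le
      have : Real.exp (-(sg x / η)) ≤ Real.exp (-L) := Real.exp_le_exp.2 (by linarith)
      linarith
    have h3 := mul_le_mul_of_nonneg_left h2 hM
    have h4 := hin x
    linarith
  · have h2 : |circ (u 0) x| ≤ δ := by
      have h3 : √(sg x) ≤ √(L * η) := Real.sqrt_le_sqrt h1
      have h4 : √(L * η) = δ / (2 * (U + 1)) := by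
        rw [show L * η = (δ / (2 * (U + 1))) ^ 2 by rw [hη]; field_simp; ring,
          Real.sqrt_sq (by positivity)]
      calc |circ (u 0) x| ≤ 2 * √(sg x) * ‖u 0 x‖ := circ_le _ _
        _ ≤ 2 * (δ / (2 * (U + 1))) * U := by
          have h5 := hU 0 ⟨le_rfl, le_rfl⟩ x
          have h6 : √(sg x) ≤ δ / (2 * (U + 1)) := h3.trans h4.le
          gcongr
        _ ≤ 2 * (δ / (2 * (U + 1))) * (U + 1) := by
          gcongr
          linarith
        _ = δ := by field_simp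
    linarith

/-- **The sharp bound of the circulation.** -/
theorem swirl_bound (hν : 0 < ν) (h : BSol ν T u p) {M δ μ : ℝ} (hM : 0 ≤ M) (hδ : 0 ≤ δ)
    (hμ : 0 < μ) (hμ2 : μ ≤ 2) {B : ℝ → ℝ} (hB : ContinuousOn B (Ico 0 T))
    (hin : ∀ x, |circ (u 0) x| ≤ M)
    (hcond : ∀ t ∈ Ioo 0 T, ∀ x, 0 < sg x → δ < |circ (u t) x| →
      -((2 - μ) * ν) - B t * sg x ≤ x 0 * u t x 0 + x 1 * u t x 1) :
    ∀ t ∈ Ioo 0 T, ∀ x, |circ (u t) x| ≤
      δ + M * (1 - Real.exp (-(sg x / rad μ ν B 0 t))) ^ (μ / 2) := by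
  intro t ht x
  apply le_of_forall_pos_le_add
  intro d hd
  have hT : 0 < T := ht.1.trans ht.2
  have hμa : 0 < μ / 2 := by positivity
  obtain ⟨η, hη, hini⟩ := ini h hT (δ := δ + d) hM (by positivity) hμa hin
  obtain ⟨b, hb⟩ : ∃ b : ℝ → ℝ, b = fun τ => ∫ r in (0 : ℝ)..τ, B r := ⟨_, rfl⟩
  have hbd : ∀ τ ∈ Ioo 0 T, HasDerivAt b (B τ) τ := fun τ hτ => by rw [hb]; exact prim_hd hB hτ
  have hbc : ContinuousOn b (Ico 0 T) := by
    intro τ hτ
    obtain ⟨τ', hτ'1, hτ'2⟩ := exists_between hτ.2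
    have h1 := prim_cont hB (t := τ') ⟨hτ.1.trans hτ'1.le, hτ'2⟩
    rw [hb]
    refine (h1 τ ⟨hτ.1, hτ'1.le⟩).mono_of_mem_nhdsWithin ?_
    rw [mem_nhdsWithin]
    exact ⟨Iio τ', isOpen_Iio, hτ'1, fun y hy => ⟨hy.2.1, hy.1.le⟩⟩
  obtain ⟨e, he⟩ : ∃ e : ℝ → ℝ, e = fun τ => Real.exp (2 * b τ) := ⟨_, rfl⟩
  have hec : ContinuousOn e (Ico 0 T) := by
    rw [he]
    exact (continuousOn_const.mul hbc).rexp
  obtain ⟨J, hJ⟩ : ∃ J : ℝ → ℝ, J = fun τ => ∫ r in (0 : ℝ)..τ, e r := ⟨_, rfl⟩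
  have hJd : ∀ τ ∈ Ioo 0 T, HasDerivAt J (e τ) τ := fun τ hτ => by rw [hJ]; exact prim_hd hec hτ
  have hJc : ContinuousOn J (Ico 0 T) := by
    intro τ hτ
    obtain ⟨τ', hτ'1, hτ'2⟩ := exists_between hτ.2
    have h1 := prim_cont hec (t := τ') ⟨hτ.1.trans hτ'1.le, hτ'2⟩
    rw [hJ]
    refine (h1 τ ⟨hτ.1, hτ'1.le⟩).mono_of_mem_nhdsWithin ?_
    rw [mem_nhdsWithin]
    exact ⟨Iio τ', isOpen_Iio, hτ'1, fun y hy => ⟨hy.2.1, hy.1.le⟩⟩
  have hJ0 : ∀ τ ∈ Ico 0 T, 0 ≤ J τ := fun τ hτ => by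
    rw [hJ]
    exact prim_nonneg (B := e) (fun r _ => by rw [he]; exact (Real.exp_pos _).le) hτ
  obtain ⟨φ, hφ⟩ : ∃ φ : ℝ → ℝ, φ = fun τ => Real.exp (-2 * b τ) * (η + 2 * μ * ν * J τ) :=
    ⟨_, rfl⟩
  have hφ0 : ∀ τ ∈ Ico 0 T, 0 < φ τ := fun τ hτ => by
    rw [hφ]
    have := hJ0 τ hτ
    have : 0 < Real.exp (-2 * b τ) := Real.exp_pos _
    positivity
  have hφd : ∀ τ ∈ Ioo 0 T, HasDerivAt φ (4 * (μ / 2) * ν - 2 * B τ * φ τ) τ := by
    intro τ hτ
    have h1 : HasDerivAt (fun τ => -2 * b τ) (-2 * B τ) τ := (hbd τ hτ).const_mul (-2)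
    have h2 : HasDerivAt (fun τ => η + 2 * μ * ν * J τ) (2 * μ * ν * e τ) τ :=
      ((hJd τ hτ).const_mul (2 * μ * ν)).const_add η
    rw [hφ]
    refine (h1.exp.mul h2).congr_deriv ?_
    have h3 : Real.exp (-2 * b τ) * e τ = 1 := by
      rw [he]
      show Real.exp (-2 * b τ) * Real.exp (2 * b τ) = 1
      rw [← Real.exp_add]
      simp
    show Real.exp (-2 * b τ) * (-2 * B τ) * (η + 2 * μ * ν * J τ)
      + Real.exp (-2 * b τ) * (2 * μ * ν * e τ)
      = 4 * (μ / 2) * ν - 2 * B τ * (Real.exp (-2 * b τ) * (η + 2 * μ * ν * J τ))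
    linear_combination (2 * μ * ν) * h3
  have hb0 : b 0 = 0 := by rw [hb]; simp
  have hJ00 : J 0 = 0 := by rw [hJ]; simp
  have hφ00 : φ 0 = η := by
    rw [hφ]
    show Real.exp (-2 * b 0) * (η + 2 * μ * ν * J 0) = η
    rw [hb0, hJ00]
    simp
  have key := swirl_cmp hν h (M := M) (δ := δ + d) (a := μ / 2) hM (by positivity) hμa
    (by linarith) (φ := φ) (φ' := fun τ => 4 * (μ / 2) * ν - 2 * B τ * φ τ) (B := B) hφ0
    (by
      rw [hφ]
      exact (continuousOn_const.mul hbc).rexp.mul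
        (continuousOn_const.add (continuousOn_const.mul hJc)))
    hφd (fun τ _ => le_rfl) (by rw [hφ00]; exact hini)
    (fun τ hτ y hy hyd => by
      have h1 := hcond τ hτ y hy (by linarith)
      have e1 : -(2 * (1 - μ / 2) * ν) = -((2 - μ) * ν) := by ring
      rw [e1]
      exact h1) t ⟨ht.1.le, ht.2⟩ x
  have hrad : rad μ ν B 0 t = Real.exp (-2 * b t) * (2 * μ * ν * J t) := by
    unfold rad
    have h1 : ∫ s in (0 : ℝ)..t, Real.exp (-2 * ∫ r in s..t, B r)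
        = ∫ s in (0 : ℝ)..t, Real.exp (-2 * b t) * e s := by
      apply intervalIntegral.integral_congr
      intro s hs
      rw [uIcc_of_le ht.1.le] at hs
      have hi : ∀ c d, 0 ≤ c → c ≤ d → d ≤ t → IntervalIntegrable B volume c d := by
        intro c d hc hcd hdt
        apply ContinuousOn.intervalIntegrable
        rw [uIcc_of_le hcd]
        exact hB.mono fun r hr => ⟨hc.trans hr.1, (hr.2.trans hdt).trans_lt ht.2⟩
      have h2 : b s + ∫ r in s..t, B r = b t := by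
        rw [hb]
        exact intervalIntegral.integral_add_adjacent_intervals (hi 0 s le_rfl hs.1 hs.2)
          (hi s t hs.1 hs.2 le_rfl)
      show Real.exp (-2 * ∫ r in s..t, B r) = Real.exp (-2 * b t) * e s
      rw [he]
      show _ = Real.exp (-2 * b t) * Real.exp (2 * b s)
      rw [← Real.exp_add]
      congr 1
      linarith
    rw [h1, intervalIntegral.integral_const_mul, hJ]
    ring
  have hJpos : 0 < J t := by
    rw [hJ]
    apply intervalIntegral.intervalIntegral_pos_of_pos_on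
    · apply ContinuousOn.intervalIntegrable
      rw [uIcc_of_le ht.1.le]
      exact hec.mono fun r hr => ⟨hr.1, hr.2.trans_lt ht.2⟩
    · intro r _
      rw [he]
      exact Real.exp_pos _
    · exact ht.1
  have hrad0 : 0 < rad μ ν B 0 t := by
    rw [hrad]
    have : 0 < Real.exp (-2 * b t) := Real.exp_pos _
    positivity
  have hle : rad μ ν B 0 t ≤ φ t := by
    rw [hrad, hφ]
    show Real.exp (-2 * b t) * (2 * μ * ν * J t) ≤ Real.exp (-2 * b t) * (η + 2 * μ * ν * J t)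
    apply mul_le_mul_of_nonneg_left _ (Real.exp_pos _).le
    linarith
  have hmono : lo (μ / 2) (φ t) (sg x) ≤ lo (μ / 2) (rad μ ν B 0 t) (sg x) := by
    unfold lo
    have hφt := hφ0 t ⟨ht.1.le, ht.2⟩
    apply Real.rpow_le_rpow (lo_nonneg hφt (sg_nonneg x)) _ hμa.le
    have h1 : sg x / φ t ≤ sg x / rad μ ν B 0 t :=
      div_le_div_of_nonneg_left (sg_nonneg x) hrad0 hle
    have : Real.exp (-(sg x / rad μ ν B 0 t)) ≤ Real.exp (-(sg x / φ t)) :=
      Real.exp_le_exp.2 (by linarith)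
    linarith
  have h1 := mul_le_mul_of_nonneg_left hmono hM
  have e2 : lo (μ / 2) (rad μ ν B 0 t) (sg x)
      = (1 - Real.exp (-(sg x / rad μ ν B 0 t))) ^ (μ / 2) := rfl
  rw [← e2]
  linarith

/-- **Ancient solutions.** -/
theorem ancient (hν : 0 < ν)
    (h : ∀ t₀ < 0, BSol ν (-t₀) (fun t => u (t₀ + t)) (fun t => p (t₀ + t))) {M : ℝ}
    (hM : ∀ t < 0, ∀ x, |circ (u t) x| ≤ M) {B : ℝ → ℝ} (hB : ContinuousOn B (Iio 0))
    (hdiv : ∀ t < 0, ∀ L : ℝ, ∃ t₀ < t, L ≤ ∫ s in t₀..t, Real.exp (-2 * ∫ r in s..t, B r))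
    (hcond : ∀ δ > 0, ∃ μ > 0, ∀ t < 0, ∀ x, 0 < sg x → δ < |circ (u t) x| →
      -((2 - μ) * ν) - B t * sg x ≤ x 0 * u t x 0 + x 1 * u t x 1) :
    ∀ t < 0, ∀ x, circ (u t) x = 0 := by
  intro t ht x
  have hM0 : 0 ≤ M := (abs_nonneg _).trans (hM t ht x)
  rw [← abs_nonpos_iff]
  apply le_of_forall_pos_le_add
  intro d hd
  rw [zero_add]
  obtain ⟨μ', hμ', hc⟩ := hcond (d / 2) (by positivity)
  obtain ⟨μ, hμe⟩ : ∃ μ : ℝ, μ = min μ' 2 := ⟨_, rfl⟩
  have hμ : 0 < μ := by rw [hμe]; exact lt_min hμ' (by norm_num)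
  have hμ2 : μ ≤ 2 := by rw [hμe]; exact min_le_right _ _
  have hμμ : μ ≤ μ' := by rw [hμe]; exact min_le_left _ _
  -- smallness for large radii
  have hlim : Tendsto (fun q : ℝ => M * (1 - Real.exp (-(sg x / q))) ^ (μ / 2)) atTop
      (𝓝 (M * (1 - Real.exp (-0)) ^ (μ / 2))) := by
    apply Tendsto.const_mul
    apply Tendsto.rpow_const
    · apply Tendsto.const_sub
      apply (Real.continuous_exp.tendsto _).comp
      exact (tendsto_const_nhds.div_atTop tendsto_id).neg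
    · exact Or.inr (by positivity)
  rw [neg_zero, Real.exp_zero, sub_self, Real.zero_rpow (by positivity), mul_zero] at hlim
  have hev : ∀ᶠ q : ℝ in atTop, M * (1 - Real.exp (-(sg x / q))) ^ (μ / 2) < d / 2 :=
    hlim.eventually (gt_mem_nhds (by positivity))
  obtain ⟨Q, hQ⟩ := eventually_atTop.1 hev
  obtain ⟨t₀, ht₀, hI⟩ := hdiv t ht (Q / (2 * μ * ν))
  have ht₀0 : t₀ < 0 := ht₀.trans ht
  have hmem : t - t₀ ∈ Ioo 0 (-t₀) := ⟨by linarith, by linarith⟩
  have key := swirl_bound hν (h t₀ ht₀0) (M := M) (δ := d / 2) (μ := μ) hM0 (by positivity) hμ hμ2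
    (B := fun r => B (t₀ + r))
    (hB.comp (by fun_prop) fun r hr => by
      show t₀ + r < 0
      linarith [hr.2])
    (fun y => by
      show |circ (u (t₀ + 0)) y| ≤ M
      rw [add_zero]
      exact hM t₀ ht₀0 y)
    (fun s hs y hy hyd => by
      have h1 := hc (t₀ + s) (by linarith [hs.2]) y hy hyd
      have h2 : -((2 - μ) * ν) ≤ -((2 - μ') * ν) := by nlinarith
      show -((2 - μ) * ν) - B (t₀ + s) * sg y
        ≤ y 0 * u (t₀ + s) y 0 + y 1 * u (t₀ + s) y 1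
      linarith) (t - t₀) hmem x
  have hrad : rad μ ν (fun r => B (t₀ + r)) 0 (t - t₀)
      = 2 * μ * ν * ∫ s in t₀..t, Real.exp (-2 * ∫ r in s..t, B r) := by
    unfold rad
    congr 1
    have h1 : ∀ s : ℝ, ∫ r in s..(t - t₀), B (t₀ + r) = ∫ r in (t₀ + s)..t, B r := by
      intro s
      rw [intervalIntegral.integral_comp_add_left (fun r => B r) t₀]
      congr 1
      ring
    simp only [h1]
    rw [intervalIntegral.integral_comp_add_left
      (fun s => Real.exp (-2 * ∫ r in s..t, B r)) t₀]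
    congr 1 <;> ring
  rw [hrad] at key
  have hq : Q ≤ 2 * μ * ν * ∫ s in t₀..t, Real.exp (-2 * ∫ r in s..t, B r) := by
    rw [div_le_iff₀ (by positivity)] at hI
    linarith
  have h5 := hQ _ hq
  have e : t₀ + (t - t₀) = t := by ring
  rw [e] at key
  linarith

end Pool.Agent.TH305.AX
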