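import Pool.Agent.TH305.AX.CmpT2

/-!
Axisymmetric flows (helper305): a barrier for inflow bounded by `C / √(T - t)`.
-/

set_option autoImplicit false

open MeasureTheory Set Metric Filter Topology
open scoped ContDiff

namespace Pool.Agent.TH305.AX

open H459R3.NS W221.NS Pool.Agent.TH305.DR

/-- The parameters of the barrier. -/
structure Par (ν C α Λ γ y₁ X₁ : ℝ) : Prop where
  hν : 0 < ν
  hC : 0 ≤ C
  hα : 0 < α
  hα2 : α < 1 / 2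
  hy₁ : y₁ = 2 * C + 1
  hΛ : 2 * ν * α * Λ * y₁ ^ (2 * α - 1) = C + 1
  hX₁ : X₁ = Λ * y₁ ^ (2 * α)
  hγ : γ * (y₁ + 1) = α * Real.exp (-X₁)

/-- The inner part of the barrier. -/
noncomputable def gin (Λ α y : ℝ) : ℝ := 1 - Real.exp (-(Λ * y ^ (2 * α)))

/-- The outer part of the barrier. -/
noncomputable def gout (C γ X₁ y : ℝ) : ℝ := (1 - Real.exp (-X₁)) * (y - 2 * C) ^ γ

/-- The profile of the barrier. -/
noncomputable def gb (C α Λ γ y₁ X₁ y : ℝ) : ℝ := if y ≤ y₁ then gin Λ α y else gout C γ X₁ y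

/-- The barrier. -/
noncomputable def Bar (T C α Λ γ y₁ X₁ : ℝ) (t σ : ℝ) : ℝ :=
  (T - t) ^ (γ / 2) * gb C α Λ γ y₁ X₁ (√(σ / (T - t)))

lemma par_exists {ν C α : ℝ} (hν : 0 < ν) (hC : 0 ≤ C) (hα : 0 < α) (hα2 : α < 1 / 2) :
    ∃ Λ γ y₁ X₁ : ℝ, Par ν C α Λ γ y₁ X₁ := by
  have hy : (0 : ℝ) < 2 * C + 1 := by linarith
  have hp : 0 < (2 * C + 1) ^ (2 * α - 1) := Real.rpow_pos_of_pos hy _
  obtain ⟨Λ, hΛ⟩ : ∃ Λ : ℝ, Λ = (C + 1) / (2 * ν * α * (2 * C + 1) ^ (2 * α - 1)) := ⟨_, rfl⟩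
  obtain ⟨X₁, hX⟩ : ∃ X₁ : ℝ, X₁ = Λ * (2 * C + 1) ^ (2 * α) := ⟨_, rfl⟩
  obtain ⟨γ, hγ⟩ : ∃ γ : ℝ, γ = α * Real.exp (-X₁) / (2 * C + 1 + 1) := ⟨_, rfl⟩
  refine ⟨Λ, γ, 2 * C + 1, X₁, hν, hC, hα, hα2, rfl, ?_, hX, ?_⟩
  · rw [hΛ]
    field_simp
  · have : (0 : ℝ) < 2 * C + 1 + 1 := by linarith
    rw [hγ]
    field_simp

section
variable {ν C α Λ γ y₁ X₁ : ℝ}

namespace Par

lemma y1_pos (h : Par ν C α Λ γ y₁ X₁) : 0 < y₁ := by
  have := h.hC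
  have := h.hy₁
  linarith

lemma L_pos (h : Par ν C α Λ γ y₁ X₁) : 0 < Λ := by
  have h1 : 0 < y₁ ^ (2 * α - 1) := Real.rpow_pos_of_pos h.y1_pos _
  have h2 := h.hΛ
  have h3 := h.hC
  have h4 := h.hν
  have h5 := h.hα
  by_contra hcon
  push Not at hcon
  have h6 : 2 * ν * α * Λ * y₁ ^ (2 * α - 1) ≤ 0 := by
    have h7 : 0 < 2 * ν * α * y₁ ^ (2 * α - 1) := by positivity
    have h8 : 2 * ν * α * y₁ ^ (2 * α - 1) * Λ ≤ 0 := mul_nonpos_of_nonneg_of_nonpos h7.le hcon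
    linarith
  linarith

lemma X1_pos (h : Par ν C α Λ γ y₁ X₁) : 0 < X₁ := by
  rw [h.hX₁]
  exact mul_pos h.L_pos (Real.rpow_pos_of_pos h.y1_pos _)

lemma g_pos (h : Par ν C α Λ γ y₁ X₁) : 0 < γ := by
  have h1 := h.hγ
  have h2 : 0 < α * Real.exp (-X₁) := mul_pos h.hα (Real.exp_pos _)
  have h3 := h.y1_pos
  by_contra hcon
  push Not at hcon
  nlinarith

lemma g_lt (h : Par ν C α Λ γ y₁ X₁) : γ < α := by
  have h1 := h.hγ
  have h2 : Real.exp (-X₁) < 1 := by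
    rw [Real.exp_lt_one_iff]
    have := h.X1_pos
    linarith
  have h3 := h.y1_pos
  have h4 := h.g_pos
  have h5 := h.hα
  nlinarith

lemma gy (h : Par ν C α Λ γ y₁ X₁) : γ * y₁ < α * Real.exp (-X₁) := by
  have h1 := h.hγ
  have h4 := h.g_pos
  linarith

lemma E1 (h : Par ν C α Λ γ y₁ X₁) : 0 < 1 - Real.exp (-X₁) ∧ 1 - Real.exp (-X₁) ≤ 1 := by
  have h2 : Real.exp (-X₁) < 1 := by
    rw [Real.exp_lt_one_iff]
    have := h.X1_pos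
    linarith
  have := Real.exp_pos (-X₁)
  constructor <;> linarith

/-- `X₁` and `Λ`. -/
lemma X1_eq (h : Par ν C α Λ γ y₁ X₁) : Λ * y₁ ^ (2 * α - 1) * y₁ = X₁ := by
  rw [h.hX₁, mul_assoc]
  congr 1
  rw [← Real.rpow_add_one h.y1_pos.ne']
  congr 1
  ring

end Par

lemma gin_hd {y : ℝ} (hy : 0 < y) : HasDerivAt (gin Λ α)
    (Λ * (2 * α * y ^ (2 * α - 1)) * Real.exp (-(Λ * y ^ (2 * α)))) y := by
  have h1 : HasDerivAt (fun y : ℝ => y ^ (2 * α)) (2 * α * y ^ (2 * α - 1)) y :=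
    Real.hasDerivAt_rpow_const (Or.inl hy.ne')
  have h3 : HasDerivAt (fun y : ℝ => -(Λ * y ^ (2 * α))) (-(Λ * (2 * α * y ^ (2 * α - 1)))) y :=
    (h1.const_mul Λ).neg
  have h2 := (h3.exp).const_sub 1
  exact h2.congr_deriv (by ring)

lemma gout_hd {y : ℝ} (hy : 2 * C < y) : HasDerivAt (gout C γ X₁)
    ((1 - Real.exp (-X₁)) * (γ * (y - 2 * C) ^ (γ - 1))) y := by
  have h1 : HasDerivAt (fun y : ℝ => y - 2 * C) 1 y := (hasDerivAt_id y).sub_const _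
  have h3 : y - 2 * C ≠ 0 := by
    have : 0 < y - 2 * C := by linarith
    exact this.ne'
  have h2 := (h1.rpow_const (p := γ) (Or.inl h3)).const_mul (1 - Real.exp (-X₁))
  exact h2.congr_deriv (by ring)

end

end Pool.Agent.TH305.AX
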