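import Pool.Agent.TH305.AX.Bar

/-!
Axisymmetric flows (helper305): properties of the barrier.
-/

set_option autoImplicit false

open MeasureTheory Set Metric Filter Topology
open scoped ContDiff

namespace Pool.Agent.TH305.AX

open H459R3.NS W221.NS Pool.Agent.TH305.DR

section
variable {ν C α Λ γ y₁ X₁ : ℝ}

lemma sqrt_pow {z : ℝ} (hz : 0 ≤ z) (α : ℝ) : √z ^ (2 * α) = z ^ α := by
  rw [Real.sqrt_eq_rpow, ← Real.rpow_mul hz]
  congr 1
  ring

lemma gin_cont (h : Par ν C α Λ γ y₁ X₁) : Continuous (gin Λ α) := by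
  have h1 : Continuous fun y : ℝ => y ^ (2 * α) :=
    continuous_id.rpow_const fun _ => Or.inr (by linarith [h.hα])
  unfold gin
  fun_prop

lemma gout_cont (h : Par ν C α Λ γ y₁ X₁) : Continuous (gout C γ X₁) := by
  have h1 : Continuous fun y : ℝ => (y - 2 * C) ^ γ :=
    (continuous_id.sub continuous_const).rpow_const fun _ => Or.inr h.g_pos.le
  unfold gout
  fun_prop

lemma gin_y1 (h : Par ν C α Λ γ y₁ X₁) : gin Λ α y₁ = 1 - Real.exp (-X₁) := by
  unfold gin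
  rw [h.hX₁]

lemma gout_y1 (h : Par ν C α Λ γ y₁ X₁) : gout C γ X₁ y₁ = 1 - Real.exp (-X₁) := by
  unfold gout
  rw [h.hy₁, add_sub_cancel_left, Real.one_rpow, mul_one]

lemma gb_cont (h : Par ν C α Λ γ y₁ X₁) : Continuous (gb C α Λ γ y₁ X₁) := by
  unfold gb
  exact Continuous.if_le (gin_cont h) (gout_cont h) continuous_id continuous_const (by
    intro x hx
    rw [show x = y₁ from hx, gin_y1 h, gout_y1 h])

lemma gin_pos (h : Par ν C α Λ γ y₁ X₁) {y : ℝ} (hy : 0 < y) : 0 < gin Λ α y := by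
  unfold gin
  have h1 : 0 < Λ * y ^ (2 * α) := mul_pos h.L_pos (Real.rpow_pos_of_pos hy _)
  have h2 : Real.exp (-(Λ * y ^ (2 * α))) < 1 := by
    rw [Real.exp_lt_one_iff]
    linarith
  linarith

lemma gout_pos (h : Par ν C α Λ γ y₁ X₁) {y : ℝ} (hy : y₁ < y) : 0 < gout C γ X₁ y := by
  unfold gout
  apply mul_pos h.E1.1 (Real.rpow_pos_of_pos _ _)
  have := h.hy₁
  linarith

lemma gb_pos (h : Par ν C α Λ γ y₁ X₁) {y : ℝ} (hy : 0 < y) : 0 < gb C α Λ γ y₁ X₁ y := by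
  unfold gb
  split_ifs with h1
  · exact gin_pos h hy
  · exact gout_pos h (not_le.1 h1)

/-- At the kink the outer part is below the inner part. -/
lemma kink (h : Par ν C α Λ γ y₁ X₁) : ∀ᶠ y in 𝓝[>] y₁, gout C γ X₁ y ≤ gin Λ α y := by
  have hd := (gin_hd (α := α) (Λ := Λ) h.y1_pos).sub (gout_hd (C := C) (γ := γ) (X₁ := X₁)
    (show 2 * C < y₁ by have := h.hy₁; linarith))
  obtain ⟨D, hD⟩ : ∃ D : ℝ, D = Λ * (2 * α * y₁ ^ (2 * α - 1)) * Real.exp (-(Λ * y₁ ^ (2 * α)))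
    - (1 - Real.exp (-X₁)) * (γ * (y₁ - 2 * C) ^ (γ - 1)) := ⟨_, rfl⟩
  rw [← hD] at hd
  have hD0 : 0 < D := by
    have e1 : y₁ - 2 * C = 1 := by rw [h.hy₁]; ring
    rw [e1, Real.one_rpow, ← h.hX₁] at hD
    have h1 := h.y1_pos
    have h2 := h.gy
    have h3 := h.X1_eq
    have h4 := h.X1_pos
    have h5 : 1 - Real.exp (-X₁) ≤ X₁ := by
      have := Real.add_one_le_exp (-X₁)
      linarith
    have h6 := h.g_pos
    have h7 : D * y₁ = 2 * α * X₁ * Real.exp (-X₁) - (1 - Real.exp (-X₁)) * (γ * y₁) := by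
      rw [hD, ← h3]
      ring
    have h8 : (1 - Real.exp (-X₁)) * (γ * y₁) ≤ X₁ * (γ * y₁) := by gcongr
    have h9 : X₁ * (γ * y₁) < X₁ * (α * Real.exp (-X₁)) := mul_lt_mul_of_pos_left h2 h4
    have h10 : 0 < X₁ * (α * Real.exp (-X₁)) := mul_pos h4 (mul_pos h.hα (Real.exp_pos _))
    have h11 : 0 < D * y₁ := by
      rw [h7]
      linarith
    exact (mul_pos_iff_of_pos_right h1).1 h11
  have hsl : Tendsto (slope (fun y => gin Λ α y - gout C γ X₁ y) y₁) (𝓝[>] y₁) (𝓝 D) :=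
    (hasDerivAt_iff_tendsto_slope.1 hd).mono_left
      (nhdsWithin_mono _ fun s (hs : y₁ < s) => ne_of_gt hs)
  filter_upwards [hsl.eventually (lt_mem_nhds hD0), self_mem_nhdsWithin] with y hy hy1
  have hy1' : y₁ < y := hy1
  rw [slope_def_field, gin_y1 h, gout_y1 h, sub_self, sub_zero] at hy
  have h1 := (div_pos_iff_of_pos_right (by linarith : 0 < y - y₁)).1 hy
  linarith

lemma gb_le_gin (h : Par ν C α Λ γ y₁ X₁) {y₀ : ℝ} (hy : y₀ ≤ y₁) :
    ∀ᶠ y in 𝓝 y₀, gb C α Λ γ y₁ X₁ y ≤ gin Λ α y := by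
  rcases eq_or_lt_of_le hy with h1 | h1
  · rw [h1]
    have h2 := eventually_nhdsWithin_iff.1 (kink h)
    filter_upwards [h2] with y hy'
    unfold gb
    split_ifs with h3
    · exact le_rfl
    · exact hy' (not_le.1 h3)
  · filter_upwards [gt_mem_nhds h1] with y hy'
    unfold gb
    rw [if_pos (le_of_lt hy')]

end

end Pool.Agent.TH305.AX
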