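import Pool.Agent.TH305.AX.Bar2

/-!
Axisymmetric flows (helper305): the barrier is a supersolution.
-/

set_option autoImplicit false

open MeasureTheory Set Metric Filter Topology
open scoped ContDiff

namespace Pool.Agent.TH305.AX

open H459R3.NS W221.NS Pool.Agent.TH305.DR

section
variable {ν C α Λ γ y₁ X₁ : ℝ}

/-- The inequality for the inner part, in terms of numbers. -/
lemma inner_num (h : Par ν C α Λ γ y₁ X₁) {y z Z E X : ℝ} (hy : 0 < y) (hy1 : y ≤ y₁)
    (hz : z = y ^ 2) (hZ : Z = y ^ (2 * α)) (hX : X = Λ * Z) (hE : E = Real.exp (-X)) :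
    Λ * α * E * (Z / z) * (2 * C * y - 4 * ν * Λ * α * Z) ≤ -(γ / 2) * (1 - E) + α * X * E ∧
      2 * α * X * E ≤ 1 - E := by
  have hz0 : 0 < z := by rw [hz]; positivity
  have hZ0 : 0 < Z := by rw [hZ]; exact Real.rpow_pos_of_pos hy _
  have hX0 : 0 < X := by rw [hX]; exact mul_pos h.L_pos hZ0
  have hE0 : 0 < E := by rw [hE]; exact Real.exp_pos _
  have hα := h.hα
  have hα2 := h.hα2
  have hγ0 := h.g_pos
  have hΛ0 := h.L_pos
  have hν := h.hν
  have hC := h.hC
  have h1E : 1 - E ≤ X := by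
    have := Real.add_one_le_exp (-X)
    rw [← hE] at this
    linarith
  have hXE : X * E ≤ 1 - E := by
    have h1 := Real.add_one_le_exp X
    have h2 : Real.exp X * E = 1 := by
      rw [hE, ← Real.exp_add, add_neg_cancel, Real.exp_zero]
    have h3 : (X + 1) * E ≤ Real.exp X * E := by gcongr
    rw [h2] at h3
    linarith
  have hXX : X ≤ X₁ := by
    rw [hX, hZ, h.hX₁]
    have h1 : y ^ (2 * α) ≤ y₁ ^ (2 * α) := Real.rpow_le_rpow hy.le hy1 (by linarith)
    gcongr
  have hEE : Real.exp (-X₁) ≤ E := by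
    rw [hE]
    exact Real.exp_le_exp.2 (by linarith)
  have hZy : y * y₁ ^ (2 * α - 1) ≤ Z := by
    have h1 : Z = y * y ^ (2 * α - 1) := by
      rw [hZ, mul_comm y _, ← Real.rpow_add_one hy.ne']
      congr 1
      ring
    rw [h1]
    have h2 : y₁ ^ (2 * α - 1) ≤ y ^ (2 * α - 1) :=
      Real.rpow_le_rpow_of_nonpos hy hy1 (by linarith)
    gcongr
  have hbr : 2 * y ≤ 4 * ν * Λ * α * Z - 2 * C * y := by
    have h1 : 4 * ν * Λ * α * (y * y₁ ^ (2 * α - 1)) ≤ 4 * ν * Λ * α * Z := by gcongr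
    have h2 : 4 * ν * Λ * α * (y * y₁ ^ (2 * α - 1)) = 2 * y * (C + 1) := by
      rw [← h.hΛ]
      ring
    linarith
  constructor
  · have h1 : γ * y ≤ 4 * α * E := by
      have h2 : γ * y ≤ γ * y₁ := by gcongr
      have h3 := h.gy
      have h4 : α * Real.exp (-X₁) ≤ α * E := by gcongr
      have h5 : 0 < α * E := mul_pos hα hE0
      linarith
    have h2 : γ / 2 * z ≤ α * E * (4 * ν * Λ * α * Z - 2 * C * y) := by
      calc γ / 2 * z = γ * y * (y / 2) := by rw [hz]; ring
        _ ≤ 4 * α * E * (y / 2) := by gcongr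
        _ = α * E * (2 * y) := by ring
        _ ≤ α * E * (4 * ν * Λ * α * Z - 2 * C * y) := by gcongr
    have h3 : γ / 2 * X ≤ X * (α * E * (4 * ν * Λ * α * Z - 2 * C * y)) / z := by
      rw [le_div_iff₀ hz0]
      calc γ / 2 * X * z = X * (γ / 2 * z) := by ring
        _ ≤ _ := by gcongr
    have h4 : Λ * α * E * (Z / z) * (2 * C * y - 4 * ν * Λ * α * Z)
        = -(X * (α * E * (4 * ν * Λ * α * Z - 2 * C * y)) / z) := by
      rw [hX]
      field_simp
      ring
    rw [h4]
    have h5 : γ / 2 * (1 - E) ≤ γ / 2 * X := by gcongr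
    have h6 : 0 ≤ α * X * E := by positivity
    linarith
  · have h1 : 0 < X * E := mul_pos hX0 hE0
    have h2 : 2 * α * X * E = 2 * α * (X * E) := by ring
    rw [h2]
    have h3 : 2 * α * (X * E) ≤ 1 * (X * E) := by
      apply mul_le_mul_of_nonneg_right _ h1.le
      linarith
    linarith

/-- The inequality for the outer part, in terms of numbers. -/
lemma outer_num (h : Par ν C α Λ γ y₁ X₁) {y : ℝ} (hy : y₁ < y) :
    (γ - 1) * y + (2 - 2 * α - 1) * (y - 2 * C) ≤ 0 ∧ γ * y ≤ y - 2 * C := by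
  have h1 := h.hy₁
  have h2 := h.g_lt
  have h3 := h.hα2
  have h4 := h.hC
  have h5 := h.y1_pos
  have h6 := h.g_pos
  have h7 := h.hα
  constructor
  · have : (2 - 2 * α - 1) * (y - 2 * C) ≤ (2 - 2 * α - 1) * y := by
      apply mul_le_mul_of_nonneg_left _ (by linarith)
      linarith
    have h8 : (γ - 1) * y + (2 - 2 * α - 1) * y = (γ - 2 * α) * y := by ring
    have h9 : (γ - 2 * α) * y ≤ 0 := mul_nonpos_of_nonpos_of_nonneg (by linarith) (by linarith)
    linarith
  · -- `γ y₁ < 1`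
    have h8 := h.gy
    have h9 : α * Real.exp (-X₁) ≤ 1 / 2 := by
      have h10 : Real.exp (-X₁) ≤ 1 := by
        rw [Real.exp_le_one_iff]
        linarith [h.X1_pos]
      have h11 := Real.exp_pos (-X₁)
      nlinarith
    -- γ y = γ (y - y₁) + γ y₁ ≤ (y - y₁) + 1 = y - 2C
    have h12 : γ * (y - y₁) ≤ 1 * (y - y₁) := by
      apply mul_le_mul_of_nonneg_right _ (by linarith)
      linarith
    linarith

end

end Pool.Agent.TH305.AX
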