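import Pool.Agent.TH305.AX.Bar3

/-!
Axisymmetric flows (helper305): the barrier is a supersolution.
-/

set_option autoImplicit false

open MeasureTheory Set Metric Filter Topology
open scoped ContDiff

namespace Pool.Agent.TH305.AX

open H459R3.NS W221.NS Pool.Agent.TH305.DR

section
variable {ν C α Λ γ y₁ X₁ : ℝ}

/-- Inner part: a smooth majorant. -/
lemma inner_maj (h : Par ν C α Λ γ y₁ X₁) {T t σ : ℝ} (ht : t < T) (hσ : 0 < σ)
    (hy1 : √(σ / (T - t)) ≤ y₁) {w B₀ : ℝ} (hB₀ : 0 ≤ B₀)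
    (hw : -((2 - 2 * α) * ν) - C * √σ / √(T - t) - B₀ * σ ≤ w) :
    ∃ χ χ₁ c₂ d ζ, Maj (Bar T C α Λ γ y₁ X₁) t σ χ χ₁ c₂ d ζ ∧
      4 * ν * σ * c₂ - 2 * w * χ₁ σ ≤ d + B₀ * Bar T C α Λ γ y₁ X₁ t σ := by
  obtain ⟨s, hs⟩ : ∃ s, s = T - t := ⟨_, rfl⟩
  have hs0 : 0 < s := by rw [hs]; linarith
  obtain ⟨P, hP⟩ : ∃ P, P = s ^ (γ / 2) := ⟨_, rfl⟩
  have hP0 : 0 < P := by rw [hP]; exact Real.rpow_pos_of_pos hs0 _
  obtain ⟨z, hz⟩ : ∃ z, z = σ / s := ⟨_, rfl⟩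
  have hz0 : 0 < z := by rw [hz]; positivity
  obtain ⟨y, hy⟩ : ∃ y, y = √z := ⟨_, rfl⟩
  have hy0 : 0 < y := by rw [hy]; exact Real.sqrt_pos.2 hz0
  have hzy : z = y ^ 2 := by rw [hy, Real.sq_sqrt hz0.le]
  obtain ⟨Z, hZ⟩ : ∃ Z, Z = z ^ α := ⟨_, rfl⟩
  have hZy : Z = y ^ (2 * α) := by rw [hZ, hy, sqrt_pow hz0.le]
  have hZ0 : 0 < Z := by rw [hZ]; exact Real.rpow_pos_of_pos hz0 _
  obtain ⟨E, hE⟩ : ∃ E, E = Real.exp (-(Λ * Z)) := ⟨_, rfl⟩
  have hE0 : 0 < E := by rw [hE]; exact Real.exp_pos _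
  have hσz : σ = s * z := by rw [hz]; field_simp
  rw [← hs, ← hz, ← hy] at hy1
  have hz1 : z ^ (α - 1) = Z / z := by
    rw [hZ, Real.rpow_sub_one hz0.ne']
  have hz2 : z ^ (α - 1 - 1) = Z / z / z := by
    rw [Real.rpow_sub_one hz0.ne', hz1]
  -- derivatives in r
  have hpow : ∀ r : ℝ, 0 < r → ∀ q : ℝ, HasDerivAt (fun r => (r / s) ^ q)
      (1 / s * q * (r / s) ^ (q - 1)) r := by
    intro r hr q
    have h1 : HasDerivAt (fun r : ℝ => r / s) (1 / s) r := (hasDerivAt_id r).div_const s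
    exact h1.rpow_const (Or.inl (by positivity))
  have hexpd : ∀ r : ℝ, 0 < r → HasDerivAt (fun r => Real.exp (-(Λ * (r / s) ^ α)))
      (Real.exp (-(Λ * (r / s) ^ α)) * -(Λ * (1 / s * α * (r / s) ^ (α - 1)))) r := by
    intro r hr
    exact (((hpow r hr α).const_mul Λ).neg).exp
  have hχd : ∀ r : ℝ, 0 < r → HasDerivAt (fun r => P * (1 - Real.exp (-(Λ * (r / s) ^ α))))
      (P * (Λ * (1 / s * α) * ((r / s) ^ (α - 1) * Real.exp (-(Λ * (r / s) ^ α))))) r := by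
    intro r hr
    exact (((hexpd r hr).const_sub 1).const_mul P).congr_deriv (by ring)
  have hχ1d : HasDerivAt (fun r => P * (Λ * (1 / s * α) * ((r / s) ^ (α - 1)
      * Real.exp (-(Λ * (r / s) ^ α)))))
      (P * (Λ * (1 / s * α) * (1 / s * (α - 1) * (Z / z / z) * E
        + Z / z * (E * -(Λ * (1 / s * α * (Z / z))))))) σ := by
    have h1 := (((hpow σ hσ (α - 1)).mul (hexpd σ hσ)).const_mul (Λ * (1 / s * α))).const_mul P
    refine h1.congr_deriv ?_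
    rw [← hz, hz1, hz2, ← hZ, ← hE]
  -- derivatives in τ
  obtain ⟨d, hd⟩ : ∃ d : ℝ, d = P / s * (-(γ / 2) * (1 - E) + α * (Λ * Z) * E) := ⟨_, rfl⟩
  have hζd : HasDerivAt (fun τ => (T - τ) ^ (γ / 2) * (1 - Real.exp (-(Λ * (σ / (T - τ)) ^ α))))
      d t := by
    have h1 : HasDerivAt (fun τ : ℝ => T - τ) (-1) t := by
      simpa using (hasDerivAt_id t).const_sub T
    have hst : T - t ≠ 0 := by rw [← hs]; exact hs0.ne'
    have h2 := h1.rpow_const (p := γ / 2) (Or.inl hst)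
    have h3 : HasDerivAt (fun τ : ℝ => σ / (T - τ)) (σ / (T - t) ^ 2) t := by
      have h4 := (hasDerivAt_const t σ).div h1 hst
      exact h4.congr_deriv (by ring)
    have hz' : σ / (T - t) ≠ 0 := by rw [← hs, ← hz]; exact hz0.ne'
    have h5a : HasDerivAt (fun τ : ℝ => -(Λ * (σ / (T - τ)) ^ α))
        (-(Λ * (σ / (T - t) ^ 2 * α * (σ / (T - t)) ^ (α - 1)))) t :=
      ((h3.rpow_const (p := α) (Or.inl hz')).const_mul Λ).neg
    have h5 : HasDerivAt (fun τ : ℝ => 1 - Real.exp (-(Λ * (σ / (T - τ)) ^ α)))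
        (-(Real.exp (-(Λ * (σ / (T - t)) ^ α)) *
          -(Λ * (σ / (T - t) ^ 2 * α * (σ / (T - t)) ^ (α - 1))))) t := h5a.exp.const_sub 1
    have h6 := h2.mul h5
    refine h6.congr_deriv ?_
    rw [← hs, ← hz, hz1, ← hZ, ← hE, Real.rpow_sub_one hs0.ne', ← hP, hd, hσz]
    field_simp
  have hBar : Bar T C α Λ γ y₁ X₁ t σ = P * (1 - E) := by
    unfold Bar gb
    rw [← hs, ← hz, ← hy, if_pos hy1, ← hP]
    unfold gin
    rw [← hZy, ← hE]
  refine ⟨fun r => P * (1 - Real.exp (-(Λ * (r / s) ^ α))),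
    fun r => P * (Λ * (1 / s * α) * ((r / s) ^ (α - 1) * Real.exp (-(Λ * (r / s) ^ α)))),
    _, d, fun τ => (T - τ) ^ (γ / 2) * (1 - Real.exp (-(Λ * (σ / (T - τ)) ^ α))),
    ⟨?_, ?_, hχ1d, ?_, ?_, ?_, ?_, hζd⟩, ?_⟩
  · have h1 : ContDiffAt ℝ 2 (fun r : ℝ => r / s) σ := by fun_prop
    have h2 : ContDiffAt ℝ 2 (fun r : ℝ => (r / s) ^ α) σ :=
      h1.rpow_const_of_ne (by rw [← hz]; exact hz0.ne')
    exact contDiffAt_const.mul (contDiffAt_const.sub ((contDiffAt_const.mul h2).neg.exp))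
  · filter_upwards [lt_mem_nhds hσ] with r hr
    exact hχd r hr
  · have h1 : Tendsto (fun r : ℝ => √(r / s)) (𝓝 σ) (𝓝 y) := by
      have h2 : Continuous fun r : ℝ => √(r / s) := by fun_prop
      have h3 := h2.tendsto σ
      rwa [← hz, ← hy] at h3
    filter_upwards [h1.eventually (gb_le_gin h hy1), lt_mem_nhds hσ] with r hr hr0
    unfold Bar
    rw [← hs, ← hP]
    have h4 : gin Λ α √(r / s) = 1 - Real.exp (-(Λ * (r / s) ^ α)) := by
      unfold gin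
      rw [sqrt_pow (by positivity)]
    rw [← h4]
    exact mul_le_mul_of_nonneg_left hr hP0.le
  · show P * (1 - Real.exp (-(Λ * (σ / s) ^ α))) = _
    rw [hBar, ← hz, ← hZ, ← hE]
  · filter_upwards [self_mem_nhdsWithin] with τ hτ
    have hτ' : τ < t := hτ
    have hTτ : 0 < T - τ := by linarith
    have h1 : √(σ / (T - τ)) ≤ y₁ := by
      refine le_trans (Real.sqrt_le_sqrt ?_) (by rw [← hy]; exact hy1 : √z ≤ y₁)
      rw [hz, hs]
      apply div_le_div_of_nonneg_left hσ.le (by linarith) (by linarith)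
    unfold Bar gb
    rw [if_pos h1]
    unfold gin
    rw [sqrt_pow (by positivity)]
  · show (T - t) ^ (γ / 2) * (1 - Real.exp (-(Λ * (σ / (T - t)) ^ α))) = _
    rw [hBar, ← hs, ← hz, ← hZ, ← hE, hP]
  · show 4 * ν * σ * _ - 2 * w * (P * (Λ * (1 / s * α) * ((σ / s) ^ (α - 1)
      * Real.exp (-(Λ * (σ / s) ^ α))))) ≤ _
    rw [← hz, hz1, ← hZ, ← hE, hBar]
    obtain ⟨n1, n2⟩ := inner_num h hy0 hy1 hzy hZy rfl hE
    have hα := h.hα
    have hΛ := h.L_pos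
    have hq : 0 < P * (Λ * (1 / s * α) * (Z / z * E)) := by positivity
    have hys : C * √σ / √(T - t) = C * y := by
      rw [mul_div_assoc, ← Real.sqrt_div hσ.le, ← hs, ← hz, ← hy]
    rw [hys] at hw
    have h1 : -2 * w * (P * (Λ * (1 / s * α) * (Z / z * E)))
        ≤ 2 * ((2 - 2 * α) * ν + C * y + B₀ * σ) * (P * (Λ * (1 / s * α) * (Z / z * E))) := by
      apply mul_le_mul_of_nonneg_right _ hq.le
      linarith
    have h2 : 4 * ν * σ * (P * (Λ * (1 / s * α) * (1 / s * (α - 1) * (Z / z / z) * E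
        + Z / z * (E * -(Λ * (1 / s * α * (Z / z)))))))
        + 2 * ((2 - 2 * α) * ν + C * y + B₀ * σ) * (P * (Λ * (1 / s * α) * (Z / z * E)))
        = P / s * (Λ * α * E * (Z / z) * (2 * C * y - 4 * ν * Λ * α * Z))
          + B₀ * P * (2 * α * (Λ * Z) * E) := by
      rw [hσz]
      field_simp
      ring
    have h3 : P / s * (Λ * α * E * (Z / z) * (2 * C * y - 4 * ν * Λ * α * Z))
        ≤ P / s * (-(γ / 2) * (1 - E) + α * (Λ * Z) * E) :=
      mul_le_mul_of_nonneg_left n1 (by positivity)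
    have h4 : B₀ * P * (2 * α * (Λ * Z) * E) ≤ B₀ * P * (1 - E) :=
      mul_le_mul_of_nonneg_left n2 (by positivity)
    rw [hd]
    linarith

/-- The outer part of the barrier. -/
lemma bar_out (h : Par ν C α Λ γ y₁ X₁) {T t r : ℝ} (ht : t < T) (hr : 0 < r)
    (hy : y₁ < √(r / (T - t))) : Bar T C α Λ γ y₁ X₁ t r
      = (1 - Real.exp (-X₁)) * (√r - 2 * C * √(T - t)) ^ γ := by
  obtain ⟨s, hs⟩ : ∃ s, s = T - t := ⟨_, rfl⟩
  have hs0 : 0 < s := by rw [hs]; linarith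
  unfold Bar gb
  rw [if_neg (not_le.2 hy)]
  unfold gout
  rw [← hs] at hy ⊢
  have hss : 0 < √s := Real.sqrt_pos.2 hs0
  have h1 : s ^ (γ / 2) = √s ^ γ := by
    rw [← sqrt_pow hs0.le]
    congr 1
    ring
  have h2 : √(r / s) = √r / √s := Real.sqrt_div hr.le s
  have h3 := h.hy₁
  have h4 : √r - 2 * C * √s = √s * (√(r / s) - 2 * C) := by
    rw [h2]
    field_simp
  rw [h1, h4, Real.mul_rpow hss.le (by linarith)]
  ring

/-- Outer part: a smooth majorant. -/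
lemma outer_maj (h : Par ν C α Λ γ y₁ X₁) {T t σ : ℝ} (ht : t < T) (hσ : 0 < σ)
    (hy1 : y₁ < √(σ / (T - t))) {w B₀ : ℝ} (hB₀ : 0 ≤ B₀)
    (hw : -((2 - 2 * α) * ν) - C * √σ / √(T - t) - B₀ * σ ≤ w) :
    ∃ χ χ₁ c₂ d ζ, Maj (Bar T C α Λ γ y₁ X₁) t σ χ χ₁ c₂ d ζ ∧
      4 * ν * σ * c₂ - 2 * w * χ₁ σ ≤ d + B₀ * Bar T C α Λ γ y₁ X₁ t σ := by
  have hbar := bar_out h ht hσ hy1
  obtain ⟨G, hG⟩ : ∃ G, G = 1 - Real.exp (-X₁) := ⟨_, rfl⟩
  have hG0 : 0 < G := by rw [hG]; exact h.E1.1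
  have hs0' : 0 < T - t := by linarith
  have hRT : 0 < √(T - t) := Real.sqrt_pos.2 hs0'
  obtain ⟨S, hS⟩ : ∃ S, S = √(T - t) := ⟨_, rfl⟩
  have hS0 : 0 < S := by rw [hS]; exact hRT
  obtain ⟨R, hR⟩ : ∃ R, R = √σ := ⟨_, rfl⟩
  have hR0 : 0 < R := by rw [hR]; exact Real.sqrt_pos.2 hσ
  have hR2 : σ = R ^ 2 := by rw [hR, Real.sq_sqrt hσ.le]
  obtain ⟨y, hy⟩ : ∃ y, y = √(σ / (T - t)) := ⟨_, rfl⟩
  have hyRS : R = y * S := by
    rw [hy, Real.sqrt_div hσ.le, hR, hS]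
    field_simp
  rw [← hy] at hy1
  have hy2C : 0 < y - 2 * C := by
    have := h.hy₁
    linarith
  obtain ⟨q, hq⟩ : ∃ q, q = R - 2 * C * S := ⟨_, rfl⟩
  have hqS : q = (y - 2 * C) * S := by rw [hq, hyRS]; ring
  have hq0 : 0 < q := by rw [hqS]; positivity
  obtain ⟨Q, hQ⟩ : ∃ Q, Q = q ^ (γ - 1) := ⟨_, rfl⟩
  have hQ0 : 0 < Q := by rw [hQ]; exact Real.rpow_pos_of_pos hq0 _
  have hQ1 : q ^ (γ - 1 - 1) = Q / q := by rw [Real.rpow_sub_one hq0.ne', hQ]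
  have hQq : q ^ γ = Q * q := by
    rw [hQ, ← Real.rpow_add_one hq0.ne']
    congr 1
    ring
  -- derivatives in r
  have hsq : ∀ r : ℝ, 0 < r → HasDerivAt (fun r => √r - 2 * C * S) (1 / (2 * √r)) r := by
    intro r hr
    exact (Real.hasDerivAt_sqrt hr.ne').sub_const _
  have hne : ∀ᶠ r in 𝓝 σ, √r - 2 * C * S ≠ 0 := by
    have h1 : ContinuousAt (fun r => √r - 2 * C * S) σ := by fun_prop
    refine h1.eventually_ne ?_
    rw [← hR, ← hq]
    exact hq0.ne'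
  have hχ : ∀ᶠ r in 𝓝 σ, HasDerivAt (fun r => G * (√r - 2 * C * S) ^ γ)
      (G * (1 / (2 * √r) * γ * (√r - 2 * C * S) ^ (γ - 1))) r := by
    filter_upwards [hne, lt_mem_nhds hσ] with r hr hr0
    exact ((hsq r hr0).rpow_const (Or.inl hr)).const_mul G
  have hχ1 : HasDerivAt (fun r => G * (1 / (2 * √r) * γ * (√r - 2 * C * S) ^ (γ - 1)))
      (G * (-(1 / (4 * R ^ 3)) * γ * Q + 1 / (2 * R) * γ * (1 / (2 * R) * (γ - 1) * (Q / q))))
      σ := by
    have h1 : HasDerivAt (fun r : ℝ => 1 / (2 * √r)) (-(1 / (4 * R ^ 3))) σ := by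
      have h2 := (hasDerivAt_const σ (1 : ℝ)).div ((Real.hasDerivAt_sqrt hσ.ne').const_mul 2)
        (by rw [← hR]; positivity)
      refine h2.congr_deriv ?_
      rw [← hR]
      field_simp
      ring
    have h3 : HasDerivAt (fun r : ℝ => (√r - 2 * C * S) ^ (γ - 1))
        (1 / (2 * √σ) * (γ - 1) * (√σ - 2 * C * S) ^ (γ - 1 - 1)) σ :=
      (hsq σ hσ).rpow_const (Or.inl (by rw [← hR, ← hq]; exact hq0.ne'))
    have h4 := ((h1.mul_const γ).mul h3).const_mul G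
    refine h4.congr_deriv ?_
    rw [← hR, ← hq, hQ1, ← hQ]
  -- derivatives in τ
  have hζ : HasDerivAt (fun τ => G * (R - 2 * C * √(T - τ)) ^ γ) (G * (C / S * γ * Q)) t := by
    have h1 : HasDerivAt (fun τ : ℝ => T - τ) (-1) t := by
      simpa using (hasDerivAt_id t).const_sub T
    have h2 : HasDerivAt (fun τ : ℝ => √(T - τ)) (-1 / (2 * √(T - t))) t := h1.sqrt hs0'.ne'
    have h3 : HasDerivAt (fun τ : ℝ => R - 2 * C * √(T - τ)) (C / S) t := by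
      refine ((h2.const_mul (2 * C)).const_sub R).congr_deriv ?_
      rw [← hS]
      field_simp
    have h4 := (h3.rpow_const (p := γ) (Or.inl (by rw [← hS, ← hq]; exact hq0.ne'))).const_mul G
    refine h4.congr_deriv ?_
    rw [← hS, ← hq, ← hQ]
  have hB : Bar T C α Λ γ y₁ X₁ t σ = G * (Q * q) := by
    rw [hbar, ← hG, ← hR, ← hS, ← hq, hQq]
  refine ⟨fun r => G * (√r - 2 * C * S) ^ γ,
    fun r => G * (1 / (2 * √r) * γ * (√r - 2 * C * S) ^ (γ - 1)), _, _,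
    fun τ => G * (R - 2 * C * √(T - τ)) ^ γ, ⟨?_, hχ, hχ1, ?_, ?_, ?_, ?_, hζ⟩, ?_⟩
  · have h1 : ContDiffAt ℝ 2 (fun r : ℝ => √r - 2 * C * S) σ :=
      (Real.contDiffAt_sqrt hσ.ne').sub contDiffAt_const
    exact contDiffAt_const.mul (h1.rpow_const_of_ne (by rw [← hR, ← hq]; exact hq0.ne'))
  · have h1 : Tendsto (fun r : ℝ => √(r / (T - t))) (𝓝 σ) (𝓝 y) := by
      have h2 : Continuous fun r : ℝ => √(r / (T - t)) := by fun_prop
      have h3 := h2.tendsto σ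
      rwa [← hy] at h3
    filter_upwards [h1.eventually (lt_mem_nhds hy1), lt_mem_nhds hσ] with r hr hr0
    rw [bar_out h ht hr0 hr, ← hG, ← hS]
  · show G * (√σ - 2 * C * S) ^ γ = _
    rw [hB, ← hR, ← hq, hQq]
  · have h1 : Tendsto (fun τ : ℝ => √(σ / (T - τ))) (𝓝[<] t) (𝓝 y) := by
      have h2 : ContinuousAt (fun τ : ℝ => √(σ / (T - τ))) t := by
        apply ContinuousAt.sqrt
        exact continuousAt_const.div (by fun_prop) hs0'.ne'
      have h3 := h2.tendsto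
      rw [← hy] at h3
      exact h3.mono_left nhdsWithin_le_nhds
    filter_upwards [h1.eventually (lt_mem_nhds hy1), self_mem_nhdsWithin] with τ hτ hτt
    have hτT : τ < T := lt_trans hτt ht
    rw [bar_out h hτT hσ hτ, ← hG, ← hR]
  · show G * (R - 2 * C * √(T - t)) ^ γ = _
    rw [hB, ← hS, ← hq, hQq]
  · show 4 * ν * σ * _ - 2 * w * (G * (1 / (2 * √σ) * γ * (√σ - 2 * C * S) ^ (γ - 1))) ≤ _
    rw [hB, ← hR, ← hq, ← hQ]
    rw [← hR, ← hS] at hw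
    obtain ⟨n1, n2⟩ := outer_num h hy1
    have hν := h.hν
    have hγ := h.g_pos
    have hp : 0 < G * (1 / (2 * R) * γ * Q) := by positivity
    have h1 : -2 * w * (G * (1 / (2 * R) * γ * Q))
        ≤ 2 * ((2 - 2 * α) * ν + C * R / S + B₀ * σ) * (G * (1 / (2 * R) * γ * Q)) := by
      apply mul_le_mul_of_nonneg_right _ hp.le
      linarith
    have h2 : 4 * ν * σ * (G * (-(1 / (4 * R ^ 3)) * γ * Q
        + 1 / (2 * R) * γ * (1 / (2 * R) * (γ - 1) * (Q / q))))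
        + 2 * ((2 - 2 * α) * ν + C * R / S + B₀ * σ) * (G * (1 / (2 * R) * γ * Q))
        = G * γ * Q * ν / (q * R) * ((γ - 1) * R + (2 - 2 * α - 1) * q)
          + G * (C / S * γ * Q) + B₀ * (G * Q) * (γ * R) := by
      rw [hR2]
      field_simp
      ring
    have h3 : G * γ * Q * ν / (q * R) * ((γ - 1) * R + (2 - 2 * α - 1) * q) ≤ 0 := by
      apply mul_nonpos_of_nonneg_of_nonpos (by positivity)
      have h4 : (γ - 1) * R + (2 - 2 * α - 1) * q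
          = S * ((γ - 1) * y + (2 - 2 * α - 1) * (y - 2 * C)) := by
        rw [hqS, hyRS]
        ring
      rw [h4]
      exact mul_nonpos_of_nonneg_of_nonpos hS0.le n1
    have h5 : B₀ * (G * Q) * (γ * R) ≤ B₀ * (G * Q) * q := by
      apply mul_le_mul_of_nonneg_left _ (by positivity)
      calc γ * R = γ * y * S := by rw [hyRS]; ring
        _ ≤ (y - 2 * C) * S := by gcongr
        _ = q := hqS.symm
    linarith

end

end Pool.Agent.TH305.AX
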