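import Pool.Agent.TH305.DR.Scl
import Pool.Agent.W349.MF.OMEGA1

/-!
Axisymmetric flows (helper305): derivative tests, the circulation `x₀ v₁ - x₁ v₀`.
-/

set_option autoImplicit false

open MeasureTheory Set Metric Filter Topology
open scoped ContDiff

namespace Pool.Agent.TH305.AX

open H459R3.NS W221.NS Pool.Agent.TH305.DR

lemma line_hd (x e : V) (s : ℝ) : HasDerivAt (fun s : ℝ => x + s • e) e s := by
  simpa using ((hasDerivAt_id s).smul_const e).const_add x

/-- First and second derivatives at a local maximum. -/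
lemma max_pd {f : V → ℝ} {x : V} (hf : ContDiffAt ℝ 2 f x) (hmax : IsLocalMax f x) (j : Fin 3) :
    pd j f x = 0 ∧ pd j (pd j f) x ≤ 0 := by
  obtain ⟨e, he⟩ : ∃ e : V, e = Pi.single j 1 := ⟨_, rfl⟩
  have hfd : pd j f x = 0 := by
    unfold pd
    rw [hmax.fderiv_eq_zero]
    rfl
  refine ⟨hfd, ?_⟩
  by_contra hcon
  push Not at hcon
  obtain ⟨g, hg⟩ : ∃ g : ℝ → ℝ, g = fun s => f (x + s • e) := ⟨_, rfl⟩
  have hx0 : x + (0 : ℝ) • e = x := by simp
  have hct : Tendsto (fun s : ℝ => x + s • e) (𝓝 0) (𝓝 x) := by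
    have h1 : Continuous fun s : ℝ => x + s • e := by fun_prop
    have h2 := h1.tendsto 0
    rwa [hx0] at h2
  have hev : ∀ᶠ s : ℝ in 𝓝 0, DifferentiableAt ℝ f (x + s • e) := by
    have h1 : ∀ᶠ y in 𝓝 x, ContDiffAt ℝ 2 f y := hf.eventually (by simp)
    filter_upwards [hct.eventually h1] with s hs
    exact hs.differentiableAt (by norm_num)
  have hgd : ∀ᶠ s : ℝ in 𝓝 0, HasDerivAt g (pd j f (x + s • e)) s := by
    filter_upwards [hev] with s hs
    have h1 := hs.hasFDerivAt.comp_hasDerivAt s (line_hd x e s)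
    rw [hg]
    unfold pd
    rw [← he]
    exact h1
  have hd1 : deriv g =ᶠ[𝓝 0] fun s => pd j f (x + s • e) := by
    filter_upwards [hgd] with s hs
    exact hs.deriv
  have hpd : DifferentiableAt ℝ (pd j f) x := by
    have h1 : ContDiffAt ℝ 1 (fderiv ℝ f) x := hf.fderiv_right (by norm_num)
    exact (h1.clm_apply contDiffAt_const).differentiableAt (by norm_num)
  have hd2 : HasDerivAt (fun s : ℝ => pd j f (x + s • e)) (pd j (pd j f) x) 0 := by
    have h0 : DifferentiableAt ℝ (pd j f) (x + (0 : ℝ) • e) := by rw [hx0]; exact hpd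
    have h1 := h0.hasFDerivAt.comp_hasDerivAt (0 : ℝ) (line_hd x e 0)
    have e1 : pd j (pd j f) x = fderiv ℝ (pd j f) (x + (0 : ℝ) • e) e := by
      rw [hx0, he]
      rfl
    rw [e1]
    exact h1
  have hdd : deriv (deriv g) 0 = pd j (pd j f) x := by
    rw [hd1.deriv_eq]
    exact hd2.deriv
  have hg1 : deriv g 0 = 0 := by
    rw [hd1.eq_of_nhds]
    show pd j f (x + (0 : ℝ) • e) = 0
    rw [hx0, hfd]
  have hgc : ContinuousAt g 0 := hgd.self_of_nhds.continuousAt
  have hmin := isLocalMin_of_deriv_deriv_pos (by rw [hdd]; exact hcon) hg1 hgc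
  have hgmax : ∀ᶠ s : ℝ in 𝓝 0, g s ≤ g 0 := by
    have := hct.eventually hmax
    filter_upwards [this] with s hs
    rw [hg]
    show f (x + s • e) ≤ f (x + (0 : ℝ) • e)
    rw [hx0]
    exact hs
  have hconst : g =ᶠ[𝓝 0] fun _ => g 0 := by
    filter_upwards [hmin, hgmax] with s h1 h2
    exact le_antisymm h2 h1
  have h1 : deriv g =ᶠ[𝓝 0] fun _ => 0 := by
    have := hconst.deriv
    filter_upwards [this] with s hs
    rw [hs]
    simp
  have h2 : deriv (deriv g) 0 = 0 := by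
    rw [h1.deriv_eq]
    simp
  rw [hdd] at h2
  linarith

/-- `x₀² + x₁²`. -/
def sg (x : V) : ℝ := x 0 ^ 2 + x 1 ^ 2

/-- The circulation `x₀ v₁ - x₁ v₀` of the field `v`: the distance to the third axis times the
angular component. -/
def circ (v : V → V) (x : V) : ℝ := x 0 * v x 1 - x 1 * v x 0

/-- Rotation about the third axis. -/
noncomputable def rot (θ : ℝ) (x : V) : V :=
  ![Real.cos θ * x 0 - Real.sin θ * x 1, Real.sin θ * x 0 + Real.cos θ * x 1, x 2]

/-- The field `v` is axisymmetric. -/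
def Axi (v : V → V) : Prop := ∀ (θ : ℝ) (x : V), v (rot θ x) = rot θ (v x)

lemma pd_crd (i j : Fin 3) : pd j (fun y : V => y i) = fun _ => if i = j then 1 else 0 := by
  funext x
  unfold pd
  have h : HasFDerivAt (fun y : V => y i) (ContinuousLinearMap.proj (R := ℝ) i) x :=
    (ContinuousLinearMap.proj (R := ℝ) (φ := fun _ : Fin 3 => ℝ) i).hasFDerivAt
  rw [h.fderiv]
  simp [Pi.single_apply]

lemma sm_crd (i : Fin 3) : ContDiff ℝ ∞ (fun y : V => y i) := by fun_prop

lemma pd_mulf {f g : V → ℝ} (hf : ContDiff ℝ ∞ f) (hg : ContDiff ℝ ∞ g) (j : Fin 3) :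
    pd j (fun y => f y * g y) = fun x => f x * pd j g x + pd j f x * g x := by
  funext x
  exact Pool.Agent.W583.MD.pd_mul' hf hg j x

section circ
variable {v : V → V}

lemma sm_cmp (hv : ContDiff ℝ ∞ v) (i : Fin 3) : ContDiff ℝ ∞ (fun y => v y i) :=
  contDiff_pi.1 hv i

lemma sm_circ (hv : ContDiff ℝ ∞ v) : ContDiff ℝ ∞ (circ v) :=
  ((sm_crd 0).mul (sm_cmp hv 1)).sub ((sm_crd 1).mul (sm_cmp hv 0))

lemma pd_circ (hv : ContDiff ℝ ∞ v) (j : Fin 3) : pd j (circ v) = fun x =>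
    (x 0 * pd j (fun y => v y 1) x + (if (0 : Fin 3) = j then 1 else 0) * v x 1)
      - (x 1 * pd j (fun y => v y 0) x + (if (1 : Fin 3) = j then 1 else 0) * v x 0) := by
  have h1 : circ v = fun y => y 0 * v y 1 - y 1 * v y 0 := rfl
  rw [h1, pd_sub' ((sm_crd 0).mul (sm_cmp hv 1)) ((sm_crd 1).mul (sm_cmp hv 0)),
    pd_mulf (sm_crd 0) (sm_cmp hv 1), pd_mulf (sm_crd 1) (sm_cmp hv 0), pd_crd, pd_crd]

end circ

end Pool.Agent.TH305.AX
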