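import Pool.Agent.TH305.AX.Wt

/-!
Axisymmetric flows (helper305): comparison of the circulation with a weight.
-/

set_option autoImplicit false

open MeasureTheory Set Metric Filter Topology
open scoped ContDiff

namespace Pool.Agent.TH305.AX

open H459R3.NS W221.NS Pool.Agent.TH305.DR

variable {ν T : ℝ} {u : ℝ → V → V} {p : ℝ → V → ℝ}

/-- `x` is a point with `0 < ρ² ≤ S` at which `|circulation| / ψ(ρ²)` is largest. -/
def IsTop (ψ : ℝ → ℝ) (S : ℝ) (v : V → V) (x : V) : Prop :=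
  ∀ y, 0 < sg y → sg y ≤ S → |circ v y| * ψ (sg x) ≤ |circ v x| * ψ (sg y)

/-- The time derivative at a maximum. -/
lemma top_time (hν : 0 < ν) (h : AxSol ν T u p) {S : ℝ} {ψ ψ₁ ψ₂ : ℝ → ℝ}
    (hψ : ∀ σ ∈ Ioc 0 S, 0 < ψ σ) (hsm : ContDiffOn ℝ 2 ψ (Ioo 0 S))
    (hd1 : ∀ σ ∈ Ioo 0 S, HasDerivAt ψ (ψ₁ σ) σ)
    (hd2 : ∀ σ ∈ Ioo 0 S, HasDerivAt ψ₁ (ψ₂ σ) σ) {B : ℝ → ℝ}
    (hmax : ∀ t ∈ Ioo 0 T, ∀ x, 0 < sg x → sg x < S → circ (u t) x ≠ 0 → IsTop ψ S (u t) x →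
      4 * ν * sg x * ψ₂ (sg x) - 2 * (x 0 * u t x 0 + x 1 * u t x 1) * ψ₁ (sg x)
        ≤ B t * ψ (sg x))
    {t : ℝ} (ht : t ∈ Ioo 0 T) {x : V} (h0 : 0 < sg x) (h1 : sg x < S)
    (hne : circ (u t) x ≠ 0) (htop : IsTop ψ S (u t) x) :
    ∃ (θ s d : ℝ), |s| = 1 ∧ s * circ (u t) x = |circ (u t) x| ∧
      HasDerivAt (fun τ => s * circ (u τ) (rot θ x)) d t ∧ d ≤ B t * |circ (u t) x| := by
  have hax := h.axi t (Ioo_subset_Ico_self ht)
  obtain ⟨s, hs1, hs2⟩ : ∃ s : ℝ, |s| = 1 ∧ s * circ (u t) x = |circ (u t) x| := by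
    rcases le_total 0 (circ (u t) x) with h1 | h1
    · exact ⟨1, by simp, by rw [abs_of_nonneg h1, one_mul]⟩
    · exact ⟨-1, by simp, by rw [abs_of_nonpos h1]; ring⟩
  have hsc : ∀ v : V → V, ∀ x, s * circ v x ≤ |circ v x| := by
    intro v x
    calc s * circ v x ≤ |s * circ v x| := le_abs_self _
      _ = |circ v x| := by rw [abs_mul, hs1, one_mul]
  have hψx : 0 < ψ (sg x) := hψ _ ⟨h0, h1.le⟩
  obtain ⟨c, hc⟩ : ∃ c : ℝ, c = |circ (u t) x| / ψ (sg x) := ⟨_, rfl⟩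
  have hc0 : 0 < c := by rw [hc]; exact div_pos (abs_pos.2 hne) hψx
  have hcx : c * ψ (sg x) = |circ (u t) x| := by rw [hc]; field_simp
  have hrot : ∀ θ, sg (rot θ x) = sg x := fun θ => sg_rot θ x
  have hcr : ∀ θ, circ (u t) (rot θ x) = circ (u t) x := fun θ => circ_rot hax θ x
  have hle : ∀ y, 0 < sg y → sg y ≤ S → |circ (u t) y| ≤ c * ψ (sg y) := by
    intro y hy0 hyS
    have := htop y hy0 hyS
    rw [hc, div_mul_eq_mul_div, le_div_iff₀ hψx]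
    exact this
  obtain ⟨θ, hθ⟩ := touch_t hν h ht h0 (s := s) (W := fun y => c * ψ (sg y))
    (fun θ => by
      have h2 : ContDiffAt ℝ 2 ψ (sg (rot θ x)) := by
        rw [hrot]
        exact hsm.contDiffAt (Ioo_mem_nhds h0 h1)
      exact contDiffAt_const.mul (h2.comp _ (sm_sg.contDiffAt.of_le (by norm_cast))))
    (fun θ => by
      have h2 : ∀ᶠ y in 𝓝 (rot θ x), sg y ∈ Ioo 0 S :=
        near_sg (by rw [hrot]; exact h0) (by rw [hrot]; exact h1)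
      filter_upwards [h2] with y hy
      rw [hcr, hrot, hs2, hcx, sub_self]
      have h3 := (hsc (u t) y).trans (hle y hy.1 hy.2.le)
      linarith)
  refine ⟨θ, s, _, hs1, hs2, (circ_hd h ht (rot θ x)).const_mul s, hθ.trans ?_⟩
  obtain ⟨x', hx'⟩ : ∃ x', x' = rot θ x := ⟨_, rfl⟩
  have hsx : sg x' = sg x := by rw [hx', hrot]
  have hcx' : circ (u t) x' = circ (u t) x := by rw [hx', hcr]
  rw [← hx']
  have h0' : 0 < sg x' := by rw [hsx]; exact h0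
  have h1' : sg x' < S := by rw [hsx]; exact h1
  have htop' : IsTop ψ S (u t) x' := by
    intro y hy0 hyS
    rw [hcx', hsx]
    exact htop y hy0 hyS
  have hcond := hmax t ht x' h0' h1' (by rw [hcx']; exact hne) htop'
  have hpd : ∀ j, pd j (fun y => c * ψ (sg y)) x' = c * (ψ₁ (sg x') * (2 * cj j * x' j)) :=
    fun j => pd_wt hd1 c h0' h1' j
  rw [lap_wt hd1 hd2 c h0' h1']
  simp only [hpd, Fin.sum_univ_three, cj0, cj1, cj2]
  have hom : 2 * (x' 0 * (c * (ψ₁ (sg x') * (2 * 1 * x' 0)))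
      + x' 1 * (c * (ψ₁ (sg x') * (2 * 1 * x' 1)))) / sg x' = 4 * c * ψ₁ (sg x') := by
    rw [div_eq_iff h0'.ne']
    have : sg x' = x' 0 ^ 2 + x' 1 ^ 2 := rfl
    linear_combination (-(4 * c * ψ₁ (sg x'))) * this
  rw [hom, ← hcx, ← hsx]
  have h5 := mul_le_mul_of_nonneg_left hcond hc0.le
  linarith

end Pool.Agent.TH305.AX
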