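import Pool.Agent.TH305.AX.Cmp

/-!
Axisymmetric flows (helper305): comparison of the circulation with a weight, main theorem.
-/

set_option autoImplicit false

open MeasureTheory Set Metric Filter Topology
open scoped ContDiff

namespace Pool.Agent.TH305.AX

open H459R3.NS W221.NS Pool.Agent.TH305.DR

variable {ν T : ℝ} {u : ℝ → V → V} {p : ℝ → V → ℝ}

lemma prim_hd {B : ℝ → ℝ} (hB : ContinuousOn B (Ico 0 T)) {t : ℝ} (ht : t ∈ Ioo 0 T) :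
    HasDerivAt (fun τ => ∫ r in (0 : ℝ)..τ, B r) (B t) t := by
  have hi : IntervalIntegrable B volume 0 t := by
    apply ContinuousOn.intervalIntegrable
    rw [uIcc_of_le ht.1.le]
    exact hB.mono fun s hs => ⟨hs.1, hs.2.trans_lt ht.2⟩
  exact intervalIntegral.integral_hasDerivAt_right hi
    ((hB.mono Ioo_subset_Ico_self).stronglyMeasurableAtFilter isOpen_Ioo t ht)
    ((hB.mono Ioo_subset_Ico_self).continuousAt (Ioo_mem_nhds ht.1 ht.2))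

lemma prim_cont {B : ℝ → ℝ} (hB : ContinuousOn B (Ico 0 T)) {t : ℝ} (ht : t ∈ Ico 0 T) :
    ContinuousOn (fun τ => ∫ r in (0 : ℝ)..τ, B r) (Icc 0 t) := by
  have h1 : ContinuousOn B (Icc 0 t) := hB.mono fun s hs => ⟨hs.1, hs.2.trans_lt ht.2⟩
  have h2 : IntegrableOn B (uIcc 0 t) := by
    rw [uIcc_of_le ht.1]
    exact h1.integrableOn_compact isCompact_Icc
  have h3 := intervalIntegral.continuousOn_primitive_interval h2
  rwa [uIcc_of_le ht.1] at h3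

lemma prim_nonneg {B : ℝ → ℝ} (hB0 : ∀ t ∈ Ico 0 T, 0 ≤ B t) {t : ℝ} (ht : t ∈ Ico 0 T) :
    0 ≤ ∫ r in (0 : ℝ)..t, B r :=
  intervalIntegral.integral_nonneg ht.1 fun s hs => hB0 s ⟨hs.1, hs.2.trans_lt ht.2⟩

/-- Comparison of the circulation with a weight. -/
theorem cmp (hν : 0 < ν) (h : AxSol ν T u p) {S A : ℝ} (hS : 0 < S) {ψ ψ₁ ψ₂ : ℝ → ℝ}
    (hψ : ∀ σ ∈ Ioc 0 S, 0 < ψ σ) (hψc : ContinuousOn ψ (Ioc 0 S))
    (hsm : ContDiffOn ℝ 2 ψ (Ioo 0 S))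
    (hd1 : ∀ σ ∈ Ioo 0 S, HasDerivAt ψ (ψ₁ σ) σ)
    (hd2 : ∀ σ ∈ Ioo 0 S, HasDerivAt ψ₁ (ψ₂ σ) σ)
    (h0 : Tendsto (fun σ => √σ / ψ σ) (𝓝[>] 0) (𝓝 0)) {B : ℝ → ℝ}
    (hB : ContinuousOn B (Ico 0 T)) (hB0 : ∀ t ∈ Ico 0 T, 0 ≤ B t)
    (hbd : ∀ t ∈ Ico 0 T, ∀ x, sg x = S → |circ (u t) x| ≤ A * ψ S)
    (hin : ∀ x, 0 < sg x → sg x ≤ S → |circ (u 0) x| ≤ A * ψ (sg x))
    (hmax : ∀ t ∈ Ioo 0 T, ∀ x, 0 < sg x → sg x < S → circ (u t) x ≠ 0 → IsTop ψ S (u t) x →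
      4 * ν * sg x * ψ₂ (sg x) - 2 * (x 0 * u t x 0 + x 1 * u t x 1) * ψ₁ (sg x)
        ≤ B t * ψ (sg x)) :
    ∀ t ∈ Ico 0 T, ∀ x, 0 < sg x → sg x ≤ S →
      |circ (u t) x| ≤ A * Real.exp (∫ r in (0 : ℝ)..t, B r) * ψ (sg x) := by
  intro t₀ ht₀ x₀ hx0 hxS
  by_contra hcon
  push Not at hcon
  obtain ⟨b, hb⟩ : ∃ b : ℝ → ℝ, b = fun τ => ∫ r in (0 : ℝ)..τ, B r := ⟨_, rfl⟩
  have hbt₀ : (∫ r in (0 : ℝ)..t₀, B r) = b t₀ := by rw [hb]
  rw [hbt₀] at hcon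
  have hb0 : b 0 = 0 := by rw [hb]; simp
  have hbn : ∀ t ∈ Icc 0 t₀, 0 ≤ b t := fun t ht => by
    rw [hb]
    exact prim_nonneg hB0 ⟨ht.1, ht.2.trans_lt ht₀.2⟩
  have hψx : 0 < ψ (sg x₀) := hψ _ ⟨hx0, hxS⟩
  have hA : 0 ≤ A := by
    have h1 := (abs_nonneg _).trans (hin x₀ hx0 hxS)
    by_contra h2
    push Not at h2
    nlinarith
  have ht00 : 0 < t₀ := by
    rcases eq_or_lt_of_le ht₀.1 with h1 | h1
    · rw [← h1, hb0, Real.exp_zero, mul_one] at hcon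
      exact absurd (hin x₀ hx0 hxS) (not_le.2 hcon)
    · exact h1
  obtain ⟨r₀, hr₀⟩ : ∃ r₀ : ℝ, r₀ = |circ (u t₀) x₀| * Real.exp (-b t₀) / ψ (sg x₀) := ⟨_, rfl⟩
  have hr₀A : A < r₀ := by
    rw [hr₀, lt_div_iff₀ hψx, Real.exp_neg, ← div_eq_mul_inv, lt_div_iff₀ (Real.exp_pos _)]
    linarith
  have hr₀0 : 0 < r₀ := by linarith
  obtain ⟨ε, hε, hε2⟩ : ∃ ε : ℝ, 0 < ε ∧ A < r₀ * Real.exp (-(ε * t₀)) := by
    refine ⟨(1 - A / r₀) / (2 * t₀), ?_, ?_⟩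
    · apply div_pos _ (by positivity)
      have : A / r₀ < 1 := (div_lt_one hr₀0).2 hr₀A
      linarith
    · have e1 : (1 - A / r₀) / (2 * t₀) * t₀ = (1 - A / r₀) / 2 := by field_simp
      rw [e1]
      have h1 : 1 - (1 - A / r₀) / 2 ≤ Real.exp (-((1 - A / r₀) / 2)) := by
        have := Real.add_one_le_exp (-((1 - A / r₀) / 2))
        linarith
      have h2 : r₀ * (1 - (1 - A / r₀) / 2) ≤ r₀ * Real.exp (-((1 - A / r₀) / 2)) := by gcongr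
      have h3 : r₀ * (1 - (1 - A / r₀) / 2) = (r₀ + A) / 2 := by
        field_simp
        ring
      linarith
  obtain ⟨ex, hex⟩ : ∃ ex : ℝ → ℝ, ex = fun τ => Real.exp (-b τ - ε * τ) := ⟨_, rfl⟩
  have hexp : ∀ τ, 0 < ex τ := fun τ => by rw [hex]; exact Real.exp_pos _
  have hex1 : ∀ τ ∈ Icc 0 t₀, ex τ ≤ 1 := fun τ hτ => by
    rw [hex]
    apply Real.exp_le_one_iff.2
    have h1 := hbn τ hτ
    have h2 : 0 ≤ ε * τ := mul_nonneg hε.le hτ.1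
    linarith
  obtain ⟨F, hF⟩ : ∃ F : ℝ × V → ℝ, F = fun z => |circ (u z.1) z.2| * ex z.1 / ψ (sg z.2) :=
    ⟨_, rfl⟩
  obtain ⟨F₀, hF₀⟩ : ∃ F₀ : ℝ, F₀ = F (t₀, x₀) := ⟨_, rfl⟩
  have hF₀A : A < F₀ := by
    refine hε2.trans_le (le_of_eq ?_)
    rw [hF₀, hF, hr₀, hex]
    show _ = |circ (u t₀) x₀| * Real.exp (-b t₀ - ε * t₀) / ψ (sg x₀)
    rw [sub_eq_add_neg, Real.exp_add]
    ring
  have hF₀0 : 0 < F₀ := by linarith
  obtain ⟨U, hU0, hU⟩ := u_bdd h ht₀.2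
  -- a simple bound of F
  have hFle : ∀ t ∈ Icc 0 t₀, ∀ y, 0 < sg y → sg y ≤ S →
      F (t, y) ≤ 2 * √(sg y) * ‖u t y‖ / ψ (sg y) := by
    intro t ht y hy0 hyS
    have hψy : 0 < ψ (sg y) := hψ _ ⟨hy0, hyS⟩
    rw [hF]
    show |circ (u t) y| * ex t / ψ (sg y) ≤ _
    have h1 := circ_le (u t) y
    have h2 : |circ (u t) y| * ex t ≤ |circ (u t) y| * 1 := by
      have := hex1 t ht
      gcongr
    exact div_le_div_of_nonneg_right (by linarith) hψy.le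
  -- near the axis
  obtain ⟨δ, hδ, hδF⟩ : ∃ δ : ℝ, 0 < δ ∧ ∀ t ∈ Icc 0 t₀, ∀ y, 0 < sg y → sg y ≤ S → sg y < δ →
      F (t, y) < F₀ := by
    have h1 : Tendsto (fun σ => 2 * U * (√σ / ψ σ)) (𝓝[>] 0) (𝓝 0) := by
      have := h0.const_mul (2 * U)
      rwa [mul_zero] at this
    have h2 : ∀ᶠ σ in 𝓝[>] (0 : ℝ), 2 * U * (√σ / ψ σ) < F₀ := h1.eventually (gt_mem_nhds hF₀0)
    obtain ⟨δ, hδ, hs⟩ := mem_nhdsGT_iff_exists_Ioo_subset.1 h2
    refine ⟨δ, hδ, fun t ht y hy0 hyS hyδ => ?_⟩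
    have h3 : 2 * U * (√(sg y) / ψ (sg y)) < F₀ := hs ⟨hy0, hyδ⟩
    have hψy : 0 < ψ (sg y) := hψ _ ⟨hy0, hyS⟩
    refine (hFle t ht y hy0 hyS).trans_lt (lt_of_le_of_lt ?_ h3)
    have h4 := hU t ht y
    calc 2 * √(sg y) * ‖u t y‖ / ψ (sg y) ≤ 2 * √(sg y) * U / ψ (sg y) := by gcongr
      _ = _ := by ring
  obtain ⟨δ', hδ', hδ'0, hδ'S, hδ'δ⟩ : ∃ δ' : ℝ, δ' = min δ S ∧ 0 < δ' ∧ δ' ≤ S ∧ δ' ≤ δ :=
    ⟨_, rfl, lt_min hδ hS, min_le_right _ _, min_le_left _ _⟩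
  obtain ⟨m, hm0, hm⟩ : ∃ m : ℝ, 0 < m ∧ ∀ σ ∈ Icc δ' S, m ≤ ψ σ := by
    obtain ⟨σ₀, hσ₀, hmin⟩ := isCompact_Icc.exists_isMinOn (nonempty_Icc.2 hδ'S)
      (hψc.mono fun σ hσ => ⟨hδ'0.trans_le hσ.1, hσ.2⟩)
    exact ⟨ψ σ₀, hψ σ₀ ⟨hδ'0.trans_le hσ₀.1, hσ₀.2⟩, fun σ hσ => hmin hσ⟩
  have hsS : 0 < √S := Real.sqrt_pos.2 hS
  obtain ⟨R, hR⟩ := h.decay t₀ ht₀.2 (F₀ * m / (4 * √S)) (by positivity)
  have hRF : ∀ t ∈ Icc 0 t₀, ∀ y, δ' ≤ sg y → sg y ≤ S → R ≤ ‖y‖ → F (t, y) < F₀ := by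
    intro t ht y hy0 hyS hyR
    have hψy : m ≤ ψ (sg y) := hm _ ⟨hy0, hyS⟩
    refine (hFle t ht y (hδ'0.trans_le hy0) hyS).trans_lt ?_
    have h4 := hR t ht y hyR
    have h5 : √(sg y) ≤ √S := Real.sqrt_le_sqrt hyS
    calc 2 * √(sg y) * ‖u t y‖ / ψ (sg y) ≤ 2 * √S * (F₀ * m / (4 * √S)) / m := by gcongr
      _ = F₀ / 2 := by
        field_simp
        norm_num
      _ < F₀ := by linarith
  -- the compact set
  obtain ⟨Kc, hKc⟩ : ∃ Kc : Set (ℝ × V), Kc = (Icc 0 t₀ ×ˢ closedBall (0 : V) R) ∩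
      {z | δ' ≤ sg z.2 ∧ sg z.2 ≤ S} := ⟨_, rfl⟩
  have hKcc : IsCompact Kc := by
    rw [hKc]
    apply (isCompact_Icc.prod (isCompact_closedBall _ _)).inter_right
    have hc := sm_sg.continuous
    exact (isClosed_le continuous_const (hc.comp continuous_snd)).inter
      (isClosed_le (hc.comp continuous_snd) continuous_const)
  have hmem : ∀ t ∈ Icc 0 t₀, ∀ y, 0 < sg y → sg y ≤ S → F₀ ≤ F (t, y) → (t, y) ∈ Kc := by
    intro t ht y hy0 hyS hge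
    have h1 : δ' ≤ sg y := by
      by_contra hlt
      push Not at hlt
      exact absurd (hδF t ht y hy0 hyS (hlt.trans_le hδ'δ)) (not_lt.2 hge)
    have h2 : ‖y‖ ≤ R := by
      by_contra hlt
      push Not at hlt
      exact absurd (hRF t ht y h1 hyS hlt.le) (not_lt.2 hge)
    rw [hKc]
    exact ⟨⟨ht, by rw [mem_closedBall, dist_zero_right]; exact h2⟩, h1, hyS⟩
  have hFc : ContinuousOn F Kc := by
    have hsub : ∀ z ∈ Kc, z.1 ∈ Icc 0 t₀ ∧ sg z.2 ∈ Ioc 0 S := by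
      intro z hz
      rw [hKc] at hz
      exact ⟨hz.1.1, hδ'0.trans_le hz.2.1, hz.2.2⟩
    have c1 : ContinuousOn (fun z : ℝ × V => |circ (u z.1) z.2|) Kc :=
      ((circ_cont h).mono fun z hz => ⟨⟨(hsub z hz).1.1, (hsub z hz).1.2.trans_lt ht₀.2⟩,
        trivial⟩).abs
    have c2 : ContinuousOn ex (Icc 0 t₀) := by
      rw [hex, hb]
      exact (((prim_cont hB ht₀).neg).sub (by fun_prop)).rexp
    have c3 : ContinuousOn (fun z : ℝ × V => ex z.1) Kc :=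
      c2.comp continuous_fst.continuousOn fun z hz => (hsub z hz).1
    have c4 : ContinuousOn (fun z : ℝ × V => ψ (sg z.2)) Kc :=
      hψc.comp (sm_sg.continuous.comp continuous_snd).continuousOn fun z hz => (hsub z hz).2
    rw [hF]
    exact (c1.mul c3).div c4 fun z hz => (hψ _ (hsub z hz).2).ne'
  have hmem₀ : (t₀, x₀) ∈ Kc := hmem t₀ ⟨ht00.le, le_rfl⟩ x₀ hx0 hxS hF₀.le
  obtain ⟨⟨t, x⟩, htx, hmx⟩ := hKcc.exists_isMaxOn ⟨_, hmem₀⟩ hFc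
  have hFtx : F₀ ≤ F (t, x) := by
    rw [hF₀]
    exact hmx hmem₀
  have htx' := htx
  rw [hKc] at htx'
  obtain ⟨⟨ht, -⟩, hδx, hxS'⟩ := htx'
  simp only at ht hδx hxS'
  have hx0' : 0 < sg x := hδ'0.trans_le hδx
  have hglob : ∀ t' ∈ Icc 0 t₀, ∀ y, 0 < sg y → sg y ≤ S → F (t', y) ≤ F (t, x) := by
    intro t' ht' y hy0 hyS
    rcases le_or_gt F₀ (F (t', y)) with h1 | h1
    · exact hmx (hmem t' ht' y hy0 hyS h1)
    · exact h1.le.trans hFtx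
  have hψx' : 0 < ψ (sg x) := hψ _ ⟨hx0', hxS'⟩
  have ht0 : 0 < t := by
    rcases eq_or_lt_of_le ht.1 with h1 | h1
    · exfalso
      have h2 : F (t, x) ≤ A := by
        rw [hF, ← h1]
        show |circ (u 0) x| * ex 0 / ψ (sg x) ≤ A
        rw [div_le_iff₀ hψx']
        have h3 := hin x hx0' hxS'
        have h4 : |circ (u 0) x| * ex 0 ≤ |circ (u 0) x| * 1 := by
          have := hex1 0 ⟨le_rfl, ht00.le⟩
          gcongr
        linarith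
      linarith
    · exact h1
  have htT : t ∈ Ioo 0 T := ⟨ht0, ht.2.trans_lt ht₀.2⟩
  have hxlt : sg x < S := by
    rcases eq_or_lt_of_le hxS' with h1 | h1
    · exfalso
      have h2 : F (t, x) ≤ A := by
        rw [hF]
        show |circ (u t) x| * ex t / ψ (sg x) ≤ A
        rw [div_le_iff₀ hψx']
        have h3 := hbd t (Ioo_subset_Ico_self htT) x h1
        rw [← h1] at h3
        have h4 : |circ (u t) x| * ex t ≤ |circ (u t) x| * 1 := by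
          have := hex1 t ht
          gcongr
        linarith
      linarith
    · exact h1
  have hne : circ (u t) x ≠ 0 := by
    intro h1
    have h2 : F (t, x) = 0 := by
      rw [hF]
      show |circ (u t) x| * ex t / ψ (sg x) = 0
      rw [h1]
      simp
    linarith
  have htop : IsTop ψ S (u t) x := by
    intro y hy0 hyS
    have h1 := hglob t ht y hy0 hyS
    have hψy : 0 < ψ (sg y) := hψ _ ⟨hy0, hyS⟩
    rw [hF] at h1
    have h2 : |circ (u t) y| * ex t / ψ (sg y) ≤ |circ (u t) x| * ex t / ψ (sg x) := h1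
    rw [div_le_div_iff₀ hψy hψx'] at h2
    have h3 := hexp t
    by_contra h4
    push Not at h4
    have h5 := mul_lt_mul_of_pos_right h4 h3
    linarith
  obtain ⟨θ, s, d, hs1, hs2, hd, hdle⟩ := top_time hν h hψ hsm hd1 hd2 hmax htT hx0' hxlt hne htop
  have hax := h.axi t (Ioo_subset_Ico_self htT)
  have hsr : sg (rot θ x) = sg x := sg_rot θ x
  have hexd : HasDerivAt ex (ex t * (-B t - ε)) t := by
    have h1 : HasDerivAt (fun τ => -b τ - ε * τ) (-B t - ε) t := by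
      rw [hb]
      have h2 := (prim_hd hB htT).neg
      have h3 : HasDerivAt (fun τ : ℝ => ε * τ) ε t := by
        simpa using (hasDerivAt_id t).const_mul ε
      exact h2.sub h3
    rw [hex]
    exact h1.exp
  have hder := hd.mul hexd
  have hscirc : s * circ (u t) (rot θ x) = |circ (u t) x| := by
    rw [circ_rot hax, hs2]
  have hnn := deriv_nonneg_of_le ht0 hder (fun τ hτ => by
    have hτ' : τ ∈ Icc 0 t₀ := ⟨hτ.1, hτ.2.trans ht.2⟩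
    have h1 := hglob τ hτ' (rot θ x) (by rw [hsr]; exact hx0') (by rw [hsr]; exact hxS')
    rw [hF] at h1
    have h2 : |circ (u τ) (rot θ x)| * ex τ / ψ (sg (rot θ x))
        ≤ |circ (u t) x| * ex t / ψ (sg x) := h1
    rw [hsr, div_le_div_iff_of_pos_right hψx'] at h2
    show s * circ (u τ) (rot θ x) * ex τ ≤ s * circ (u t) (rot θ x) * ex t
    rw [hscirc]
    refine le_trans ?_ h2
    apply mul_le_mul_of_nonneg_right _ (hexp τ).le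
    calc s * circ (u τ) (rot θ x) ≤ |s * circ (u τ) (rot θ x)| := le_abs_self _
      _ = |circ (u τ) (rot θ x)| := by rw [abs_mul, hs1, one_mul])
  rw [hscirc] at hnn
  have hpos : 0 < |circ (u t) x| := abs_pos.2 hne
  have h6 : d * ex t ≤ B t * |circ (u t) x| * ex t :=
    mul_le_mul_of_nonneg_right hdle (hexp t).le
  have h7 : 0 < |circ (u t) x| * ex t * ε := mul_pos (mul_pos hpos (hexp t)) hε
  linarith

end Pool.Agent.TH305.AX
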