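import Pool.Agent.TH305.AX.Cmp2

/-!
Axisymmetric flows (helper305): comparison of the circulation with a time dependent barrier.
-/

set_option autoImplicit false

open MeasureTheory Set Metric Filter Topology
open scoped ContDiff

namespace Pool.Agent.TH305.AX

open H459R3.NS W221.NS Pool.Agent.TH305.DR

variable {ν T : ℝ} {u : ℝ → V → V} {p : ℝ → V → ℝ}

/-- A smooth function of time and space which touches the barrier `Φ` from above at `(t, σ)`. -/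
structure Maj (Φ : ℝ → ℝ → ℝ) (t σ : ℝ) (χ χ₁ : ℝ → ℝ) (c₂ d : ℝ) (ζ : ℝ → ℝ) : Prop where
  smooth : ContDiffAt ℝ 2 χ σ
  hd1 : ∀ᶠ r in 𝓝 σ, HasDerivAt χ (χ₁ r) r
  hd2 : HasDerivAt χ₁ c₂ σ
  le : ∀ᶠ r in 𝓝 σ, Φ t r ≤ χ r
  eq : χ σ = Φ t σ
  tle : ∀ᶠ τ in 𝓝[<] t, Φ τ σ ≤ ζ τ
  teq : ζ t = Φ t σ
  td : HasDerivAt ζ d t

lemma ev_sg {P : ℝ → Prop} {x : V} (h : ∀ᶠ r in 𝓝 (sg x), P r) : ∀ᶠ y in 𝓝 x, P (sg y) :=
  sm_sg.continuous.continuousAt.eventually h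

lemma pd_maj {χ χ₁ : ℝ → ℝ} (c : ℝ) {x : V} (h : HasDerivAt χ (χ₁ (sg x)) (sg x)) (j : Fin 3) :
    pd j (fun y => c * χ (sg y)) x = c * (χ₁ (sg x) * (2 * cj j * x j)) := by
  rw [pd_cmul]
  show c * pd j (fun y => χ (sg y)) x = _
  rw [pd_cmp h]

lemma pd2_maj {χ χ₁ : ℝ → ℝ} {c₂ : ℝ} (c : ℝ) {x : V}
    (h1 : ∀ᶠ r in 𝓝 (sg x), HasDerivAt χ (χ₁ r) r) (h2 : HasDerivAt χ₁ c₂ (sg x)) (j : Fin 3) :
    pd j (pd j (fun y => c * χ (sg y))) x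
      = c * (c₂ * (2 * cj j * x j) ^ 2 + χ₁ (sg x) * (2 * cj j)) := by
  have hev : pd j (fun y => c * χ (sg y)) =ᶠ[𝓝 x] fun y => c * (χ₁ (sg y) * (2 * cj j * y j)) := by
    filter_upwards [ev_sg h1] with y hy
    exact pd_maj c hy j
  rw [Pool.Agent.W349.MF.pd_congr' hev j]
  have hA : HasFDerivAt (fun y => χ₁ (sg y)) _ x := h2.comp_hasFDerivAt x (sg_hd x)
  have hp : HasFDerivAt (fun y : V => y j)
      (ContinuousLinearMap.proj (R := ℝ) (φ := fun _ : Fin 3 => ℝ) j) x :=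
    (ContinuousLinearMap.proj (R := ℝ) (φ := fun _ : Fin 3 => ℝ) j).hasFDerivAt
  have hm : HasFDerivAt (fun y : V => c * (χ₁ (sg y) * (2 * cj j * y j))) _ x :=
    (hA.mul (hp.const_mul (2 * cj j))).const_mul c
  unfold pd
  rw [hm.fderiv]
  have e1 : (ContinuousLinearMap.proj (R := ℝ) (φ := fun _ : Fin 3 => ℝ) j)
      (Pi.single j (1 : ℝ) : V) = 1 := by simp
  have e2 : ((2 * x 0) • (ContinuousLinearMap.proj (R := ℝ) (φ := fun _ : Fin 3 => ℝ) 0)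
        + (2 * x 1) • (ContinuousLinearMap.proj (R := ℝ) (φ := fun _ : Fin 3 => ℝ) 1))
      (Pi.single j (1 : ℝ) : V) = 2 * cj j * x j := by
    have h3 := pd_sg j x
    unfold pd at h3
    rw [(sg_hd x).fderiv] at h3
    exact h3
  simp only [smul_apply, add_apply, smul_eq_mul] at e2 ⊢
  rw [e1, e2]
  ring

lemma lap_maj {χ χ₁ : ℝ → ℝ} {c₂ : ℝ} (c : ℝ) {x : V}
    (h1 : ∀ᶠ r in 𝓝 (sg x), HasDerivAt χ (χ₁ r) r) (h2 : HasDerivAt χ₁ c₂ (sg x)) :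
    lap (fun y => c * χ (sg y)) x = c * (4 * sg x * c₂ + 4 * χ₁ (sg x)) := by
  unfold lap
  rw [Fin.sum_univ_three, pd2_maj c h1 h2, pd2_maj c h1 h2, pd2_maj c h1 h2, cj0, cj1, cj2]
  have : sg x = x 0 ^ 2 + x 1 ^ 2 := rfl
  linear_combination -(4 * c * c₂) * this

/-- The time derivative at a maximum, for a time dependent barrier. -/
lemma top_timeT (hν : 0 < ν) (h : AxSol ν T u p) {S : ℝ} {Φ : ℝ → ℝ → ℝ}
    {t : ℝ} (ht : t ∈ Ioo 0 T) {x : V} (h0 : 0 < sg x) (h1 : sg x < S)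
    (hΦ : 0 < Φ t (sg x)) (hne : circ (u t) x ≠ 0)
    (htop : ∀ y, 0 < sg y → sg y ≤ S → |circ (u t) y| * Φ t (sg x) ≤ |circ (u t) x| * Φ t (sg y))
    {β : ℝ} (hmaj : ∀ x', sg x' = sg x → circ (u t) x' = circ (u t) x →
      ∃ χ χ₁ c₂ d ζ, Maj Φ t (sg x) χ χ₁ c₂ d ζ ∧
        4 * ν * sg x * c₂ - 2 * (x' 0 * u t x' 0 + x' 1 * u t x' 1) * χ₁ (sg x)
          ≤ d + β * Φ t (sg x)) :
    ∃ (θ s d d' : ℝ) (ζ : ℝ → ℝ), |s| = 1 ∧ s * circ (u t) x = |circ (u t) x| ∧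
      HasDerivAt (fun τ => s * circ (u τ) (rot θ x)) d t ∧ HasDerivAt ζ d' t ∧
      ζ t = Φ t (sg x) ∧ (∀ᶠ τ in 𝓝[<] t, Φ τ (sg x) ≤ ζ τ) ∧
      d * Φ t (sg x) ≤ |circ (u t) x| * (d' + β * Φ t (sg x)) := by
  have hax := h.axi t (Ioo_subset_Ico_self ht)
  obtain ⟨s, hs1, hs2⟩ : ∃ s : ℝ, |s| = 1 ∧ s * circ (u t) x = |circ (u t) x| := by
    rcases le_total 0 (circ (u t) x) with h1 | h1
    · exact ⟨1, by simp, by rw [abs_of_nonneg h1, one_mul]⟩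
    · exact ⟨-1, by simp, by rw [abs_of_nonpos h1]; ring⟩
  have hsc : ∀ v : V → V, ∀ x, s * circ v x ≤ |circ v x| := by
    intro v x
    calc s * circ v x ≤ |s * circ v x| := le_abs_self _
      _ = |circ v x| := by rw [abs_mul, hs1, one_mul]
  obtain ⟨c, hc⟩ : ∃ c : ℝ, c = |circ (u t) x| / Φ t (sg x) := ⟨_, rfl⟩
  have hc0 : 0 < c := by rw [hc]; exact div_pos (abs_pos.2 hne) hΦ
  have hcx : c * Φ t (sg x) = |circ (u t) x| := by rw [hc]; field_simp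
  have hrot : ∀ θ, sg (rot θ x) = sg x := fun θ => sg_rot θ x
  have hcr : ∀ θ, circ (u t) (rot θ x) = circ (u t) x := fun θ => circ_rot hax θ x
  have hle : ∀ y, 0 < sg y → sg y ≤ S → |circ (u t) y| ≤ c * Φ t (sg y) := by
    intro y hy0 hyS
    have := htop y hy0 hyS
    rw [hc, div_mul_eq_mul_div, le_div_iff₀ hΦ]
    exact this
  obtain ⟨θ, hθ⟩ := rolle (slicep h ht) x
  obtain ⟨x', hx'⟩ : ∃ x', x' = rot θ x := ⟨_, rfl⟩
  rw [← hx'] at hθ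
  have hsx : sg x' = sg x := by rw [hx', hrot]
  have hcx' : circ (u t) x' = circ (u t) x := by rw [hx', hcr]
  obtain ⟨χ, χ₁, c₂, d', ζ, hM, hineq⟩ := hmaj x' hsx hcx'
  have hW : ContDiffAt ℝ 2 (fun y => c * χ (sg y)) x' := by
    have h2 : ContDiffAt ℝ 2 χ (sg x') := by rw [hsx]; exact hM.smooth
    exact contDiffAt_const.mul (h2.comp _ (sm_sg.contDiffAt.of_le (by norm_cast)))
  have hlm : IsLocalMax (fun y => s * circ (u t) y - c * χ (sg y)) x' := by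
    have h2 : ∀ᶠ y in 𝓝 x', sg y ∈ Ioo 0 S :=
      near_sg (by rw [hsx]; exact h0) (by rw [hsx]; exact h1)
    have h3 : ∀ᶠ y in 𝓝 x', Φ t (sg y) ≤ χ (sg y) :=
      ev_sg (P := fun r => Φ t r ≤ χ r) (by rw [hsx]; exact hM.le)
    filter_upwards [h2, h3] with y hy hy3
    rw [hcx', hsx, hs2, hM.eq, hcx, sub_self]
    have h4 := (hsc (u t) y).trans (hle y hy.1 hy.2.le)
    have h5 := mul_le_mul_of_nonneg_left hy3 hc0.le
    linarith
  have htouch := touch hν (slice0 h (Ioo_subset_Ico_self ht)) hax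
    (d := fun i => deriv (fun τ => u τ x' i) t) (fun i => h.momentum t ht x' i) hθ
    (by rw [hsx]; exact h0) hW hlm
  refine ⟨θ, s, _, d', ζ, hs1, hs2, (circ_hd h ht (rot θ x)).const_mul s, hM.td, hM.teq, hM.tle,
    ?_⟩
  rw [← hx']
  have hd1' : ∀ᶠ r in 𝓝 (sg x'), HasDerivAt χ (χ₁ r) r := by rw [hsx]; exact hM.hd1
  have hd2' : HasDerivAt χ₁ c₂ (sg x') := by rw [hsx]; exact hM.hd2
  have hpd : ∀ j, pd j (fun y => c * χ (sg y)) x' = c * (χ₁ (sg x') * (2 * cj j * x' j)) :=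
    fun j => pd_maj c hd1'.self_of_nhds j
  rw [lap_maj c hd1' hd2'] at htouch
  simp only [hpd, Fin.sum_univ_three, cj0, cj1, cj2] at htouch
  have h0' : 0 < sg x' := by rw [hsx]; exact h0
  have hom : 2 * (x' 0 * (c * (χ₁ (sg x') * (2 * 1 * x' 0)))
      + x' 1 * (c * (χ₁ (sg x') * (2 * 1 * x' 1)))) / sg x' = 4 * c * χ₁ (sg x') := by
    rw [div_eq_iff h0'.ne']
    have : sg x' = x' 0 ^ 2 + x' 1 ^ 2 := rfl
    linear_combination (-(4 * c * χ₁ (sg x'))) * this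
  rw [hom, hsx] at htouch
  have h5 := mul_le_mul_of_nonneg_left hineq hc0.le
  have h6 : s * (x' 0 * deriv (fun s => u s x' 1) t - x' 1 * deriv (fun s => u s x' 0) t)
      ≤ c * (d' + β * Φ t (sg x)) := by linarith
  have h7 := mul_le_mul_of_nonneg_right h6 hΦ.le
  refine h7.trans (le_of_eq ?_)
  rw [← hcx]
  ring

end Pool.Agent.TH305.AX
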