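import Pool.Agent.TH305.AX.Basic

/-!
Axisymmetric flows (helper305): the equation of the circulation at a touching point.
-/

set_option autoImplicit false

open MeasureTheory Set Metric Filter Topology
open scoped ContDiff

namespace Pool.Agent.TH305.AX

open H459R3.NS W221.NS Pool.Agent.TH305.DR

section circ
variable {v : V → V}

lemma pd2_circ (hv : ContDiff ℝ ∞ v) (j : Fin 3) (x : V) : pd j (pd j (circ v)) x =
    x 0 * pd j (pd j fun y => v y 1) x - x 1 * pd j (pd j fun y => v y 0) x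
      + 2 * ((if (0 : Fin 3) = j then 1 else 0) * pd j (fun y => v y 1) x
        - (if (1 : Fin 3) = j then 1 else 0) * pd j (fun y => v y 0) x) := by
  rw [pd_circ hv j]
  obtain ⟨c0, hc0⟩ : ∃ c : ℝ, c = if (0 : Fin 3) = j then 1 else 0 := ⟨_, rfl⟩
  obtain ⟨c1, hc1⟩ : ∃ c : ℝ, c = if (1 : Fin 3) = j then 1 else 0 := ⟨_, rfl⟩
  rw [← hc0, ← hc1]
  have h1 := sm_cmp hv 1
  have h0 := sm_cmp hv 0
  have d1 : ContDiff ℝ ∞ (pd j fun y => v y 1) := Pool.Agent.W583.MD.sm_pd h1 j
  have d0 : ContDiff ℝ ∞ (pd j fun y => v y 0) := Pool.Agent.W583.MD.sm_pd h0 j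
  have k1 : ContDiff ℝ ∞ (fun x : V => x 0 * pd j (fun y => v y 1) x + c0 * v x 1) :=
    ((sm_crd 0).mul d1).add (contDiff_const.mul h1)
  have k0 : ContDiff ℝ ∞ (fun x : V => x 1 * pd j (fun y => v y 0) x + c1 * v x 0) :=
    ((sm_crd 1).mul d0).add (contDiff_const.mul h0)
  rw [pd_sub' k1 k0, pd_add' ((sm_crd 0).mul d1) (contDiff_const.mul h1),
    pd_add' ((sm_crd 1).mul d0) (contDiff_const.mul h0), pd_mulf (sm_crd 0) d1,
    pd_mulf (sm_crd 1) d0, pd_cmul, pd_cmul, pd_crd, pd_crd, ← hc0, ← hc1]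
  ring

lemma lap_circ (hv : ContDiff ℝ ∞ v) (x : V) : lap (circ v) x =
    x 0 * lap (fun y => v y 1) x - x 1 * lap (fun y => v y 0) x
      + 2 * (pd 0 (fun y => v y 1) x - pd 1 (fun y => v y 0) x) := by
  unfold lap
  simp only [pd2_circ hv, Fin.sum_univ_three]
  have e1 : ((0 : Fin 3) = 1) = False := by simp
  have e2 : ((0 : Fin 3) = 2) = False := by simp
  have e3 : ((1 : Fin 3) = 0) = False := by simp
  have e4 : ((1 : Fin 3) = 2) = False := by simp
  simp only [e1, e2, e3, e4, if_true, if_false]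
  ring

lemma adv_circ (hv : ContDiff ℝ ∞ v) (x : V) : ∑ j, v x j * pd j (circ v) x =
    x 0 * ∑ j, v x j * pd j (fun y => v y 1) x - x 1 * ∑ j, v x j * pd j (fun y => v y 0) x := by
  simp only [pd_circ hv, Fin.sum_univ_three]
  have e1 : ((0 : Fin 3) = 1) = False := by simp
  have e2 : ((0 : Fin 3) = 2) = False := by simp
  have e3 : ((1 : Fin 3) = 0) = False := by simp
  have e4 : ((1 : Fin 3) = 2) = False := by simp
  simp only [e1, e2, e3, e4, if_true, if_false]
  ring

lemma rot_hd (x : V) : HasDerivAt (fun θ => rot θ x) ![-x 1, x 0, 0] 0 := by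
  rw [hasDerivAt_pi]
  have hc := Real.hasDerivAt_cos (0 : ℝ)
  have hs := Real.hasDerivAt_sin (0 : ℝ)
  rw [Real.sin_zero, neg_zero] at hc
  rw [Real.cos_zero] at hs
  intro i
  fin_cases i
  · show HasDerivAt (fun θ => Real.cos θ * x 0 - Real.sin θ * x 1) (-x 1) 0
    exact ((hc.mul_const (x 0)).sub (hs.mul_const (x 1))).congr_deriv (by ring)
  · show HasDerivAt (fun θ => Real.sin θ * x 0 + Real.cos θ * x 1) (x 0) 0
    exact ((hs.mul_const (x 0)).add (hc.mul_const (x 1))).congr_deriv (by ring)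
  · show HasDerivAt (fun _ : ℝ => x 2) 0 0
    exact hasDerivAt_const _ _

lemma rot_zero (x : V) : rot 0 x = x := by
  funext i
  fin_cases i <;> simp [rot]

lemma pd_vec (f : V → ℝ) (x w : V) :
    fderiv ℝ f x w = ∑ j, w j * pd j f x := by
  have hw : w = ∑ j : Fin 3, w j • (Pi.single j (1 : ℝ) : V) := by
    funext k
    rw [Finset.sum_apply]
    simp [Pi.single_apply]
  conv_lhs => rw [hw]
  rw [map_sum]
  refine Finset.sum_congr rfl fun j _ => ?_
  rw [map_smul]
  rfl

/-- Angular derivatives of an axisymmetric field. -/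
lemma axi_inf (hv : ContDiff ℝ ∞ v) (ha : Axi v) (x : V) :
    x 0 * pd 1 (fun y => v y 0) x - x 1 * pd 0 (fun y => v y 0) x = -v x 1 ∧
    x 0 * pd 1 (fun y => v y 1) x - x 1 * pd 0 (fun y => v y 1) x = v x 0 := by
  have hgen : ∀ i : Fin 3, HasDerivAt (fun θ => rot θ (v x) i)
      (x 0 * pd 1 (fun y => v y i) x - x 1 * pd 0 (fun y => v y i) x) 0 := by
    intro i
    have h1 : DifferentiableAt ℝ (fun y => v y i) (rot 0 x) :=
      ((sm_cmp hv i).differentiable (by norm_cast)) _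
    have h2 := h1.hasFDerivAt.comp_hasDerivAt (0 : ℝ) (rot_hd x)
    rw [rot_zero, pd_vec] at h2
    have e : ∑ j, (![-x 1, x 0, 0] : V) j * pd j (fun y => v y i) x
        = x 0 * pd 1 (fun y => v y i) x - x 1 * pd 0 (fun y => v y i) x := by
      rw [Fin.sum_univ_three]
      simp
      ring
    rw [e] at h2
    refine h2.congr_of_eventuallyEq (Eventually.of_forall fun θ => ?_)
    show rot θ (v x) i = v (rot θ x) i
    rw [ha]
  have h3 := hasDerivAt_pi.1 (rot_hd (v x))
  exact ⟨(hgen 0).unique (h3 0), (hgen 1).unique (h3 1)⟩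

lemma circ_rot (ha : Axi v) (θ : ℝ) (x : V) : circ v (rot θ x) = circ v x := by
  unfold circ
  rw [ha]
  have h := Real.sin_sq_add_cos_sq θ
  show (Real.cos θ * x 0 - Real.sin θ * x 1) * (Real.sin θ * v x 0 + Real.cos θ * v x 1)
    - (Real.sin θ * x 0 + Real.cos θ * x 1) * (Real.cos θ * v x 0 - Real.sin θ * v x 1) = _
  linear_combination (x 0 * v x 1 - x 1 * v x 0) * h

lemma sg_rot (θ : ℝ) (x : V) : sg (rot θ x) = sg x := by
  unfold sg
  have h := Real.sin_sq_add_cos_sq θ
  show (Real.cos θ * x 0 - Real.sin θ * x 1) ^ 2 + (Real.sin θ * x 0 + Real.cos θ * x 1) ^ 2 = _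
  linear_combination (x 0 ^ 2 + x 1 ^ 2) * h

/-- The vorticity and the radial derivative of the circulation. -/
lemma om_circ (hv : ContDiff ℝ ∞ v) (ha : Axi v) (x : V) :
    sg x * (pd 0 (fun y => v y 1) x - pd 1 (fun y => v y 0) x)
      = x 0 * pd 0 (circ v) x + x 1 * pd 1 (circ v) x := by
  obtain ⟨h0, h1⟩ := axi_inf hv ha x
  simp only [pd_circ hv]
  have e3 : ((1 : Fin 3) = 0) = False := by simp
  have e1 : ((0 : Fin 3) = 1) = False := by simp
  simp only [e1, e3, if_true, if_false]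
  unfold sg
  linear_combination (-x 0) * h0 + (-x 1) * h1

end circ

/-- Second derivatives of a difference. -/
lemma pd2_sub_at {f W : V → ℝ} {x : V} (hf : ContDiff ℝ ∞ f) (hW : ContDiffAt ℝ 2 W x)
    (j : Fin 3) : pd j (fun y => f y - W y) x = pd j f x - pd j W x ∧
      pd j (pd j fun y => f y - W y) x = pd j (pd j f) x - pd j (pd j W) x := by
  have h1 : ∀ᶠ y in 𝓝 x, ContDiffAt ℝ 2 W y := hW.eventually (by simp)
  have hev : pd j (fun y => f y - W y) =ᶠ[𝓝 x] fun y => pd j f y - pd j W y := by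
    filter_upwards [h1] with y hy
    unfold pd
    have hfy : DifferentiableAt ℝ f y := (hf.differentiable (by norm_cast)) y
    have hWy : DifferentiableAt ℝ W y := hy.differentiableAt (by norm_num)
    have : HasFDerivAt (fun y => f y - W y) _ y := hfy.hasFDerivAt.sub hWy.hasFDerivAt
    rw [this.fderiv]
    rfl
  refine ⟨hev.eq_of_nhds, ?_⟩
  rw [Pool.Agent.W349.MF.pd_congr' hev j]
  have hpW : DifferentiableAt ℝ (pd j W) x := by
    have h1 : ContDiffAt ℝ 1 (fderiv ℝ W) x := hW.fderiv_right (by norm_num)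
    exact (h1.clm_apply contDiffAt_const).differentiableAt (by norm_num)
  have hpf : DifferentiableAt ℝ (pd j f) x :=
    ((Pool.Agent.W583.MD.sm_pd hf j).differentiable (by norm_cast)) x
  have : HasFDerivAt (fun y => pd j f y - pd j W y) _ x := hpf.hasFDerivAt.sub hpW.hasFDerivAt
  conv_lhs => unfold pd
  have e : (fun y => pd j f y - pd j W y) = fun y => fderiv ℝ f y (Pi.single j 1)
      - fderiv ℝ W y (Pi.single j 1) := rfl
  rw [← e, this.fderiv]
  rfl

/-- The equation of the circulation at a touching point. -/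
theorem touch {ν : ℝ} (hν : 0 < ν) {v : V → V} (hv : ContDiff ℝ ∞ v) (ha : Axi v) {P : V → ℝ}
    {x : V} {d : Fin 3 → ℝ}
    (hmom : ∀ i, d i + ∑ j, v x j * pd j (fun y => v y i) x
      = ν * ∑ j, pd j (pd j (fun y => v y i)) x - pd i P x)
    (hq : x 0 * pd 1 P x - x 1 * pd 0 P x = 0) {s : ℝ} {W : V → ℝ} (hσ : 0 < sg x)
    (hW : ContDiffAt ℝ 2 W x) (hmax : IsLocalMax (fun y => s * circ v y - W y) x) :
    s * (x 0 * d 1 - x 1 * d 0) ≤ ν * (lap W x - 2 * (x 0 * pd 0 W x + x 1 * pd 1 W x) / sg x)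
      - ∑ j, v x j * pd j W x := by
  have hc := sm_circ hv
  have hsc : ContDiff ℝ ∞ (fun y => s * circ v y) := contDiff_const.mul hc
  have hf : ContDiffAt ℝ 2 (fun y => s * circ v y - W y) x :=
    (hsc.contDiffAt.of_le (by norm_cast)).sub hW
  have hpd : ∀ j, s * pd j (circ v) x = pd j W x := by
    intro j
    have h1 := (max_pd hf hmax j).1
    rw [(pd2_sub_at hsc hW j).1, pd_cmul] at h1
    linarith
  have hpd2 : ∀ j, s * pd j (pd j (circ v)) x ≤ pd j (pd j W) x := by
    intro j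
    have h1 := (max_pd hf hmax j).2
    rw [(pd2_sub_at hsc hW j).2, pd_cmul, pd_cmul] at h1
    linarith
  have hlap : s * lap (circ v) x ≤ lap W x := by
    unfold lap
    rw [Finset.mul_sum]
    exact Finset.sum_le_sum fun j _ => hpd2 j
  have hadv : s * ∑ j, v x j * pd j (circ v) x = ∑ j, v x j * pd j W x := by
    rw [Finset.mul_sum]
    refine Finset.sum_congr rfl fun j _ => ?_
    rw [← hpd j]
    ring
  have hom : s * (pd 0 (fun y => v y 1) x - pd 1 (fun y => v y 0) x)
      = (x 0 * pd 0 W x + x 1 * pd 1 W x) / sg x := by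
    rw [eq_div_iff hσ.ne', ← hpd 0, ← hpd 1]
    have := om_circ hv ha x
    linear_combination s * this
  have m0 := hmom 0
  have m1 := hmom 1
  have hl := lap_circ hv x
  have had := adv_circ hv x
  have hl0 : ∑ j, pd j (pd j (fun y => v y 0)) x = lap (fun y => v y 0) x := rfl
  have hl1 : ∑ j, pd j (pd j (fun y => v y 1)) x = lap (fun y => v y 1) x := rfl
  rw [hl0] at m0
  rw [hl1] at m1
  have key : x 0 * d 1 - x 1 * d 0 = ν * (lap (circ v) x
      - 2 * (pd 0 (fun y => v y 1) x - pd 1 (fun y => v y 0) x))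
      - ∑ j, v x j * pd j (circ v) x := by
    rw [hl, had]
    linear_combination x 0 * m1 - x 1 * m0 - hq
  have e : s * (x 0 * d 1 - x 1 * d 0) = ν * (s * lap (circ v) x
      - 2 * (s * (pd 0 (fun y => v y 1) x - pd 1 (fun y => v y 0) x)))
      - s * ∑ j, v x j * pd j (circ v) x := by
    rw [key]
    ring
  rw [e, hom, hadv]
  have h1 : ν * (s * lap (circ v) x) ≤ ν * lap W x := mul_le_mul_of_nonneg_left hlap hν.le
  have h2 : 2 * (x 0 * pd 0 W x + x 1 * pd 1 W x) / sg x
      = 2 * ((x 0 * pd 0 W x + x 1 * pd 1 W x) / sg x) := by ring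
  rw [h2]
  linarith

end Pool.Agent.TH305.AX
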