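import Pool.Agent.TH305.AX.Ring
import Pool.Agent.TH305.AX.Touch

/-!
Axisymmetric flows (helper305): pointwise bounds of all derivatives at a given time.
-/

set_option autoImplicit false

open MeasureTheory Set Metric Filter Topology
open scoped ContDiff ENNReal

namespace Pool.Agent.TH305.AX

open H459R3.NS W221.NS Pool.Agent.TH305.DR
open Pool.Agent.W583.MD (sm_pd)

lemma fd_norm (f : V → ℝ) (x : V) : ‖fderiv ℝ f x‖ ≤ ∑ j, |pd j f x| := by
  apply ContinuousLinearMap.opNorm_le_bound _ (Finset.sum_nonneg fun j _ => abs_nonneg _)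
  intro h
  have e : h = ∑ j, h j • (Pi.single j 1 : V) := by
    funext a
    rw [Finset.sum_apply]
    simp [Pi.single_apply]
  have e2 : fderiv ℝ f x h = ∑ j, h j * pd j f x := by
    conv_lhs => rw [e]
    rw [map_sum]
    exact Finset.sum_congr rfl fun j _ => by rw [map_smul, smul_eq_mul]; rfl
  rw [e2, Finset.sum_mul, Real.norm_eq_abs]
  refine (Finset.abs_sum_le_sum_abs _ _).trans (Finset.sum_le_sum fun j _ => ?_)
  rw [abs_mul, mul_comm]
  have := norm_le_pi_norm h j
  rw [Real.norm_eq_abs] at this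
  exact mul_le_mul_of_nonneg_left this (abs_nonneg _)

lemma osol_slice {ν T E : ℝ} {u : ℝ → V → V} {p : ℝ → V → ℝ} (h : OSol ν T E univ u p) {s : ℝ}
    (hs : s ∈ Ioo 0 T) : ContDiff ℝ ∞ (u s) := by
  rw [contDiff_iff_contDiffAt]
  intro x
  have h1 : ContDiffAt ℝ ∞ (fun z : ℝ × V => u z.1 z.2) (s, x) :=
    h.smooth_u.contDiffAt (prod_mem_nhds (Ioo_mem_nhds hs.1 hs.2) univ_mem)
  exact h1.comp x (contDiffAt_const.prodMk contDiffAt_id)

lemma SS_nonneg' (n : ℕ) (f : V → ℝ) (x : V) : 0 ≤ SS n f x := SS_nonneg n f x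

/-- The energy in the ball of the local estimate. -/
lemma A2_ring {v : V → V} (hv : ContDiff ℝ ∞ v) (ha : Axi v) {E : ℝ}
    (hint : IntegrableOn (nsq v) univ) (hen : ∫ x in univ, nsq v x ≤ E ^ 2) {x y : V}
    {r θ : ℝ} (hr : 0 < r) (hy : rot θ x ∈ ball y (r / 16)) :
    A2 y (5 * r) v ≤ 48 * r * E ^ 2 / (√(sg x) + r) := by
  have hint' : Integrable (nsq v) := by rwa [integrableOn_univ] at hint
  have h0 : ∀ z, 0 ≤ nsq v z := fun z => Finset.sum_nonneg fun i _ => sq_nonneg _
  have h1 : ∫⁻ y, ENNReal.ofReal (nsq v y) ≤ ENNReal.ofReal (E ^ 2) := by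
    rw [← ofReal_integral_eq_lintegral_ofReal hint' (Eventually.of_forall h0)]
    rw [setIntegral_univ] at hen
    exact ENNReal.ofReal_le_ofReal hen
  have h2 := ring_en hv.continuous ha (by positivity) h1 (x := rot θ x) hr
  rw [sg_rot] at h2
  have hsub : ball y (5 * r) ⊆ ball (rot θ x) (6 * r) := by
    apply ball_subset_ball'
    rw [mem_ball, dist_comm] at hy
    linarith
  have h3 : ENNReal.ofReal (A2 y (5 * r) v) ≤ ENNReal.ofReal (48 * r * E ^ 2 / (√(sg x) + r)) := by
    unfold A2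
    rw [ofReal_integral_eq_lintegral_ofReal hint'.integrableOn (Eventually.of_forall h0)]
    exact (lintegral_mono_set hsub).trans h2
  rwa [ENNReal.ofReal_le_ofReal_iff (by positivity)] at h3

/-- All bounds at a point of which the circle meets the good set. -/
lemma from_bds {K : ℕ → ℝ} (hK : ∀ n, 0 < K n) {ν r E : ℝ} (hr : 0 < r)
    {v : V → V} (hv : ContDiff ℝ ∞ v) (ha : Axi v)
    (hint : IntegrableOn (nsq v) univ) (hen : ∫ x in univ, nsq v x ≤ E ^ 2) {x y : V}
    {θ : ℝ} (hy : rot θ x ∈ ball y (r / 16)) (h : Bds K ν r v y) :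
    (∀ n, r ^ (2 * n + 4) * DR.ST n v x ≤ K n * ν ^ 2) ∧
    (∀ n, r ^ (2 * n + 4) * SV (n + 1) v x ≤ K n * (ν ^ 2 + 48 * (E ^ 2 / (√(sg x) + r)))) ∧
    r ^ 2 * SV 0 v x ≤ (1024 + K 0) * (ν ^ 2 + 48 * (E ^ 2 / (√(sg x) + r))) := by
  have hρ : 0 ≤ √(sg x) := Real.sqrt_nonneg _
  obtain ⟨G, hG⟩ : ∃ G : ℝ, G = ν ^ 2 + 48 * (E ^ 2 / (√(sg x) + r)) := ⟨_, rfl⟩
  have hA := A2_ring hv ha hint hen hr hy
  have hA' : r⁻¹ * A2 y (5 * r) v ≤ 48 * (E ^ 2 / (√(sg x) + r)) := by
    calc r⁻¹ * A2 y (5 * r) v ≤ r⁻¹ * (48 * r * E ^ 2 / (√(sg x) + r)) := by gcongr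
      _ = 48 * (E ^ 2 / (√(sg x) + r)) := by field_simp
  have hsv : ∀ x' ∈ ball y (r / 16), ∀ n, r ^ (2 * n + 4) * SV (n + 1) v x' ≤ K n * G := by
    intro x' hx' n
    refine (h x' hx' n).2.trans ?_
    rw [hG]
    have := hK n
    gcongr
  refine ⟨fun n => ?_, fun n => ?_, ?_⟩
  · rw [← ST_rot hv ha θ]
    exact (h _ hy n).1
  · rw [← SV_rot hv ha θ, ← hG]
    exact hsv _ hy n
  · rw [← SV_rot hv ha θ, ← hG]
    have h0 : ∀ z, 0 ≤ nsq v z := fun z => Finset.sum_nonneg fun i _ => sq_nonneg _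
    have hint' : Integrable (nsq v) := by rwa [integrableOn_univ] at hint
    have hvol : volume (ball y (r / 16)) = ENNReal.ofReal ((r / 8) ^ 3) := by
      rw [Real.volume_pi_ball _ (by positivity)]
      congr 1
      simp
      ring
    have hvr : volume.real (ball y (r / 16)) = (r / 8) ^ 3 := by
      rw [measureReal_def, hvol, ENNReal.toReal_ofReal (by positivity)]
    obtain ⟨z, hz, hzle⟩ := exists_le_setAverage (μ := (volume : Measure V))
      (s := ball y (r / 16)) (f := nsq v)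
      (by rw [hvol]; simpa using (show 0 < (r / 8) ^ 3 by positivity))
      (by rw [hvol]; exact ENNReal.ofReal_ne_top) hint'.integrableOn
    rw [setAverage_eq, hvr, smul_eq_mul] at hzle
    have hz1 : r ^ 2 * nsq v z ≤ 512 * G := by
      have h1 : ∫ a in ball y (r / 16), nsq v a ≤ A2 y (5 * r) v := by
        unfold A2
        apply setIntegral_mono_set hint'.integrableOn (Eventually.of_forall h0)
        exact (ball_subset_ball (by linarith)).eventuallyLE
      have h2 : nsq v z ≤ ((r / 8) ^ 3)⁻¹ * A2 y (5 * r) v :=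
        hzle.trans (mul_le_mul_of_nonneg_left h1 (by positivity))
      calc r ^ 2 * nsq v z ≤ r ^ 2 * (((r / 8) ^ 3)⁻¹ * A2 y (5 * r) v) := by gcongr
        _ = 512 * (r⁻¹ * A2 y (5 * r) v) := by field_simp; ring
        _ ≤ 512 * G := by
          rw [hG]
          nlinarith [sq_nonneg ν]
    have hG0 : 0 ≤ G := by rw [hG]; positivity
    -- the mean value inequality
    have hcomp : ∀ i : Fin 3, (r * v (rot θ x) i) ^ 2 ≤ 2 * (r * v z i) ^ 2 + K 0 * G / 3 := by
      intro i
      have hvi : ContDiff ℝ ∞ (fun w => v w i) := contDiff_pi.1 hv i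
      obtain ⟨q, hq⟩ : ∃ q : ℝ, q = √(K 0 * G) := ⟨_, rfl⟩
      have hq0 : 0 ≤ q := by rw [hq]; positivity
      have hq2 : q ^ 2 = K 0 * G := by
        rw [hq, Real.sq_sqrt (mul_nonneg (hK 0).le hG0)]
      have hb : ∀ w ∈ ball y (r / 16), ‖fderiv ℝ (fun w => v w i) w‖ ≤ 3 * (q / r ^ 2) := by
        intro w hw
        refine (fd_norm _ w).trans ?_
        have hj : ∀ j ∈ Finset.univ, |pd j (fun w => v w i) w| ≤ q / r ^ 2 := by
          intro j _
          rw [le_div_iff₀ (by positivity)]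
          apply abs_le_of_sq_le_sq' _ hq0 |>.2
          have h1 := hsv w hw 0
          have h2 : pd j (fun w => v w i) w ^ 2 ≤ SV (0 + 1) v w := by
            refine le_trans ?_ (Finset.single_le_sum (f := fun i => SS 1 (fun y => v y i) w)
              (fun q _ => SS_nonneg _ _ _) (Finset.mem_univ i))
            rw [SS_one]
            exact Finset.single_le_sum (f := fun j => pd j (fun y => v y i) w ^ 2)
              (fun q _ => sq_nonneg _) (Finset.mem_univ j)
          calc (|pd j (fun w => v w i) w| * r ^ 2) ^ 2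
              = r ^ (2 * 0 + 4) * pd j (fun w => v w i) w ^ 2 := by rw [mul_pow, sq_abs]; ring
            _ ≤ r ^ (2 * 0 + 4) * SV (0 + 1) v w := by gcongr
            _ ≤ K 0 * G := h1
            _ = q ^ 2 := hq2.symm
        refine (Finset.sum_le_sum hj).trans (le_of_eq ?_)
        rw [Finset.sum_const, Finset.card_univ, Fintype.card_fin, nsmul_eq_mul]
        norm_num
      have h1 := (convex_ball y (r / 16)).norm_image_sub_le_of_norm_fderiv_le
        (fun w _ => (hvi.differentiable (by norm_cast)) w) hb hz hy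
      have h2 : ‖rot θ x - z‖ ≤ r / 8 := by
        rw [← dist_eq_norm]
        have a1 := mem_ball.1 hy
        have a2 := mem_ball.1 hz
        have := dist_triangle_right (rot θ x) z y
        linarith
      have h3 : |v (rot θ x) i - v z i| ≤ 3 * (q / r ^ 2) * (r / 8) := by
        rw [Real.norm_eq_abs] at h1
        exact h1.trans (mul_le_mul_of_nonneg_left h2 (by positivity))
      have h4 : |r * v (rot θ x) i - r * v z i| ≤ 3 / 8 * q := by
        rw [← mul_sub, abs_mul, abs_of_pos hr]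
        calc r * |v (rot θ x) i - v z i| ≤ r * (3 * (q / r ^ 2) * (r / 8)) := by gcongr
          _ = 3 / 8 * q := by field_simp
      have h5 : (r * v (rot θ x) i - r * v z i) ^ 2 ≤ (3 / 8 * q) ^ 2 := by
        rw [← sq_abs]
        gcongr
      nlinarith [sq_nonneg (r * v (rot θ x) i - 2 * (r * v z i))]
    have hs := Finset.sum_le_sum fun i (_ : i ∈ (Finset.univ : Finset (Fin 3))) => hcomp i
    have e1 : r ^ 2 * SV 0 v (rot θ x) = ∑ i, (r * v (rot θ x) i) ^ 2 := by
      unfold SV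
      rw [Finset.mul_sum]
      exact Finset.sum_congr rfl fun i _ => by rw [SS_zero]; ring
    have e2 : ∑ i, (2 * (r * v z i) ^ 2 + K 0 * G / 3) = 2 * (r ^ 2 * nsq v z) + K 0 * G := by
      unfold nsq
      rw [Finset.sum_add_distrib, Finset.mul_sum, Finset.mul_sum, Finset.sum_const,
        Finset.card_univ, Fintype.card_fin, nsmul_eq_mul]
      congr 1
      · exact Finset.sum_congr rfl fun i _ => by ring
      · push_cast
        ring
    rw [e1]
    refine hs.trans ?_
    rw [e2]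
    nlinarith

end Pool.Agent.TH305.AX
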