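import Pool.Agent.TH305.AX.Sol

/-!
Axisymmetric flows (helper305): the maximum principle for the circulation.
-/

set_option autoImplicit false

open MeasureTheory Set Metric Filter Topology
open scoped ContDiff

namespace Pool.Agent.TH305.AX

open H459R3.NS W221.NS Pool.Agent.TH305.DR

variable {ν T : ℝ} {u : ℝ → V → V} {p : ℝ → V → ℝ}

/-- The equation of the circulation at some point of a circle of touching points. -/
lemma touch_t (hν : 0 < ν) (h : AxSol ν T u p) {t : ℝ} (ht : t ∈ Ioo 0 T) {x : V}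
    (hσ : 0 < sg x) {s : ℝ} {W : V → ℝ} (hW : ∀ θ, ContDiffAt ℝ 2 W (rot θ x))
    (hmax : ∀ θ, IsLocalMax (fun y => s * circ (u t) y - W y) (rot θ x)) :
    ∃ θ, s * ((rot θ x) 0 * deriv (fun τ => u τ (rot θ x) 1) t
        - (rot θ x) 1 * deriv (fun τ => u τ (rot θ x) 0) t)
      ≤ ν * (lap W (rot θ x) - 2 * ((rot θ x) 0 * pd 0 W (rot θ x)
        + (rot θ x) 1 * pd 1 W (rot θ x)) / sg (rot θ x))
        - ∑ j, u t (rot θ x) j * pd j W (rot θ x) := by
  obtain ⟨θ, hθ⟩ := rolle (slicep h ht) x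
  exact ⟨θ, touch hν (slice0 h (Ioo_subset_Ico_self ht)) (h.axi t (Ioo_subset_Ico_self ht))
    (d := fun i => deriv (fun τ => u τ (rot θ x) i) t) (fun i => h.momentum t ht (rot θ x) i) hθ
    (by rw [sg_rot]; exact hσ) (hW θ) (hmax θ)⟩

/-- `1 + |x|²` (Euclidean). -/
def PP (x : V) : ℝ := 1 + (x 0 ^ 2 + x 1 ^ 2 + x 2 ^ 2)

lemma PP_rot (θ : ℝ) (x : V) : PP (rot θ x) = PP x := by
  unfold PP
  have h := Real.sin_sq_add_cos_sq θ
  show 1 + ((Real.cos θ * x 0 - Real.sin θ * x 1) ^ 2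
    + (Real.sin θ * x 0 + Real.cos θ * x 1) ^ 2 + x 2 ^ 2) = _
  linear_combination (x 0 ^ 2 + x 1 ^ 2) * h

lemma PP_one (x : V) : 1 ≤ PP x := by
  unfold PP
  have : 0 ≤ x 0 ^ 2 + x 1 ^ 2 + x 2 ^ 2 := by positivity
  linarith

lemma PP_norm (x : V) : ‖x‖ ^ 2 ≤ PP x := by
  have h : ‖x‖ ≤ √(PP x) := by
    rw [pi_norm_le_iff_of_nonneg (Real.sqrt_nonneg _)]
    intro i
    rw [Real.norm_eq_abs, ← Real.sqrt_sq_eq_abs]
    apply Real.sqrt_le_sqrt
    unfold PP
    fin_cases i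
    · show x 0 ^ 2 ≤ _
      nlinarith [sq_nonneg (x 1), sq_nonneg (x 2)]
    · show x 1 ^ 2 ≤ _
      nlinarith [sq_nonneg (x 0), sq_nonneg (x 2)]
    · show x 2 ^ 2 ≤ _
      nlinarith [sq_nonneg (x 0), sq_nonneg (x 1)]
  calc ‖x‖ ^ 2 ≤ √(PP x) ^ 2 := by gcongr
    _ = PP x := Real.sq_sqrt (by linarith [PP_one x])

lemma sm_PP : ContDiff ℝ ∞ PP := by
  unfold PP
  fun_prop

lemma pd_PP (j : Fin 3) : pd j PP = fun x => 2 * x j := by
  funext x
  have hd : HasFDerivAt PP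
      ((2 * x 0) • (ContinuousLinearMap.proj (R := ℝ) (φ := fun _ : Fin 3 => ℝ) 0)
        + (2 * x 1) • (ContinuousLinearMap.proj (R := ℝ) (φ := fun _ : Fin 3 => ℝ) 1)
        + (2 * x 2) • (ContinuousLinearMap.proj (R := ℝ) (φ := fun _ : Fin 3 => ℝ) 2)) x := by
    have hp : ∀ i : Fin 3, HasFDerivAt (fun y : V => y i)
        (ContinuousLinearMap.proj (R := ℝ) (φ := fun _ : Fin 3 => ℝ) i) x := fun i =>
      (ContinuousLinearMap.proj (R := ℝ) (φ := fun _ : Fin 3 => ℝ) i).hasFDerivAt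
    have h1 := ((((hp 0).pow 2).add ((hp 1).pow 2)).add ((hp 2).pow 2)).const_add 1
    refine h1.congr_fderiv ?_
    simp
  unfold pd
  rw [hd.fderiv]
  fin_cases j <;> simp [Pi.single_apply]

lemma lap_PP (x : V) : lap PP x = 6 := by
  unfold lap
  simp only [pd_PP]
  have : ∀ j : Fin 3, pd j (fun x : V => 2 * x j) x = 2 := by
    intro j
    rw [pd_cmul, pd_crd]
    simp
  simp only [this]
  norm_num

/-- The maximum principle for the circulation. -/
theorem circ_max (hν : 0 < ν) (h : AxSol ν T u p) {M : ℝ} (hM : ∀ x, |circ (u 0) x| ≤ M) :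
    ∀ t ∈ Ico 0 T, ∀ x, |circ (u t) x| ≤ M := by
  intro t₀ ht₀ x₀
  by_contra hcon
  push Not at hcon
  have hM0 : 0 ≤ M := (abs_nonneg _).trans (hM 0)
  have ht00 : 0 < t₀ := by
    rcases eq_or_lt_of_le ht₀.1 with h1 | h1
    · rw [← h1] at hcon
      exact absurd (hM x₀) (not_le.2 hcon)
    · exact h1
  obtain ⟨U, hU0, hU⟩ := u_bdd h ht₀.2
  obtain ⟨s, hs1, hs2⟩ : ∃ s : ℝ, |s| = 1 ∧ M < s * circ (u t₀) x₀ := by
    rcases le_total 0 (circ (u t₀) x₀) with h1 | h1
    · exact ⟨1, by simp, by rwa [abs_of_nonneg h1, ← one_mul (circ (u t₀) x₀)] at hcon⟩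
    · exact ⟨-1, by simp, by rw [abs_of_nonpos h1] at hcon; linarith⟩
  obtain ⟨K, hK⟩ : ∃ K : ℝ, K = 2 * ν + 6 * U + 1 := ⟨_, rfl⟩
  have hK0 : 0 < K := by rw [hK]; positivity
  obtain ⟨ε, hε, hε2⟩ : ∃ ε : ℝ, 0 < ε ∧
      0 < s * circ (u t₀) x₀ - M - ε * (Real.exp (K * t₀) * PP x₀) := by
    have hP : 0 < Real.exp (K * t₀) * PP x₀ :=
      mul_pos (Real.exp_pos _) (by linarith [PP_one x₀])
    obtain ⟨Z, hZ⟩ : ∃ Z : ℝ, Z = Real.exp (K * t₀) * PP x₀ := ⟨_, rfl⟩
    rw [← hZ] at hP ⊢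
    refine ⟨(s * circ (u t₀) x₀ - M) / (2 * Z), by
      apply div_pos (by linarith) (by positivity), ?_⟩
    have : (s * circ (u t₀) x₀ - M) / (2 * Z) * Z = (s * circ (u t₀) x₀ - M) / 2 := by
      field_simp
    rw [this]
    linarith
  obtain ⟨F, hF⟩ : ∃ F : ℝ × V → ℝ, F = fun z => s * circ (u z.1) z.2 - M
      - ε * (Real.exp (K * z.1) * PP z.2) := ⟨_, rfl⟩
  have hsc : ∀ v : V → V, ∀ x, s * circ v x ≤ |circ v x| := by
    intro v x
    calc s * circ v x ≤ |s * circ v x| := le_abs_self _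
      _ = |circ v x| := by rw [abs_mul, hs1, one_mul]
  -- outside a ball F is negative
  obtain ⟨R, hR⟩ : ∃ R : ℝ, R = 4 * U / ε + ‖x₀‖ + 1 := ⟨_, rfl⟩
  have hR0 : 4 * U / ε < R := by
    have := norm_nonneg x₀
    linarith
  have hout : ∀ t ∈ Icc 0 t₀, ∀ x, R < ‖x‖ → F (t, x) < 0 := by
    intro t ht x hx
    rw [hF]
    show s * circ (u t) x - M - ε * (Real.exp (K * t) * PP x) < 0
    have h1 := (hsc (u t) x).trans (circ_le (u t) x)
    have hsx : √(sg x) ≤ 2 * ‖x‖ := by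
      apply Real.sqrt_le_iff.2
      refine ⟨by positivity, ?_⟩
      have a0 : |x 0| ≤ ‖x‖ := norm_le_pi_norm x 0
      have a1 : |x 1| ≤ ‖x‖ := norm_le_pi_norm x 1
      unfold sg
      nlinarith [abs_nonneg (x 0), abs_nonneg (x 1), sq_abs (x 0), sq_abs (x 1)]
    have h2 : s * circ (u t) x ≤ 4 * ‖x‖ * U := by
      calc s * circ (u t) x ≤ 2 * √(sg x) * ‖u t x‖ := h1
        _ ≤ 2 * (2 * ‖x‖) * U := by
          have := hU t ht x
          gcongr
        _ = _ := by ring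
    have h3 : 4 * U < ε * ‖x‖ := by
      have := hR0.trans hx
      rw [div_lt_iff₀ hε] at this
      linarith
    have h4 : 0 < ‖x‖ := by
      have : 0 ≤ 4 * U / ε := by positivity
      linarith
    have h5 : ε * ‖x‖ ^ 2 ≤ ε * (Real.exp (K * t) * PP x) := by
      apply mul_le_mul_of_nonneg_left _ hε.le
      have h6 := PP_norm x
      have h7 : 1 ≤ Real.exp (K * t) := Real.one_le_exp (mul_nonneg hK0.le ht.1)
      have h8 : 0 < PP x := by linarith [PP_one x]
      nlinarith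
    have h9 : 4 * ‖x‖ * U < ε * ‖x‖ ^ 2 := by nlinarith
    linarith
  have hFc : ContinuousOn F (Icc 0 t₀ ×ˢ closedBall (0 : V) R) := by
    have h1 : ContinuousOn (fun z : ℝ × V => circ (u z.1) z.2)
        (Icc 0 t₀ ×ˢ closedBall (0 : V) R) :=
      (circ_cont h).mono fun z hz => ⟨⟨hz.1.1, hz.1.2.trans_lt ht₀.2⟩, trivial⟩
    have h2 : Continuous fun z : ℝ × V => ε * (Real.exp (K * z.1) * PP z.2) := by
      have := sm_PP.continuous
      fun_prop
    rw [hF]
    exact ((continuousOn_const.mul h1).sub continuousOn_const).sub h2.continuousOn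
  have hRn : 0 ≤ R := by rw [hR]; positivity
  obtain ⟨⟨t, x⟩, ⟨ht, hx⟩, hmx⟩ := (isCompact_Icc.prod
    (isCompact_closedBall (0 : V) R)).exists_isMaxOn (s := Icc 0 t₀ ×ˢ closedBall (0 : V) R)
    ⟨(t₀, x₀), ⟨ht00.le, le_rfl⟩, by
      rw [mem_closedBall, dist_zero_right, hR]
      have : 0 ≤ 4 * U / ε := by positivity
      linarith⟩ hFc
  simp only at ht hx
  have hF0 : 0 < F (t, x) := by
    refine lt_of_lt_of_le ?_ (hmx (show (t₀, x₀) ∈ Icc 0 t₀ ×ˢ closedBall (0 : V) R from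
      ⟨⟨ht00.le, le_rfl⟩, by
        rw [mem_closedBall, dist_zero_right, hR]
        have : 0 ≤ 4 * U / ε := by positivity
        linarith⟩))
    rw [hF]
    exact hε2
  have hglob : ∀ t' ∈ Icc 0 t₀, ∀ y, F (t', y) ≤ F (t, x) := by
    intro t' ht' y
    rcases le_or_gt ‖y‖ R with hy | hy
    · exact hmx (show (t', y) ∈ Icc 0 t₀ ×ˢ closedBall (0 : V) R from
        ⟨ht', by rw [mem_closedBall, dist_zero_right]; exact hy⟩)
    · exact (hout t' ht' y hy).le.trans hF0.le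
  have hPpos : ∀ y, 0 < PP y := fun y => by linarith [PP_one y]
  have ht0 : 0 < t := by
    rcases eq_or_lt_of_le ht.1 with h1 | h1
    · exfalso
      rw [hF, ← h1] at hF0
      have h2 : 0 < s * circ (u 0) x - M - ε * (Real.exp (K * 0) * PP x) := hF0
      have h3 := (hsc (u 0) x).trans (hM x)
      have h4 : 0 < ε * (Real.exp (K * 0) * PP x) :=
        mul_pos hε (mul_pos (Real.exp_pos _) (hPpos x))
      linarith
    · exact h1
  have htT : t ∈ Ioo 0 T := ⟨ht0, ht.2.trans_lt ht₀.2⟩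
  have hσ : 0 < sg x := by
    rcases eq_or_lt_of_le (sg_nonneg x) with h1 | h1
    · exfalso
      have h2 := (hsc (u t) x).trans (circ_le (u t) x)
      rw [← h1, Real.sqrt_zero] at h2
      rw [hF] at hF0
      have h3 : 0 < s * circ (u t) x - M - ε * (Real.exp (K * t) * PP x) := hF0
      have h4 : 0 < ε * (Real.exp (K * t) * PP x) :=
        mul_pos hε (mul_pos (Real.exp_pos _) (hPpos x))
      linarith
    · exact h1
  -- the touching function
  obtain ⟨c, hc⟩ : ∃ c : ℝ, c = ε * Real.exp (K * t) := ⟨_, rfl⟩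
  have hc0 : 0 < c := by rw [hc]; positivity
  have hFt : ∀ y, F (t, y) = s * circ (u t) y - M - c * PP y := by
    intro y
    rw [hF, hc]
    show s * circ (u t) y - M - ε * (Real.exp (K * t) * PP y) = _
    ring
  have hax := h.axi t (Ioo_subset_Ico_self htT)
  have hFrot : ∀ θ, F (t, rot θ x) = F (t, x) := by
    intro θ
    rw [hFt, hFt, circ_rot hax, PP_rot]
  obtain ⟨θ, hθ⟩ := touch_t hν h htT hσ (s := s) (W := fun y => c * PP y)
    (fun θ => ((contDiff_const.mul sm_PP).contDiffAt.of_le (by norm_cast)))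
    (fun θ => by
      refine Eventually.of_forall fun y => ?_
      show s * circ (u t) y - c * PP y ≤ s * circ (u t) (rot θ x) - c * PP (rot θ x)
      have h1 := hglob t ht y
      rw [← hFrot θ, hFt, hFt] at h1
      linarith)
  obtain ⟨x', hx'⟩ : ∃ x', x' = rot θ x := ⟨_, rfl⟩
  rw [← hx'] at hθ
  have hσ' : 0 < sg x' := by rw [hx', sg_rot]; exact hσ
  have hlapW : lap (fun y => c * PP y) x' = c * 6 := by
    unfold lap
    simp only [pd_cmul]
    rw [← Finset.mul_sum]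
    congr 1
    exact lap_PP x'
  simp only [hlapW, pd_cmul, pd_PP] at hθ
  have hom : 2 * (x' 0 * (c * (2 * x' 0)) + x' 1 * (c * (2 * x' 1))) / sg x' = 4 * c := by
    rw [div_eq_iff hσ'.ne']
    unfold sg
    ring
  rw [hom] at hθ
  have htr : -(c * (6 * U * PP x')) ≤ ∑ j, u t x' j * (c * (2 * x' j)) := by
    have h1 : ∀ j, -(c * (2 * U * PP x')) ≤ u t x' j * (c * (2 * x' j)) := by
      intro j
      have a1 : |u t x' j| ≤ U := (norm_le_pi_norm (u t x') j).trans (hU t ht x')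
      have a2 : |x' j| ≤ ‖x'‖ := norm_le_pi_norm x' j
      have a3 : ‖x'‖ ≤ PP x' := by
        have b1 := PP_norm x'
        have b2 := PP_one x'
        have b3 := norm_nonneg x'
        by_contra hcon'
        push Not at hcon'
        nlinarith
      have a4 : |u t x' j * x' j| ≤ U * PP x' := by
        rw [abs_mul]
        exact mul_le_mul a1 (a2.trans a3) (abs_nonneg _) hU0
      have a5 : -(U * PP x') ≤ u t x' j * x' j := (abs_le.1 a4).1
      calc -(c * (2 * U * PP x')) = 2 * c * -(U * PP x') := by ring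
        _ ≤ 2 * c * (u t x' j * x' j) := by gcongr
        _ = _ := by ring
    calc -(c * (6 * U * PP x')) = ∑ _j : Fin 3, -(c * (2 * U * PP x')) := by
          rw [Finset.sum_const, Finset.card_univ, Fintype.card_fin, nsmul_eq_mul]
          push_cast
          ring
      _ ≤ _ := Finset.sum_le_sum fun j _ => h1 j
  -- the time derivative
  have hexp : HasDerivAt (fun τ => ε * (Real.exp (K * τ) * PP x'))
      (ε * (Real.exp (K * t) * K * PP x')) t := by
    have h1 : HasDerivAt (fun τ : ℝ => K * τ) K t := by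
      simpa using (hasDerivAt_id t).const_mul K
    exact ((h1.exp).mul_const (PP x')).const_mul ε
  have hder := (((circ_hd h htT x').const_mul s).sub_const M).sub hexp
  have hnn := deriv_nonneg_of_le ht0 hder (fun τ hτ => by
    have h1 := hglob τ ⟨hτ.1, hτ.2.trans ht.2⟩ x'
    have h2 := hFrot θ
    rw [← hx'] at h2
    rw [← h2, hF] at h1
    exact h1)
  have hP' := PP_one x'
  have e1 : ε * (Real.exp (K * t) * K * PP x') = c * K * PP x' := by rw [hc]; ring
  rw [e1, hK] at hnn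
  have h10 : c * (2 * ν * 1) ≤ c * (2 * ν * PP x') := by gcongr
  nlinarith

end Pool.Agent.TH305.AX
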