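import Pool.Agent.TH305.AX.Bar5
import Pool.Agent.TH305.AX.Max

/-!
Axisymmetric flows (helper305): Hölder continuity of the circulation at the axis under a one-sided
condition on the radial velocity.
-/

set_option autoImplicit false

open MeasureTheory Set Metric Filter Topology
open scoped ContDiff

namespace Pool.Agent.TH305.AX

open H459R3.NS W221.NS Pool.Agent.TH305.DR

lemma sqrt_pow_half {σ γ : ℝ} (hσ : 0 ≤ σ) : √σ ^ γ = σ ^ (γ / 2) := by
  rw [Real.sqrt_eq_rpow, ← Real.rpow_mul hσ]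
  congr 1
  ring

/-- One-sided condition of type I on the radial velocity: the circulation is Hölder continuous at
the axis, uniformly up to the time `T`. -/
theorem onesided {ν C μ : ℝ} (hν : 0 < ν) (hC : 0 ≤ C) (hμ : 0 < μ) (hμ1 : μ < 1) :
    ∃ γ : ℝ, 0 < γ ∧ ∀ (T : ℝ) (u : ℝ → V → V) (p : ℝ → V → ℝ), AxSol ν T u p →
      ∀ M : ℝ, (∀ x, |circ (u 0) x| ≤ M) → ∀ R K : ℝ, 0 < R → 0 ≤ K →
      ∀ B : ℝ → ℝ, ContinuousOn B (Ico 0 T) → (∀ t ∈ Ico 0 T, 0 ≤ B t) →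
      (∀ t ∈ Ioo 0 T, ∀ x, 0 < sg x → sg x < R ^ 2 → K * √(sg x) ^ μ < |circ (u t) x| →
        -((2 - μ) * ν) - C * √(sg x) / √(T - t) - B t * sg x ≤ x 0 * u t x 0 + x 1 * u t x 1) →
      ∃ A : ℝ, ∀ t ∈ Ico 0 T, ∀ x, sg x ≤ R ^ 2 →
        |circ (u t) x| ≤ A * Real.exp (∫ r in (0 : ℝ)..t, B r) * √(sg x) ^ γ := by
  obtain ⟨α, hα⟩ : ∃ α, α = μ / 2 := ⟨_, rfl⟩
  have hα0 : 0 < α := by rw [hα]; linarith
  have hα2 : α < 1 / 2 := by rw [hα]; linarith
  have hμα : μ = 2 * α := by rw [hα]; ring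
  obtain ⟨Λ, γ, y₁, X₁, hpar⟩ := par_exists hν hC hα0 hα2
  refine ⟨γ, hpar.g_pos, ?_⟩
  intro T u p h M hM R K hR hK B hB hB0 hcond
  rcases le_or_gt T 0 with hT | hT
  · exact ⟨0, fun t ht => absurd (ht.1.trans_lt ht.2) (not_lt.2 hT)⟩
  have hS : 0 < R ^ 2 := by positivity
  have hM0 : 0 ≤ M := (abs_nonneg _).trans (hM 0)
  obtain ⟨m, hm, hlat⟩ := bar_lat hpar (T := T) hT hS
  obtain ⟨k, hk, hini⟩ := bar_ini hpar (T := T) hT hS
  obtain ⟨q, hq, hlow⟩ := bar_low2 hpar (T := T) hT hS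
  obtain ⟨U, hU0, hU⟩ := u_bdd h hT
  have hT0 : (0 : ℝ) ∈ Ico 0 T := ⟨le_rfl, hT⟩
  obtain ⟨A, hA⟩ : ∃ A, A = M / m + 2 * U / k + K / q := ⟨_, rfl⟩
  have hA1 : 0 ≤ M / m := by positivity
  have hA2 : 0 ≤ 2 * U / k := by positivity
  have hA3 : 0 ≤ K / q := by positivity
  have hA0 : 0 ≤ A := by rw [hA]; positivity
  have hmax := circ_max hν h hM
  have key := cmpT hν h (S := R ^ 2) (A := A) hS (Φ := Bar T C α Λ γ y₁ X₁)
    (fun t ht σ hσ => bar_pos hpar ht.2 hσ.1) (bar_cont hpar) (bar_axis hpar) hB hB0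
    (by
      intro t ht x hx
      have h1 : M ≤ M / m * Bar T C α Λ γ y₁ X₁ t (R ^ 2) := by
        calc M = M / m * m := by field_simp
          _ ≤ _ := mul_le_mul_of_nonneg_left (hlat t ht) (by positivity)
      have h2 : M / m * Bar T C α Λ γ y₁ X₁ t (R ^ 2) ≤ A * Bar T C α Λ γ y₁ X₁ t (R ^ 2) := by
        refine mul_le_mul_of_nonneg_right ?_ (bar_pos hpar ht.2 hS).le
        rw [hA]
        linarith
      exact (hmax t ht x).trans (h1.trans h2))
    (by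
      intro x hx hxS
      have h1 := circ_le (u 0) x
      have h2 := hU 0 ⟨le_rfl, le_rfl⟩ x
      have h3 := hini (sg x) ⟨hx, hxS⟩
      have hq : 0 ≤ √(sg x) := Real.sqrt_nonneg _
      calc |circ (u 0) x| ≤ 2 * √(sg x) * ‖u 0 x‖ := h1
        _ ≤ 2 * √(sg x) * U := mul_le_mul_of_nonneg_left h2 (by positivity)
        _ = 2 * U / k * (k * √(sg x)) := by field_simp
        _ ≤ 2 * U / k * Bar T C α Λ γ y₁ X₁ 0 (sg x) :=
            mul_le_mul_of_nonneg_left h3 (by positivity)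
        _ ≤ A * Bar T C α Λ γ y₁ X₁ 0 (sg x) := by
            refine mul_le_mul_of_nonneg_right ?_ (bar_pos hpar hT hx).le
            rw [hA]
            linarith)
    (by
      intro t ht x hx hxS hbig _
      have hK' : K * √(sg x) ^ μ < |circ (u t) x| := by
        refine lt_of_le_of_lt ?_ hbig
        rw [hμα, sqrt_pow hx.le]
        calc K * sg x ^ α = K / q * (q * sg x ^ α) := by field_simp
          _ ≤ K / q * Bar T C α Λ γ y₁ X₁ t (sg x) :=
            mul_le_mul_of_nonneg_left (hlow t (Ioo_subset_Ico_self ht) _ ⟨hx, hxS.le⟩) hA3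
          _ ≤ A * Bar T C α Λ γ y₁ X₁ t (sg x) := by
            refine mul_le_mul_of_nonneg_right ?_ (bar_pos hpar ht.2 hx).le
            rw [hA]
            linarith
      have hw : -((2 - 2 * α) * ν) - C * √(sg x) / √(T - t) - B t * sg x
          ≤ x 0 * u t x 0 + x 1 * u t x 1 := by
        rw [← hμα]
        exact hcond t ht x hx hxS hK'
      have hBt := hB0 t (Ioo_subset_Ico_self ht)
      rcases le_or_gt (√(sg x / (T - t))) y₁ with hy | hy
      · exact inner_maj hpar ht.2 hx hy hBt hw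
      · exact outer_maj hpar ht.2 hx hy hBt hw)
  refine ⟨A * (Λ + 1), fun t ht x hx => ?_⟩
  obtain ⟨b, hb⟩ : ∃ b, b = Real.exp (∫ r in (0 : ℝ)..t, B r) := ⟨_, rfl⟩
  have hb0 : 0 < b := by rw [hb]; exact Real.exp_pos _
  rw [← hb]
  have hL := hpar.L_pos
  rcases eq_or_lt_of_le (sg_nonneg x) with h0 | h0
  · have h1 := circ_le (u t) x
    rw [← h0, Real.sqrt_zero, mul_zero, zero_mul] at h1
    have h2 : 0 ≤ √(sg x) ^ γ := Real.rpow_nonneg (Real.sqrt_nonneg _) _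
    exact h1.trans (by positivity)
  · have h1 := key t ht x h0 hx
    rw [← hb] at h1
    have h2 := bar_up hpar ht.2 h0
    rw [sqrt_pow_half h0.le]
    calc |circ (u t) x| ≤ A * b * Bar T C α Λ γ y₁ X₁ t (sg x) := h1
      _ ≤ A * b * ((Λ + 1) * sg x ^ (γ / 2)) := mul_le_mul_of_nonneg_left h2 (by positivity)
      _ = _ := by ring

end Pool.Agent.TH305.AX
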