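import Pool.Agent.TH305.AX.CmpT2
import Pool.Agent.TH305.AX.Max

/-!
Axisymmetric flows (helper305): a logarithmic bound of the circulation near the axis, under a
one-sided condition on the radial velocity at its critical size.
-/

set_option autoImplicit false

open MeasureTheory Set Metric Filter Topology
open scoped ContDiff

namespace Pool.Agent.TH305.AX

open H459R3.NS W221.NS Pool.Agent.TH305.DR

/-- The logarithm of `R₀ / √σ`. -/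
noncomputable def ll (R₀ σ : ℝ) : ℝ := Real.log (R₀ / √σ)

lemma ll_eq {R₀ σ : ℝ} (hR₀ : 0 < R₀) (hσ : 0 < σ) : ll R₀ σ = Real.log R₀ - Real.log σ / 2 := by
  unfold ll
  rw [Real.log_div hR₀.ne' (Real.sqrt_pos.2 hσ).ne', Real.log_sqrt hσ.le]

lemma ll_pos {R₀ R σ : ℝ} (hR : 0 < R) (hR₀ : R < R₀) (hσ : 0 < σ) (hσR : σ ≤ R ^ 2) :
    0 < ll R₀ σ := by
  unfold ll
  apply Real.log_pos
  have h1 : √σ ≤ R := by
    rw [← Real.sqrt_sq hR.le]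
    exact Real.sqrt_le_sqrt hσR
  rw [lt_div_iff₀ (Real.sqrt_pos.2 hσ)]
  linarith

lemma ll_hd {R₀ σ : ℝ} (hR₀ : 0 < R₀) (hσ : 0 < σ) : HasDerivAt (ll R₀) (-(1 / (2 * σ))) σ := by
  have h1 : HasDerivAt (fun r => Real.log R₀ - Real.log r / 2) (-(σ⁻¹ / 2)) σ := by
    have := ((Real.hasDerivAt_log hσ.ne').div_const 2).const_sub (Real.log R₀)
    exact this
  have h2 : (fun r => Real.log R₀ - Real.log r / 2) =ᶠ[𝓝 σ] ll R₀ := by
    filter_upwards [lt_mem_nhds hσ] with r hr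
    rw [ll_eq hR₀ hr]
  refine (h2.hasDerivAt_iff.1 h1).congr_deriv ?_
  rw [one_div, mul_inv, inv_div_left]
  ring

lemma ll_sm {R₀ σ : ℝ} (hR₀ : 0 < R₀) (hσ : 0 < σ) : ContDiffAt ℝ 2 (ll R₀) σ := by
  have h1 : ContDiffAt ℝ 2 (fun r => Real.log R₀ - Real.log r / 2) σ := by
    apply contDiffAt_const.sub
    exact (contDiffAt_id.log hσ.ne').div_const 2
  refine h1.congr_of_eventuallyEq ?_
  filter_upwards [lt_mem_nhds hσ] with r hr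
  rw [ll_eq hR₀ hr]

/-- The weight. -/
noncomputable def lw (R₀ α σ : ℝ) : ℝ := ll R₀ σ ^ (-α)

lemma lw_hd {R₀ α σ : ℝ} (hR₀ : 0 < R₀) (hσ : 0 < σ) (hl : 0 < ll R₀ σ) :
    HasDerivAt (lw R₀ α) (α * ll R₀ σ ^ (-α - 1) / (2 * σ)) σ := by
  have h1 := (ll_hd hR₀ hσ).rpow_const (p := -α) (Or.inl hl.ne')
  refine h1.congr_deriv ?_
  field_simp

lemma lw_hd2 {R₀ α σ : ℝ} (hR₀ : 0 < R₀) (hσ : 0 < σ) (hl : 0 < ll R₀ σ) :
    HasDerivAt (fun r => α * ll R₀ r ^ (-α - 1) / (2 * r))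
      (α * (α + 1) * ll R₀ σ ^ (-α - 2) / (4 * σ ^ 2) - α * ll R₀ σ ^ (-α - 1) / (2 * σ ^ 2)) σ := by
  have h1 := ((ll_hd hR₀ hσ).rpow_const (p := -α - 1) (Or.inl hl.ne')).const_mul α
  have h2 : HasDerivAt (fun r : ℝ => 2 * r) 2 σ := by
    simpa using (hasDerivAt_id σ).const_mul (2 : ℝ)
  have h3 := h1.div h2 (by positivity)
  refine h3.congr_deriv ?_
  have e1 : -α - 1 - 1 = -α - 2 := by ring
  rw [e1]
  field_simp
  ring

/-- The weight is a supersolution where the radial velocity satisfies the condition. -/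
lemma lw_maj {ν R₀ α σ : ℝ} {t : ℝ} (hα : 0 < α) (hR₀ : 0 < R₀) (hσ : 0 < σ)
    (hl : 0 < ll R₀ σ) (hev : ∀ᶠ r in 𝓝 σ, 0 < ll R₀ r) {w B₀ : ℝ}
    (hw : -(2 * ν) + (α + 1) * ν / ll R₀ σ - B₀ * σ * ll R₀ σ ≤ w) :
    ∃ χ χ₁ c₂ d ζ, Maj (fun _ : ℝ => lw R₀ α) t σ χ χ₁ c₂ d ζ ∧
      4 * ν * σ * c₂ - 2 * w * χ₁ σ ≤ d + α * B₀ * lw R₀ α σ := by
  refine ⟨lw R₀ α, fun r => α * ll R₀ r ^ (-α - 1) / (2 * r), _, 0, fun _ => lw R₀ α σ,
    ⟨?_, ?_, lw_hd2 hR₀ hσ hl, ?_, rfl, ?_, rfl, hasDerivAt_const _ _⟩, ?_⟩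
  · unfold lw
    exact (ll_sm hR₀ hσ).rpow_const_of_ne hl.ne'
  · filter_upwards [hev, lt_mem_nhds hσ] with r hr hr0
    exact lw_hd hR₀ hr0 hr
  · exact Eventually.of_forall fun r => le_rfl
  · exact Eventually.of_forall fun r => le_rfl
  · obtain ⟨l, hl'⟩ : ∃ l, l = ll R₀ σ := ⟨_, rfl⟩
    unfold lw
    show 4 * ν * σ * (α * (α + 1) * ll R₀ σ ^ (-α - 2) / (4 * σ ^ 2)
        - α * ll R₀ σ ^ (-α - 1) / (2 * σ ^ 2))
      - 2 * w * (α * ll R₀ σ ^ (-α - 1) / (2 * σ)) ≤ 0 + α * B₀ * ll R₀ σ ^ (-α)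
    rw [← hl'] at hl hw ⊢
    obtain ⟨q, hq⟩ : ∃ q, q = l ^ (-α - 2) := ⟨_, rfl⟩
    have hq0 : 0 < q := by rw [hq]; exact Real.rpow_pos_of_pos hl _
    have e1 : l ^ (-α - 1) = l * q := by
      rw [hq, mul_comm l, ← Real.rpow_add_one hl.ne']
      congr 1
      ring
    have e2 : l ^ (-α) = l ^ 2 * q := by
      rw [hq, mul_comm (l ^ 2), ← Real.rpow_natCast l 2, ← Real.rpow_add hl]
      congr 1
      push_cast
      ring
    rw [e1, e2, ← hq]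
    have hkey : (α + 1) * ν - 2 * ν * l - w * l ≤ B₀ * σ * l ^ 2 := by
      have h1 := mul_le_mul_of_nonneg_right hw hl.le
      have h2 : (-(2 * ν) + (α + 1) * ν / l - B₀ * σ * l) * l
          = -(2 * ν) * l + (α + 1) * ν - B₀ * σ * l ^ 2 := by
        field_simp
      rw [h2] at h1
      linarith
    have h3 : 4 * ν * σ * (α * (α + 1) * q / (4 * σ ^ 2) - α * (l * q) / (2 * σ ^ 2))
        - 2 * w * (α * (l * q) / (2 * σ)) = α * q / σ * ((α + 1) * ν - 2 * ν * l - w * l) := by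
      field_simp
      ring
    rw [h3]
    have h4 : 0 + α * B₀ * (l ^ 2 * q) = α * q / σ * (B₀ * σ * l ^ 2) := by
      field_simp
      ring
    rw [h4]
    exact mul_le_mul_of_nonneg_left hkey (by positivity)

/-- The logarithm near zero. -/
lemma ll_small {R₀ R α : ℝ} (hR : 0 < R) (hR₀ : R < R₀) (hα : 0 < α) :
    ∃ c : ℝ, 0 < c ∧ ∀ σ ∈ Ioc 0 (R ^ 2), √σ * ll R₀ σ ^ α ≤ c * √(√σ) := by
  have hR0 : 0 < R₀ := hR.trans hR₀
  obtain ⟨a, ha⟩ : ∃ a : ℝ, a = 1 / (2 * α) := ⟨_, rfl⟩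
  have ha0 : 0 < a := by rw [ha]; positivity
  refine ⟨(1 / a) ^ α * R₀ ^ (1 / 2 : ℝ), by positivity, fun σ hσ => ?_⟩
  have hs : 0 < √σ := Real.sqrt_pos.2 hσ.1
  have hl := ll_pos hR hR₀ hσ.1 hσ.2
  obtain ⟨s, hs'⟩ : ∃ s, s = √σ := ⟨_, rfl⟩
  have h1 : ll R₀ σ ≤ (R₀ / s) ^ a / a := by
    unfold ll
    rw [← hs']
    exact Real.log_le_rpow_div (by rw [hs']; positivity) ha0
  rw [← hs'] at hs ⊢
  have h2 : ll R₀ σ ^ α ≤ ((R₀ / s) ^ a / a) ^ α := Real.rpow_le_rpow hl.le h1 hα.le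
  have h3 : ((R₀ / s) ^ a / a) ^ α = (1 / a) ^ α * (R₀ / s) ^ (1 / 2 : ℝ) := by
    have e1 : (R₀ / s) ^ a / a = (1 / a) * (R₀ / s) ^ a := by ring
    rw [e1, Real.mul_rpow (by positivity) (by positivity), ← Real.rpow_mul (by positivity)]
    congr 2
    rw [ha]
    field_simp
  have h4 : s * (R₀ / s) ^ (1 / 2 : ℝ) = R₀ ^ (1 / 2 : ℝ) * √s := by
    rw [Real.div_rpow hR0.le hs.le, ← Real.sqrt_eq_rpow s]
    have h5 : √s * √s = s := Real.mul_self_sqrt hs.le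
    have h6 : √s ≠ 0 := (Real.sqrt_pos.2 hs).ne'
    rw [mul_div_assoc', div_eq_iff h6, mul_assoc, h5, mul_comm]
  calc s * ll R₀ σ ^ α ≤ s * ((1 / a) ^ α * (R₀ / s) ^ (1 / 2 : ℝ)) := by
        rw [← h3]
        exact mul_le_mul_of_nonneg_left h2 hs.le
    _ = (1 / a) ^ α * (s * (R₀ / s) ^ (1 / 2 : ℝ)) := by ring
    _ = _ := by rw [h4]; ring

end Pool.Agent.TH305.AX
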