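import Pool.Agent.TH305.AX.Log

/-!
Axisymmetric flows (helper305): a logarithmic bound of the circulation near the axis; the theorem.
-/

set_option autoImplicit false

open MeasureTheory Set Metric Filter Topology
open scoped ContDiff

namespace Pool.Agent.TH305.AX

open H459R3.NS W221.NS Pool.Agent.TH305.DR

variable {ν T : ℝ} {u : ℝ → V → V} {p : ℝ → V → ℝ}

/-- A constant for the initial values. -/
lemma log_ini (h : AxSol ν T u p) (hT : 0 < T) {α R R₀ : ℝ} (hα : 0 < α) (hR : 0 < R)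
    (hR₀ : R < R₀) : ∃ A : ℝ, ∀ x, 0 < sg x → sg x ≤ R ^ 2 →
      |circ (u 0) x| * Real.log (R₀ / √(sg x)) ^ α ≤ A := by
  obtain ⟨c, hc, hs⟩ := ll_small hR hR₀ hα
  obtain ⟨U, hU0, hU⟩ := u_bdd h hT
  refine ⟨2 * U * (c * √(√(R ^ 2))), fun x hx hxR => ?_⟩
  have h1 := circ_le (u 0) x
  have h2 := hU 0 ⟨le_rfl, le_rfl⟩ x
  have hl := ll_pos hR hR₀ hx hxR
  have h3 := hs (sg x) ⟨hx, hxR⟩
  have h4 : √(√(sg x)) ≤ √(√(R ^ 2)) := Real.sqrt_le_sqrt (Real.sqrt_le_sqrt hxR)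
  have h5 : 0 ≤ ll R₀ (sg x) ^ α := Real.rpow_nonneg hl.le _
  show |circ (u 0) x| * ll R₀ (sg x) ^ α ≤ _
  calc |circ (u 0) x| * ll R₀ (sg x) ^ α ≤ 2 * √(sg x) * ‖u 0 x‖ * ll R₀ (sg x) ^ α := by gcongr
    _ ≤ 2 * √(sg x) * U * ll R₀ (sg x) ^ α := by gcongr
    _ = 2 * U * (√(sg x) * ll R₀ (sg x) ^ α) := by ring
    _ ≤ 2 * U * (c * √(√(sg x))) := by gcongr
    _ ≤ _ := by gcongr

/-- A logarithmic bound of the circulation near the axis. -/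
theorem loginflow (hν : 0 < ν) (h : AxSol ν T u p) {α R R₀ : ℝ} (hα : 0 < α) (hR : 0 < R)
    (hR₀ : R < R₀) {M A : ℝ} (hM : ∀ x, |circ (u 0) x| ≤ M)
    (hA1 : M * Real.log (R₀ / R) ^ α ≤ A)
    (hA2 : ∀ x, 0 < sg x → sg x ≤ R ^ 2 → |circ (u 0) x| * Real.log (R₀ / √(sg x)) ^ α ≤ A)
    {B : ℝ → ℝ} (hB : ContinuousOn B (Ico 0 T)) (hB0 : ∀ t ∈ Ico 0 T, 0 ≤ B t)
    (hcond : ∀ t ∈ Ioo 0 T, ∀ x, 0 < sg x → sg x < R ^ 2 →
      A < |circ (u t) x| * Real.log (R₀ / √(sg x)) ^ α →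
      (∀ y, 0 < sg y → sg y ≤ R ^ 2 → |circ (u t) y| * Real.log (R₀ / √(sg y)) ^ α
        ≤ |circ (u t) x| * Real.log (R₀ / √(sg x)) ^ α) →
      -(2 * ν) + (α + 1) * ν / Real.log (R₀ / √(sg x)) - B t * sg x * Real.log (R₀ / √(sg x))
        ≤ x 0 * u t x 0 + x 1 * u t x 1) :
    ∀ t ∈ Ico 0 T, ∀ x, 0 < sg x → sg x ≤ R ^ 2 →
      |circ (u t) x| * Real.log (R₀ / √(sg x)) ^ α ≤ A * Real.exp (α * ∫ r in (0 : ℝ)..t, B r) := by
  intro t₀ ht₀ x₀ hx0 hxS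
  have hR0 : 0 < R₀ := hR.trans hR₀
  have hS : 0 < R ^ 2 := by positivity
  have hlp : ∀ σ ∈ Ioc 0 (R ^ 2), 0 < ll R₀ σ := fun σ hσ => ll_pos hR hR₀ hσ.1 hσ.2
  have hwp : ∀ σ ∈ Ioc 0 (R ^ 2), 0 < lw R₀ α σ := fun σ hσ => Real.rpow_pos_of_pos (hlp σ hσ) _
  have hwm : ∀ σ ∈ Ioc 0 (R ^ 2), lw R₀ α σ * ll R₀ σ ^ α = 1 := fun σ hσ => by
    unfold lw
    rw [← Real.rpow_add (hlp σ hσ)]
    simp
  have hconv : ∀ σ ∈ Ioc 0 (R ^ 2), ∀ c a : ℝ, c ≤ a * lw R₀ α σ ↔ c * ll R₀ σ ^ α ≤ a := by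
    intro σ hσ c a
    have h1 := hwm σ hσ
    have h2 := hwp σ hσ
    have h3 : 0 < ll R₀ σ ^ α := Real.rpow_pos_of_pos (hlp σ hσ) _
    constructor
    · intro h4
      calc c * ll R₀ σ ^ α ≤ a * lw R₀ α σ * ll R₀ σ ^ α := by gcongr
        _ = a := by rw [mul_assoc, h1, mul_one]
    · intro h4
      calc c = c * ll R₀ σ ^ α * lw R₀ α σ := by rw [mul_assoc, mul_comm (ll R₀ σ ^ α), h1, mul_one]
        _ ≤ a * lw R₀ α σ := by gcongr
  have hBc : ContinuousOn (fun t => α * B t) (Ico 0 T) := hB.const_smul α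
  have key := cmpT hν h (S := R ^ 2) (A := A) hS (Φ := fun _ => lw R₀ α)
    (fun t _ σ hσ => hwp σ hσ) ?_ ?_ hBc (fun t ht => mul_nonneg hα.le (hB0 t ht)) ?_ ?_ ?_
    t₀ ht₀ x₀ hx0 hxS
  · have h1 := (hconv (sg x₀) ⟨hx0, hxS⟩ _ _).1 key
    rw [intervalIntegral.integral_const_mul] at h1
    exact h1
  · -- continuity
    have h1 : ContinuousOn (lw R₀ α) (Ioc 0 (R ^ 2)) := fun σ hσ =>
      (lw_hd hR0 hσ.1 (hlp σ hσ)).continuousAt.continuousWithinAt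
    exact h1.comp continuous_snd.continuousOn fun z hz => hz.2
  · -- near the axis
    obtain ⟨c, hc, hs⟩ := ll_small hR hR₀ hα
    intro T' _ ε hε
    refine ⟨((ε / c) ^ 2) ^ 2, by positivity, fun t _ σ hσ hσδ => ?_⟩
    rw [hconv σ hσ]
    refine (hs σ hσ).trans ?_
    have h1 : √(√σ) ≤ ε / c := by
      rw [Real.sqrt_le_left (by positivity), Real.sqrt_le_left (by positivity)]
      exact hσδ.le
    calc c * √(√σ) ≤ c * (ε / c) := by gcongr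
      _ = ε := by field_simp
  · -- lateral boundary
    intro t ht x hx
    rw [hconv _ ⟨hS, le_rfl⟩]
    have h1 := circ_max hν h hM t ht x
    have h2 : ll R₀ (R ^ 2) = Real.log (R₀ / R) := by
      unfold ll
      rw [Real.sqrt_sq hR.le]
    have h3 : 0 ≤ Real.log (R₀ / R) ^ α := by
      rw [← h2]
      exact Real.rpow_nonneg (hlp _ ⟨hS, le_rfl⟩).le _
    rw [h2]
    exact (mul_le_mul_of_nonneg_right h1 h3).trans hA1
  · -- initial time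
    intro x hx hxR
    rw [hconv _ ⟨hx, hxR⟩]
    exact hA2 x hx hxR
  · -- the condition
    intro t ht x hx hxR hbig htop
    have hIoc : sg x ∈ Ioc 0 (R ^ 2) := ⟨hx, hxR.le⟩
    have hbig' : A < |circ (u t) x| * ll R₀ (sg x) ^ α := by
      by_contra hcon
      push Not at hcon
      exact absurd ((hconv _ hIoc _ _).2 hcon) (not_le.2 hbig)
    have htop' : ∀ y, 0 < sg y → sg y ≤ R ^ 2 → |circ (u t) y| * ll R₀ (sg y) ^ α
        ≤ |circ (u t) x| * ll R₀ (sg x) ^ α := by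
      intro y hy hyR
      have h1 := htop y hy hyR
      have h2 : |circ (u t) y| ≤ |circ (u t) x| * ll R₀ (sg x) ^ α * lw R₀ α (sg y) := by
        have h3 := hwm _ hIoc
        have h4 : 0 < ll R₀ (sg x) ^ α := Real.rpow_pos_of_pos (hlp _ hIoc) _
        have h5 := mul_le_mul_of_nonneg_right h1 h4.le
        calc |circ (u t) y| = |circ (u t) y| * (lw R₀ α (sg x) * ll R₀ (sg x) ^ α) := by
              rw [h3, mul_one]
          _ = |circ (u t) y| * lw R₀ α (sg x) * ll R₀ (sg x) ^ α := by ring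
          _ ≤ |circ (u t) x| * lw R₀ α (sg y) * ll R₀ (sg x) ^ α := h5
          _ = _ := by ring
      exact (hconv _ ⟨hy, hyR⟩ _ _).1 h2
    have hw := hcond t ht x hx hxR hbig' htop'
    have hev : ∀ᶠ r in 𝓝 (sg x), 0 < ll R₀ r := by
      filter_upwards [Ioo_mem_nhds hx hxR] with r hr
      exact hlp r ⟨hr.1, hr.2.le⟩
    exact lw_maj (w := x 0 * u t x 0 + x 1 * u t x 1) (B₀ := B t) hα hR0 hx (hlp _ hIoc) hev hw

end Pool.Agent.TH305.AX
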