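import Pool.Agent.TH305.AX.RotD

/-!
Axisymmetric flows (helper305): the circle through a point; volumes and integrals near it.
-/

set_option autoImplicit false

open MeasureTheory Set Metric Filter Topology
open scoped ContDiff ENNReal

namespace Pool.Agent.TH305.AX

open H459R3.NS W221.NS Pool.Agent.TH305.DR
open Pool.Agent.W583.MD (sm_pd)

lemma exists_angle {a b : ℝ} (h : a ^ 2 + b ^ 2 = 1) : ∃ θ : ℝ, Real.cos θ = a ∧ Real.sin θ = b := by
  have hn : ‖(⟨a, b⟩ : ℂ)‖ = 1 := by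
    rw [Complex.norm_def, Complex.normSq_mk, Real.sqrt_eq_one]
    nlinarith
  have h0 : (⟨a, b⟩ : ℂ) ≠ 0 := by
    intro h0
    rw [h0, norm_zero] at hn
    norm_num at hn
  refine ⟨Complex.arg ⟨a, b⟩, ?_, ?_⟩
  · rw [Complex.cos_arg h0, hn, div_one]
  · rw [Complex.sin_arg, hn, div_one]

/-- Points of the circle through `x`. -/
lemma circ_pt (x : V) {c d : ℝ} (h : c ^ 2 + d ^ 2 = sg x) : ∃ θ : ℝ, rot θ x = ![c, d, x 2] := by
  rcases (sg_nonneg x).eq_or_lt with h0 | h0
  · have e0 : x 0 ^ 2 + x 1 ^ 2 = 0 := h0.symm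
    have x0 : x 0 = 0 := by nlinarith [sq_nonneg (x 0), sq_nonneg (x 1)]
    have x1 : x 1 = 0 := by nlinarith [sq_nonneg (x 0), sq_nonneg (x 1)]
    have c0 : c = 0 := by nlinarith [sq_nonneg c, sq_nonneg d]
    have d0 : d = 0 := by nlinarith [sq_nonneg c, sq_nonneg d]
    refine ⟨0, ?_⟩
    funext i
    fin_cases i <;> simp [rot, x0, x1, c0, d0]
  · have hs : sg x = x 0 ^ 2 + x 1 ^ 2 := rfl
    obtain ⟨θ, h1, h2⟩ := exists_angle (a := (c * x 0 + d * x 1) / sg x)
      (b := (d * x 0 - c * x 1) / sg x) (by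
        rw [div_pow, div_pow, ← add_div, div_eq_one_iff_eq (by positivity)]
        have : (c * x 0 + d * x 1) ^ 2 + (d * x 0 - c * x 1) ^ 2
            = (c ^ 2 + d ^ 2) * (x 0 ^ 2 + x 1 ^ 2) := by ring
        rw [this, h, ← hs]
        ring)
    refine ⟨θ, ?_⟩
    funext i
    fin_cases i
    · show Real.cos θ * x 0 - Real.sin θ * x 1 = c
      rw [h1, h2]
      field_simp
      rw [hs]
      ring
    · show Real.sin θ * x 0 + Real.cos θ * x 1 = d
      rw [h1, h2]
      field_simp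
      rw [hs]
      ring
    · rfl

lemma nat_sep {k l : ℕ} (h : k ≠ l) : (1 : ℝ) ≤ |(k : ℝ) - l| := by
  rcases lt_or_gt_of_ne h with h | h
  · have h1 : (k : ℝ) + 1 ≤ l := by exact_mod_cast h
    rw [abs_sub_comm]
    exact le_trans (by linarith) (le_abs_self _)
  · have h1 : (l : ℝ) + 1 ≤ k := by exact_mod_cast h
    exact le_trans (by linarith) (le_abs_self _)

/-- Many separated points on the circle through `x`. -/
lemma ring_pts (x : V) {δ : ℝ} (hδ : 0 < δ) : ∃ (N : ℕ) (θ : ℕ → ℝ), √(sg x) / δ ≤ N ∧ 1 ≤ N ∧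
    ∀ k < N, rot (θ k) x 0 = k * δ := by
  have hp : ∀ k : ℕ, ∃ θ : ℝ, k < ⌊√(sg x) / δ⌋₊ + 1 → rot θ x 0 = k * δ := by
    intro k
    by_cases hk : k < ⌊√(sg x) / δ⌋₊ + 1
    · have h1 : (k : ℝ) ≤ √(sg x) / δ := by
        have h2 : (k : ℝ) ≤ ⌊√(sg x) / δ⌋₊ := by exact_mod_cast Nat.lt_succ_iff.1 hk
        exact h2.trans (Nat.floor_le (by positivity))
      rw [le_div_iff₀ hδ] at h1
      have h3 : (k * δ) ^ 2 ≤ sg x := by
        calc (k * δ) ^ 2 ≤ √(sg x) ^ 2 := by gcongr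
          _ = sg x := Real.sq_sqrt (sg_nonneg x)
      obtain ⟨θ, hθ⟩ := circ_pt x (c := k * δ) (d := √(sg x - (k * δ) ^ 2)) (by
        rw [Real.sq_sqrt (by linarith)]
        ring)
      refine ⟨θ, fun _ => ?_⟩
      rw [hθ]
      rfl
    · exact ⟨0, fun h => absurd h hk⟩
  choose θ hθ using hp
  refine ⟨⌊√(sg x) / δ⌋₊ + 1, θ, ?_, by omega, fun k hk => hθ k hk⟩
  push_cast
  exact (Nat.lt_floor_add_one _).le

/-- A set of small volume does not contain a neighbourhood of the circle through `x`. -/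
lemma ring_meas {x : V} {r : ℝ} (hr : 0 < r) {B : Set V}
    (hB : volume B < ENNReal.ofReal ((√(sg x) + r) * r ^ 2 / 1024)) :
    ∃ θ : ℝ, ∃ y, y ∉ B ∧ rot θ x ∈ ball y (r / 16) := by
  by_contra hcon
  push Not at hcon
  have hsub : ∀ θ : ℝ, ball (rot θ x) (r / 16) ⊆ B := by
    intro θ y hy
    by_contra hyB
    exact hcon θ y hyB (by rwa [mem_ball_comm])
  obtain ⟨N, θ, hN, hN1, hθ⟩ := ring_pts x (δ := r / 8) (by positivity)
  have hdisj : ((Finset.range N : Finset ℕ) : Set ℕ).PairwiseDisjoint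
      fun k => ball (rot (θ k) x) (r / 16) := by
    intro k hk l hl hkl
    rw [Finset.mem_coe, Finset.mem_range] at hk hl
    apply ball_disjoint_ball
    rw [dist_eq_norm]
    have h1 := norm_le_pi_norm (rot (θ k) x - rot (θ l) x) 0
    rw [Pi.sub_apply, hθ k hk, hθ l hl, Real.norm_eq_abs, ← sub_mul, abs_mul,
      abs_of_pos (show 0 < r / 8 by positivity)] at h1
    have h2 := nat_sep hkl
    nlinarith
  have h3 := measure_biUnion_finset (μ := (volume : Measure V)) hdisj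
    (fun k _ => measurableSet_ball)
  have h4 : volume (⋃ k ∈ Finset.range N, ball (rot (θ k) x) (r / 16)) ≤ volume B :=
    measure_mono (iUnion₂_subset fun k _ => hsub (θ k))
  rw [h3] at h4
  have h5 : ∀ k ∈ Finset.range N, volume (ball (rot (θ k) x) (r / 16))
      = ENNReal.ofReal ((r / 8) ^ 3) := by
    intro k _
    rw [Real.volume_pi_ball _ (by positivity)]
    congr 1
    simp
    ring
  rw [Finset.sum_congr rfl h5, Finset.sum_const, Finset.card_range, nsmul_eq_mul,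
    ← ENNReal.ofReal_natCast, ← ENNReal.ofReal_mul (by positivity)] at h4
  refine absurd (hB.trans_le ?_) (lt_irrefl _)
  refine le_trans ?_ h4
  apply ENNReal.ofReal_le_ofReal
  have hN1' : (1 : ℝ) ≤ N := by exact_mod_cast hN1
  have hρ : 0 ≤ √(sg x) := Real.sqrt_nonneg _
  rw [div_le_iff₀ (by positivity)] at hN
  have h6 : √(sg x) + r ≤ 2 * N * r := by nlinarith
  calc (√(sg x) + r) * r ^ 2 / 1024 ≤ (2 * N * r) * r ^ 2 / 1024 := by gcongr
    _ = N * (r / 8) ^ 3 := by ring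

lemma rot_norm (θ : ℝ) (w : V) : ‖rot θ w‖ ≤ 2 * ‖w‖ := by
  rw [pi_norm_le_iff_of_nonneg (by positivity)]
  have h0 := norm_le_pi_norm w 0
  have h1 := norm_le_pi_norm w 1
  have h2 := norm_le_pi_norm w 2
  rw [Real.norm_eq_abs] at h0 h1 h2
  have hc := Real.abs_cos_le_one θ
  have hs := Real.abs_sin_le_one θ
  have ec : ∀ a b : ℝ, |a| ≤ 1 → |b| ≤ ‖w‖ → |a * b| ≤ ‖w‖ := by
    intro a b ha hb
    rw [abs_mul]
    nlinarith [abs_nonneg a, abs_nonneg b]
  intro i
  rw [Real.norm_eq_abs]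
  fin_cases i
  · show |Real.cos θ * w 0 - Real.sin θ * w 1| ≤ _
    have := abs_sub (Real.cos θ * w 0) (Real.sin θ * w 1)
    linarith [ec _ _ hc h0, ec _ _ hs h1]
  · show |Real.sin θ * w 0 + Real.cos θ * w 1| ≤ _
    have := abs_add_le (Real.sin θ * w 0) (Real.cos θ * w 1)
    linarith [ec _ _ hs h0, ec _ _ hc h1]
  · show |w 2| ≤ _
    linarith [norm_nonneg w]

lemma rot_rot (θ φ : ℝ) (x : V) : rot θ (rot φ x) = rot (θ + φ) x := by
  funext i
  fin_cases i
  · show Real.cos θ * (Real.cos φ * x 0 - Real.sin φ * x 1)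
      - Real.sin θ * (Real.sin φ * x 0 + Real.cos φ * x 1)
      = Real.cos (θ + φ) * x 0 - Real.sin (θ + φ) * x 1
    rw [Real.cos_add, Real.sin_add]
    ring
  · show Real.sin θ * (Real.cos φ * x 0 - Real.sin φ * x 1)
      + Real.cos θ * (Real.sin φ * x 0 + Real.cos φ * x 1)
      = Real.sin (θ + φ) * x 0 + Real.cos (θ + φ) * x 1
    rw [Real.cos_add, Real.sin_add]
    ring
  · rfl

lemma rot_mp (θ : ℝ) : MeasurePreserving (rot θ) (volume : Measure V) volume := by
  have hdet : (Matrix.of (Rm θ)).det = 1 := by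
    rw [Matrix.det_fin_three]
    simp [Rm]
    nlinarith [Real.sin_sq_add_cos_sq θ]
  have e : (fun x => rot θ x) = fun x => Matrix.toLin' (Matrix.of (Rm θ)) x := by
    funext x
    rw [Matrix.toLin'_apply]
    funext a
    rw [rot_eq]
    rfl
  have h := Real.map_matrix_volume_pi_eq_smul_volume_pi (M := Matrix.of (Rm θ))
    (by rw [hdet]; norm_num)
  rw [hdet] at h
  refine ⟨(rotL θ).continuous.measurable, ?_⟩
  show Measure.map (fun x => rot θ x) volume = volume
  rw [e]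
  rw [inv_one, abs_one, ENNReal.ofReal_one, one_smul] at h
  exact h

lemma nsq_rot {v : V → V} (ha : Axi v) (θ : ℝ) (x : V) : nsq v (rot θ x) = nsq v x := by
  unfold nsq
  rw [ha]
  simp only [Fin.sum_univ_three]
  show (Real.cos θ * v x 0 - Real.sin θ * v x 1) ^ 2 + (Real.sin θ * v x 0 + Real.cos θ * v x 1) ^ 2
    + v x 2 ^ 2 = _
  nlinarith [Real.sin_sq_add_cos_sq θ]

/-- The energy near a point away from the axis. -/
lemma ring_en {v : V → V} (hv : Continuous v) (ha : Axi v) {M : ℝ} (hM0 : 0 ≤ M)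
    (hM : ∫⁻ y, ENNReal.ofReal (nsq v y) ≤ ENNReal.ofReal M) {x : V} {r : ℝ} (hr : 0 < r) :
    ∫⁻ y in ball x (6 * r), ENNReal.ofReal (nsq v y)
      ≤ ENNReal.ofReal (48 * r * M / (√(sg x) + r)) := by
  have hg : Measurable fun y => ENNReal.ofReal (nsq v y) := by
    apply ENNReal.measurable_ofReal.comp
    apply Continuous.measurable
    unfold nsq
    fun_prop
  obtain ⟨N, θ, hN, hN1, hθ⟩ := ring_pts x (δ := 24 * r) (by positivity)
  obtain ⟨S, hS⟩ : ∃ S : ℕ → Set V, S = fun k => rot (-θ k) ⁻¹' ball x (6 * r) := ⟨_, rfl⟩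
  have hSm : ∀ k, MeasurableSet (S k) := by
    intro k
    rw [hS]
    exact (rot_mp _).measurable measurableSet_ball
  have hSs : ∀ k, S k ⊆ ball (rot (θ k) x) (12 * r) := by
    intro k y hy
    rw [hS] at hy
    have h1 : rot (-θ k) y ∈ ball x (6 * r) := hy
    rw [mem_ball, dist_eq_norm] at h1 ⊢
    have h2 : y - rot (θ k) x = rot (θ k) (rot (-θ k) y - x) := by
      have h3 : rot (θ k) (rot (-θ k) y - x) = rot (θ k) (rot (-θ k) y) - rot (θ k) x :=
        map_sub (rotL (θ k)) _ _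
      rw [h3, rot_rot, add_neg_cancel, rot_zero]
    rw [h2]
    have := rot_norm (θ k) (rot (-θ k) y - x)
    linarith
  have hdisj : ((Finset.range N : Finset ℕ) : Set ℕ).PairwiseDisjoint S := by
    intro k hk l hl hkl
    rw [Finset.mem_coe, Finset.mem_range] at hk hl
    refine Disjoint.mono (hSs k) (hSs l) (ball_disjoint_ball ?_)
    rw [dist_eq_norm]
    have h1 := norm_le_pi_norm (rot (θ k) x - rot (θ l) x) 0
    rw [Pi.sub_apply, hθ k hk, hθ l hl, Real.norm_eq_abs, ← sub_mul, abs_mul,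
      abs_of_pos (show 0 < 24 * r by positivity)] at h1
    have h2 := nat_sep hkl
    nlinarith
  have h3 := lintegral_biUnion_finset (μ := (volume : Measure V)) hdisj (fun k _ => hSm k)
    (fun y => ENNReal.ofReal (nsq v y))
  have h4 : ∀ k ∈ Finset.range N, ∫⁻ y in S k, ENNReal.ofReal (nsq v y)
      = ∫⁻ y in ball x (6 * r), ENNReal.ofReal (nsq v y) := by
    intro k _
    have h5 := (rot_mp (-θ k)).setLIntegral_comp_preimage (s := ball x (6 * r))
      measurableSet_ball hg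
    rw [← h5, hS]
    refine lintegral_congr fun y => ?_
    rw [nsq_rot ha]
  rw [Finset.sum_congr rfl h4, Finset.sum_const, Finset.card_range, nsmul_eq_mul] at h3
  have h6 : ∫⁻ y in ⋃ k ∈ Finset.range N, S k, ENNReal.ofReal (nsq v y) ≤ ENNReal.ofReal M :=
    (setLIntegral_le_lintegral _ _).trans hM
  rw [h3] at h6
  have hN0 : (0 : ℝ) < N := by exact_mod_cast hN1
  have h7 : ∫⁻ y in ball x (6 * r), ENNReal.ofReal (nsq v y) ≤ ENNReal.ofReal (M / N) := by
    rw [ENNReal.ofReal_div_of_pos hN0, ENNReal.ofReal_natCast,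
      ENNReal.le_div_iff_mul_le (Or.inl (by simpa using (show N ≠ 0 by omega)))
        (Or.inl (ENNReal.natCast_ne_top N)), mul_comm]
    exact h6
  refine h7.trans (ENNReal.ofReal_le_ofReal ?_)
  have hN1' : (1 : ℝ) ≤ N := by exact_mod_cast hN1
  have hρ : 0 ≤ √(sg x) := Real.sqrt_nonneg _
  rw [div_le_div_iff₀ hN0 (by positivity)]
  rw [div_le_iff₀ (by positivity)] at hN
  have h8 : √(sg x) + r ≤ 48 * r * N := by nlinarith
  calc M * (√(sg x) + r) ≤ M * (48 * r * N) := by gcongr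
    _ = 48 * r * M * N := by ring

end Pool.Agent.TH305.AX
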