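import Pool.Agent.TH305.AX.Sol
import Pool.Agent.TH305.DR.Fin

/-!
Axisymmetric flows (helper305): rotation invariance of the sums of squares of derivatives.
-/

set_option autoImplicit false

open MeasureTheory Set Metric Filter Topology
open scoped ContDiff ENNReal

namespace Pool.Agent.TH305.AX

open H459R3.NS W221.NS Pool.Agent.TH305.DR
open Pool.Agent.W583.MD (sm_pd)

/-- The rotation matrix. -/
noncomputable def Rm (θ : ℝ) : Fin 3 → Fin 3 → ℝ :=
  ![![Real.cos θ, -Real.sin θ, 0], ![Real.sin θ, Real.cos θ, 0], ![0, 0, 1]]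

lemma rot_eq (θ : ℝ) (x : V) (a : Fin 3) : rot θ x a = ∑ b, Rm θ a b * x b := by
  fin_cases a <;> simp [rot, Rm, Fin.sum_univ_three] <;> ring

lemma Rm_orth (θ : ℝ) (b c : Fin 3) :
    ∑ a, Rm θ a b * Rm θ a c = if b = c then 1 else 0 := by
  have h := Real.sin_sq_add_cos_sq θ
  fin_cases b <;> fin_cases c <;> simp [Rm, Fin.sum_univ_three] <;> nlinarith

lemma Rm_orth' (θ : ℝ) (b c : Fin 3) :
    ∑ a, Rm θ b a * Rm θ c a = if b = c then 1 else 0 := by
  have h := Real.sin_sq_add_cos_sq θ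
  fin_cases b <;> fin_cases c <;> simp [Rm, Fin.sum_univ_three] <;> nlinarith

/-- Rotation as a continuous linear map. -/
noncomputable def rotL (θ : ℝ) : V →L[ℝ] V := LinearMap.toContinuousLinearMap
  { toFun := rot θ
    map_add' := fun x y => by
      funext a
      rw [rot_eq, Pi.add_apply, rot_eq, rot_eq, ← Finset.sum_add_distrib]
      exact Finset.sum_congr rfl fun b _ => by rw [Pi.add_apply]; ring
    map_smul' := fun c x => by
      funext a
      rw [rot_eq, RingHom.id_apply, Pi.smul_apply, rot_eq, smul_eq_mul, Finset.mul_sum]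
      exact Finset.sum_congr rfl fun b _ => by rw [Pi.smul_apply, smul_eq_mul]; ring }

lemma rotL_apply (θ : ℝ) (x : V) : rotL θ x = rot θ x := rfl

lemma rot_single (θ : ℝ) (b : Fin 3) :
    rot θ (Pi.single b 1) = ∑ a, Rm θ a b • (Pi.single a 1 : V) := by
  funext a
  rw [rot_eq, Finset.sum_apply]
  simp [Pi.single_apply]

lemma pd_rot (θ : ℝ) {f : V → ℝ} (hf : ContDiff ℝ ∞ f) (b : Fin 3) (x : V) :
    pd b (fun y => f (rot θ y)) x = ∑ a, Rm θ a b * pd a f (rot θ x) := by
  have h1 : HasFDerivAt (fun y => f (rot θ y)) ((fderiv ℝ f (rot θ x)).comp (rotL θ)) x := by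
    have h2 : HasFDerivAt f (fderiv ℝ f (rot θ x)) (rot θ x) :=
      ((hf.differentiable (by norm_cast)) _).hasFDerivAt
    exact h2.comp x (rotL θ).hasFDerivAt
  unfold pd
  rw [h1.fderiv]
  show fderiv ℝ f (rot θ x) (rot θ (Pi.single b 1)) = _
  rw [rot_single, map_sum]
  exact Finset.sum_congr rfl fun a _ => by rw [map_smul, smul_eq_mul]

lemma pd_rot' (θ : ℝ) {f : V → ℝ} (hf : ContDiff ℝ ∞ f) (a : Fin 3) (x : V) :
    pd a f (rot θ x) = ∑ b, Rm θ a b * pd b (fun y => f (rot θ y)) x := by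
  simp only [pd_rot θ hf, Finset.mul_sum]
  rw [Finset.sum_comm]
  have h : ∀ c, ∑ b, Rm θ a b * (Rm θ c b * pd c f (rot θ x))
      = (if a = c then 1 else 0) * pd c f (rot θ x) := by
    intro c
    rw [← Rm_orth' θ a c, Finset.sum_mul]
    exact Finset.sum_congr rfl fun b _ => by ring
  simp [h]

lemma sm_rot (θ : ℝ) {f : V → ℝ} (hf : ContDiff ℝ ∞ f) : ContDiff ℝ ∞ (fun y => f (rot θ y)) :=
  hf.comp (rotL θ).contDiff

lemma pd_lin {ι : Type} [Fintype ι] (c : ι → ℝ) {g : ι → V → ℝ} (hg : ∀ i, ContDiff ℝ ∞ (g i))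
    (b : Fin 3) (x : V) : pd b (fun y => ∑ j, c j * g j y) x = ∑ j, c j * pd b (g j) x := by
  have h1 : HasFDerivAt (fun y => ∑ j, c j * g j y) (∑ j, c j • fderiv ℝ (g j) x) x := by
    apply HasFDerivAt.fun_sum
    intro j _
    exact (((hg j).differentiable (by norm_cast)) x).hasFDerivAt.const_mul (c j)
  unfold pd
  rw [h1.fderiv]
  simp

/-- Sums of squares of derivatives of a family of functions that transforms orthogonally. -/
lemma SS_rot (θ : ℝ) (n : ℕ) : ∀ {ι : Type} [Fintype ι] [DecidableEq ι] (M : ι → ι → ℝ)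
    (_ : ∀ j k, ∑ i, M i j * M i k = if j = k then 1 else 0) (f g : ι → V → ℝ)
    (_ : ∀ i, ContDiff ℝ ∞ (f i)) (_ : ∀ i, ContDiff ℝ ∞ (g i))
    (_ : ∀ i x, f i (rot θ x) = ∑ j, M i j * g j x) (x : V),
    ∑ i, SS n (f i) (rot θ x) = ∑ j, SS n (g j) x := by
  induction n with
  | zero =>
    intro ι _ _ M hM f g hf hg h x
    simp only [SS_zero, h]
    have e1 : ∀ i, (∑ j, M i j * g j x) ^ 2 = ∑ j, ∑ k, M i j * M i k * (g j x * g k x) := by
      intro i
      rw [sq, Finset.sum_mul_sum]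
      exact Finset.sum_congr rfl fun j _ => Finset.sum_congr rfl fun k _ => by ring
    simp only [e1]
    rw [Finset.sum_comm]
    refine Finset.sum_congr rfl fun j _ => ?_
    rw [Finset.sum_comm]
    have e2 : ∀ k, ∑ i, M i j * M i k * (g j x * g k x)
        = (if j = k then 1 else 0) * (g j x * g k x) := by
      intro k
      rw [← hM j k, Finset.sum_mul]
    simp [e2, sq]
  | succ n ih =>
    intro ι _ _ M hM f g hf hg h x
    simp only [SS_succ]
    have key := ih (ι := Fin 3 × ι) (fun p q => Rm θ p.1 q.1 * M p.2 q.2) ?_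
      (fun p => pd p.1 (f p.2)) (fun p => pd p.1 (g p.2)) (fun p => sm_pd (hf p.2) p.1)
      (fun p => sm_pd (hg p.2) p.1) ?_ x
    · rw [Fintype.sum_prod_type, Fintype.sum_prod_type] at key
      rw [Finset.sum_comm, key, Finset.sum_comm]
    · rintro ⟨b, j⟩ ⟨c, k⟩
      rw [Fintype.sum_prod_type]
      have e1 : ∀ a : Fin 3, ∑ i, Rm θ a b * M i j * (Rm θ a c * M i k)
          = Rm θ a b * Rm θ a c * (if j = k then 1 else 0) := by
        intro a
        rw [← hM j k, Finset.mul_sum]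
        exact Finset.sum_congr rfl fun i _ => by ring
      simp only [e1]
      rw [← Finset.sum_mul, Rm_orth]
      simp only [Prod.mk.injEq]
      by_cases h1 : b = c <;> by_cases h2 : j = k <;> simp [h1, h2]
    · rintro ⟨a, i⟩ y
      show pd a (f i) (rot θ y) = _
      rw [pd_rot' θ (hf i), Fintype.sum_prod_type]
      refine Finset.sum_congr rfl fun b _ => ?_
      have e : (fun y => f i (rot θ y)) = fun y => ∑ j, M i j * g j y := by
        funext z
        exact h i z
      rw [e, pd_lin _ hg, Finset.mul_sum]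
      exact Finset.sum_congr rfl fun j _ => by ring

variable {v : V → V}

lemma SV_rot (hv : ContDiff ℝ ∞ v) (ha : Axi v) (θ : ℝ) (n : ℕ) (x : V) :
    SV n v (rot θ x) = SV n v x := by
  unfold SV
  refine SS_rot θ n (Rm θ) (fun j k => Rm_orth θ j k) _ _ (fun i => contDiff_pi.1 hv i)
    (fun i => contDiff_pi.1 hv i) (fun i y => ?_) x
  show v (rot θ y) i = ∑ j, Rm θ i j * v y j
  rw [ha, rot_eq]

lemma Om_rot (hv : ContDiff ℝ ∞ v) (ha : Axi v) (θ : ℝ) (i j : Fin 3) (x : V) :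
    Om i j v (rot θ x) = ∑ k, ∑ l, Rm θ i k * Rm θ j l * Om k l v x := by
  have key : ∀ i j, pd i (fun y => v y j) (rot θ x)
      = ∑ k, ∑ l, Rm θ i k * Rm θ j l * pd k (fun y => v y l) x := by
    intro i j
    rw [pd_rot' θ (contDiff_pi.1 hv j)]
    refine Finset.sum_congr rfl fun k _ => ?_
    have e : (fun y => v (rot θ y) j) = fun y => ∑ l, Rm θ j l * v y l := by
      funext z
      rw [ha, rot_eq]
    rw [e, pd_lin (fun l => Rm θ j l) (g := fun l y => v y l) (fun l => contDiff_pi.1 hv l),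
      Finset.mul_sum]
    exact Finset.sum_congr rfl fun l _ => by ring
  unfold Om
  rw [key i j, key j i]
  have e2 : ∑ k, ∑ l, Rm θ j k * Rm θ i l * pd k (fun y => v y l) x
      = ∑ k, ∑ l, Rm θ i k * Rm θ j l * pd l (fun y => v y k) x := by
    rw [Finset.sum_comm]
    exact Finset.sum_congr rfl fun k _ => Finset.sum_congr rfl fun l _ => by ring
  rw [e2, ← Finset.sum_sub_distrib]
  refine Finset.sum_congr rfl fun k _ => ?_
  rw [← Finset.sum_sub_distrib]
  exact Finset.sum_congr rfl fun l _ => by ring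

lemma sm_Om (hv : ContDiff ℝ ∞ v) (i j : Fin 3) : ContDiff ℝ ∞ (Om i j v) :=
  (sm_pd (contDiff_pi.1 hv j) i).sub (sm_pd (contDiff_pi.1 hv i) j)

lemma ST_rot (hv : ContDiff ℝ ∞ v) (ha : Axi v) (θ : ℝ) (n : ℕ) (x : V) :
    DR.ST n v (rot θ x) = DR.ST n v x := by
  unfold DR.ST
  refine SS_rot θ n (ι := Fin 3 × Fin 3) (fun p q => Rm θ p.1 q.1 * Rm θ p.2 q.2) ?_ _ _
    (fun p => sm_Om hv p.1 p.2) (fun p => sm_Om hv p.1 p.2) (fun p y => ?_) x
  · rintro ⟨b, j⟩ ⟨c, k⟩
    rw [Fintype.sum_prod_type]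
    have e1 : ∀ a : Fin 3, ∑ i, Rm θ a b * Rm θ i j * (Rm θ a c * Rm θ i k)
        = Rm θ a b * Rm θ a c * (if j = k then 1 else 0) := by
      intro a
      rw [← Rm_orth θ j k, Finset.mul_sum]
      exact Finset.sum_congr rfl fun i _ => by ring
    simp only [e1]
    rw [← Finset.sum_mul, Rm_orth]
    simp only [Prod.mk.injEq]
    by_cases h1 : b = c <;> by_cases h2 : j = k <;> simp [h1, h2]
  · rw [Om_rot hv ha, Fintype.sum_prod_type]

end Pool.Agent.TH305.AX
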