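import Pool.Agent.TH305.AX.Touch

/-!
Axisymmetric flows (helper305): the class of solutions, preliminaries.
-/

set_option autoImplicit false

open MeasureTheory Set Metric Filter Topology
open scoped ContDiff

namespace Pool.Agent.TH305.AX

open H459R3.NS W221.NS Pool.Agent.TH305.DR

/-- `(u, p)` is a smooth solution of the Navier-Stokes equations with viscosity `ν` and without
force on `[0, T) × ℝ³`; the velocity `u` is axisymmetric and tends to zero at infinity, uniformly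
for times in `[0, T']`, for each `T' < T`. -/
structure AxSol (ν T : ℝ) (u : ℝ → V → V) (p : ℝ → V → ℝ) : Prop where
  smooth_u : ContDiffOn ℝ ∞ (fun z : ℝ × V => u z.1 z.2) (Ico 0 T ×ˢ univ)
  smooth_p : ContDiffOn ℝ ∞ (fun z : ℝ × V => p z.1 z.2) (Ioo 0 T ×ˢ univ)
  divfree : ∀ t ∈ Ico 0 T, ∀ x, ∑ i, pd i (fun y => u t y i) x = 0
  momentum : ∀ t ∈ Ioo 0 T, ∀ x i,
    deriv (fun s => u s x i) t + ∑ j, u t x j * pd j (fun y => u t y i) x
      = ν * ∑ j, pd j (pd j (fun y => u t y i)) x - pd i (p t) x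
  axi : ∀ t ∈ Ico 0 T, Axi (u t)
  decay : ∀ T' < T, ∀ ε > 0, ∃ R : ℝ, ∀ t ∈ Icc 0 T', ∀ x, R ≤ ‖x‖ → ‖u t x‖ ≤ ε

variable {ν T : ℝ} {u : ℝ → V → V} {p : ℝ → V → ℝ}

lemma rot_hd' (θ : ℝ) (x : V) :
    HasDerivAt (fun θ => rot θ x) ![-(rot θ x) 1, (rot θ x) 0, 0] θ := by
  rw [hasDerivAt_pi]
  have hc := Real.hasDerivAt_cos θ
  have hs := Real.hasDerivAt_sin θ
  intro i
  fin_cases i
  · show HasDerivAt (fun θ => Real.cos θ * x 0 - Real.sin θ * x 1)
      (-(Real.sin θ * x 0 + Real.cos θ * x 1)) θ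
    exact ((hc.mul_const (x 0)).sub (hs.mul_const (x 1))).congr_deriv (by ring)
  · show HasDerivAt (fun θ => Real.sin θ * x 0 + Real.cos θ * x 1)
      (Real.cos θ * x 0 - Real.sin θ * x 1) θ
    exact ((hs.mul_const (x 0)).add (hc.mul_const (x 1))).congr_deriv (by ring)
  · show HasDerivAt (fun _ : ℝ => x 2) 0 θ
    exact hasDerivAt_const _ _

/-- On each circle there is a point at which the angular derivative of a function vanishes. -/
lemma rolle {P : V → ℝ} (hP : Differentiable ℝ P) (x : V) : ∃ θ : ℝ,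
    (rot θ x) 0 * pd 1 P (rot θ x) - (rot θ x) 1 * pd 0 P (rot θ x) = 0 := by
  have hd : ∀ θ : ℝ, HasDerivAt (fun θ => P (rot θ x))
      ((rot θ x) 0 * pd 1 P (rot θ x) - (rot θ x) 1 * pd 0 P (rot θ x)) θ := by
    intro θ
    have h2 := (hP (rot θ x)).hasFDerivAt.comp_hasDerivAt θ (rot_hd' θ x)
    rw [pd_vec] at h2
    refine h2.congr_deriv ?_
    rw [Fin.sum_univ_three]
    simp
    ring
  have h0 : rot 0 x = rot (2 * Real.pi) x := by
    unfold rot
    simp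
  obtain ⟨c, -, hc⟩ := exists_hasDerivAt_eq_zero (f := fun θ => P (rot θ x))
    (f' := fun θ => (rot θ x) 0 * pd 1 P (rot θ x) - (rot θ x) 1 * pd 0 P (rot θ x))
    (show (0 : ℝ) < 2 * Real.pi by positivity)
    (fun θ _ => (hd θ).continuousAt.continuousWithinAt) (by simp only [h0]) (fun θ _ => hd θ)
  exact ⟨c, hc⟩

lemma slice0 (h : AxSol ν T u p) {t : ℝ} (ht : t ∈ Ico 0 T) : ContDiff ℝ ∞ (u t) := by
  rw [← contDiffOn_univ]
  exact h.smooth_u.comp (f := fun x : V => (t, x)) (by fun_prop) (fun x _ => ⟨ht, mem_univ _⟩)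

lemma slicep (h : AxSol ν T u p) {t : ℝ} (ht : t ∈ Ioo 0 T) : Differentiable ℝ (p t) := by
  have h1 : ContDiff ℝ ∞ (p t) := by
    rw [← contDiffOn_univ]
    exact h.smooth_p.comp (f := fun x : V => (t, x)) (by fun_prop) (fun x _ => ⟨ht, mem_univ _⟩)
  exact h1.differentiable (by norm_cast)

/-- The time derivative of the circulation. -/
lemma circ_hd (h : AxSol ν T u p) {t : ℝ} (ht : t ∈ Ioo 0 T) (x : V) :
    HasDerivAt (fun τ => circ (u τ) x)
      (x 0 * deriv (fun s => u s x 1) t - x 1 * deriv (fun s => u s x 0) t) t := by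
  have hi : ∀ i : Fin 3, HasDerivAt (fun s => u s x i) (deriv (fun s => u s x i) t) t := by
    intro i
    have h1 : ContDiffOn ℝ ∞ (fun s : ℝ => u s x i) (Ioo 0 T) := by
      have h2 : ContDiffOn ℝ ∞ (fun s : ℝ => u s x) (Ioo 0 T) :=
        h.smooth_u.comp (f := fun s : ℝ => (s, x)) (by fun_prop)
          (fun s hs => ⟨Ioo_subset_Ico_self hs, mem_univ _⟩)
      exact (contDiffOn_pi.1 h2) i
    exact ((h1.differentiableOn (by norm_cast)) t ht).differentiableAt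
      (Ioo_mem_nhds ht.1 ht.2) |>.hasDerivAt
  exact ((hi 1).const_mul (x 0)).sub ((hi 0).const_mul (x 1))

/-- Continuity of the circulation. -/
lemma circ_cont (h : AxSol ν T u p) :
    ContinuousOn (fun z : ℝ × V => circ (u z.1) z.2) (Ico 0 T ×ˢ univ) := by
  have hi : ∀ i : Fin 3, ContinuousOn (fun z : ℝ × V => u z.1 z.2 i) (Ico 0 T ×ˢ univ) :=
    fun i => (continuous_apply i).comp_continuousOn h.smooth_u.continuousOn
  unfold circ
  have c0 : ContinuousOn (fun z : ℝ × V => z.2 0) (Ico 0 T ×ˢ univ) := by fun_prop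
  have c1 : ContinuousOn (fun z : ℝ × V => z.2 1) (Ico 0 T ×ˢ univ) := by fun_prop
  exact (c0.mul (hi 1)).sub (c1.mul (hi 0))

/-- Boundedness of the velocity. -/
lemma u_bdd (h : AxSol ν T u p) {T' : ℝ} (hT' : T' < T) :
    ∃ U : ℝ, 0 ≤ U ∧ ∀ t ∈ Icc 0 T', ∀ x, ‖u t x‖ ≤ U := by
  obtain ⟨R, hR⟩ := h.decay T' hT' 1 one_pos
  have hK : IsCompact (Icc 0 T' ×ˢ closedBall (0 : V) R) :=
    isCompact_Icc.prod (isCompact_closedBall _ _)
  obtain ⟨M, hM⟩ := hK.exists_bound_of_continuousOn (h.smooth_u.continuousOn.mono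
    (fun z hz => ⟨⟨hz.1.1, hz.1.2.trans_lt hT'⟩, trivial⟩))
  refine ⟨max M 1, le_trans zero_le_one (le_max_right _ _), fun t ht x => ?_⟩
  rcases le_total R ‖x‖ with hx | hx
  · exact (hR t ht x hx).trans (le_max_right _ _)
  · exact (hM (t, x) ⟨ht, by rw [mem_closedBall, dist_zero_right]; exact hx⟩).trans
      (le_max_left _ _)

lemma sg_nonneg (x : V) : 0 ≤ sg x := by unfold sg; positivity

lemma abs_le_sqrt_sg (x : V) : |x 0| ≤ √(sg x) ∧ |x 1| ≤ √(sg x) := by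
  constructor <;> rw [← Real.sqrt_sq_eq_abs] <;> apply Real.sqrt_le_sqrt <;> unfold sg <;>
    nlinarith [sq_nonneg (x 0), sq_nonneg (x 1)]

lemma circ_le (v : V → V) (x : V) : |circ v x| ≤ 2 * √(sg x) * ‖v x‖ := by
  obtain ⟨h0, h1⟩ := abs_le_sqrt_sg x
  have e0 : |v x 0| ≤ ‖v x‖ := norm_le_pi_norm (v x) 0
  have e1 : |v x 1| ≤ ‖v x‖ := norm_le_pi_norm (v x) 1
  unfold circ
  calc |x 0 * v x 1 - x 1 * v x 0| ≤ |x 0 * v x 1| + |x 1 * v x 0| := abs_sub _ _
    _ = |x 0| * |v x 1| + |x 1| * |v x 0| := by rw [abs_mul, abs_mul]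
    _ ≤ √(sg x) * ‖v x‖ + √(sg x) * ‖v x‖ := by gcongr
    _ = _ := by ring

/-- The derivative at the right end of an interval on which the end value is the largest. -/
lemma deriv_nonneg_of_le {f : ℝ → ℝ} {f' a t : ℝ} (hat : a < t) (hf : HasDerivAt f f' t)
    (hle : ∀ s ∈ Icc a t, f s ≤ f t) : 0 ≤ f' := by
  have h1 : Tendsto (slope f t) (𝓝[<] t) (𝓝 f') :=
    (hasDerivAt_iff_tendsto_slope.1 hf).mono_left
      (nhdsWithin_mono _ fun s (hs : s < t) => ne_of_lt hs)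
  refine ge_of_tendsto h1 ?_
  filter_upwards [Ioo_mem_nhdsLT hat] with s hs
  rw [slope_def_field]
  have h2 := hle s ⟨hs.1.le, hs.2.le⟩
  exact div_nonneg_of_nonpos (by linarith) (by linarith [hs.2])

end Pool.Agent.TH305.AX
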