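import Pool.Agent.TH305.AX.Dv

/-!
Axisymmetric flows (helper305): weighted bounds of all derivatives, maximal functions in time.
-/

set_option autoImplicit false

open MeasureTheory Set Metric Filter Topology
open scoped ContDiff ENNReal

namespace Pool.Agent.TH305.AX

open H459R3.NS W221.NS Pool.Agent.TH305.DR
open Pool.Agent.W583.MD (sm_pd)

/-- The weak type bound of the backward maximal function. -/
lemma maximal (g : ℝ → ℝ≥0∞) (T : ℝ) {l : ℝ} (hl : 0 < l) : ∃ Z : Set ℝ,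
    volume Z ≤ ENNReal.ofReal (5 / l) * ∫⁻ t in Ioo 0 T, g t ∧
    ∀ s ∈ Ioo 0 T, s ∉ Z → ∀ h : ℝ, 0 < h → h ≤ s →
      ∫⁻ t in Ioo (s - h) s, g t ≤ ENNReal.ofReal (l * h) := by
  obtain ⟨Z, hZ⟩ : ∃ Z : Set ℝ, Z = {s | s ∈ Ioo 0 T ∧ ∃ h : ℝ, 0 < h ∧ h ≤ s ∧
    ENNReal.ofReal (l * h) < ∫⁻ t in Ioo (s - h) s, g t} := ⟨_, rfl⟩
  have hZ1 : ∀ s, ∃ h : ℝ, s ∈ Z → s ∈ Ioo 0 T ∧ 0 < h ∧ h ≤ s ∧
      ENNReal.ofReal (l * h) < ∫⁻ t in Ioo (s - h) s, g t := by
    intro s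
    by_cases hs : s ∈ Z
    · rw [hZ] at hs
      obtain ⟨h1, h, h2⟩ := hs
      exact ⟨h, fun _ => ⟨h1, h2⟩⟩
    · exact ⟨0, fun h => absurd h hs⟩
  choose h hh using hZ1
  refine ⟨Z, ?_, ?_⟩
  · obtain ⟨U, hUZ, hUd, hUc⟩ := Vitali.exists_disjoint_subfamily_covering_enlargement_closedBall
      Z (fun a => a - h a / 2) (fun a => h a / 2) T (fun a ha => by
        have := hh a ha
        have h2 := this.1.2
        linarith [this.2.1, this.2.2.1]) 5 (by norm_num)
    have hcb : ∀ a, closedBall (a - h a / 2) (h a / 2) = Icc (a - h a) a := by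
      intro a
      rw [Real.closedBall_eq_Icc]
      congr 1 <;> ring
    have hUcount : U.Countable := by
      apply hUd.countable_of_nonempty_interior
      intro a ha
      show (interior (closedBall (a - h a / 2) (h a / 2))).Nonempty
      rw [hcb, interior_Icc, nonempty_Ioo]
      linarith [(hh a (hUZ ha)).2.1]
    have h1 : volume Z ≤ ∑' b : U, volume (closedBall ((b : ℝ) - h b / 2) (5 * (h b / 2))) := by
      haveI := hUcount.to_subtype
      refine le_trans (measure_mono ?_) (measure_iUnion_le _)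
      intro a ha
      obtain ⟨b, hb, hab⟩ := hUc a ha
      rw [mem_iUnion]
      refine ⟨⟨b, hb⟩, hab ?_⟩
      rw [hcb]
      exact ⟨by linarith [(hh a ha).2.1], le_rfl⟩
    refine h1.trans ?_
    have h2 : ∀ b : U, volume (closedBall ((b : ℝ) - h b / 2) (5 * (h b / 2)))
        ≤ ENNReal.ofReal (5 / l) * ∫⁻ t in Ioo ((b : ℝ) - h b) b, g t := by
      intro b
      rw [Real.volume_closedBall]
      refine le_trans (le_of_eq ?_) (mul_le_mul_right (hh b (hUZ b.2)).2.2.2.le _)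
      rw [← ENNReal.ofReal_mul (by positivity)]
      congr 1
      field_simp
    refine (ENNReal.tsum_le_tsum h2).trans ?_
    rw [ENNReal.tsum_mul_left]
    gcongr
    haveI := hUcount.to_subtype
    rw [← lintegral_iUnion (fun b : U => measurableSet_Ioo)]
    · apply lintegral_mono_set
      apply iUnion_subset
      intro b
      have := hh b (hUZ b.2)
      exact Ioo_subset_Ioo (by linarith [this.2.2.1]) this.1.2.le
    · intro b c hbc
      have h3 := hUd b.2 c.2 (fun e => hbc (Subtype.ext e))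
      have h4 : Disjoint (closedBall ((b : ℝ) - h b / 2) (h b / 2))
        (closedBall ((c : ℝ) - h c / 2) (h c / 2)) := h3
      rw [hcb, hcb] at h4
      exact h4.mono Ioo_subset_Icc_self Ioo_subset_Icc_self
  · intro s hs hsZ k hk hks
    by_contra hcon
    rw [not_le] at hcon
    apply hsZ
    rw [hZ]
    exact ⟨hs, k, hk, hks, hcon⟩

/-- The bounds at a given time. -/
theorem at_time : ∃ C : ℝ, 0 < C ∧ ∃ K : ℕ → ℝ, (∀ n, 0 < K n) ∧
    ∀ (ν T E : ℝ) (u : ℝ → V → V) (p : ℝ → V → ℝ), 0 < ν → 0 ≤ E → OSol ν T E univ u p →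
      (∀ t ∈ Ioo 0 T, Axi (u t)) →
      ∀ (r s : ℝ) (x : V), 0 < r → r ^ 2 / ν < s → s < T →
        ∫⁻ t in Ioo (s - r ^ 2 / ν) s, ∫⁻ y, ENNReal.ofReal (gsq (u t) y)
          < ENNReal.ofReal (ν / C * (√(sg x) + r)) →
        ∀ l : List (Fin 3),
          (∀ i j, |dl l (vo (u s) i j) x| ≤ K l.length * ν / r ^ (l.length + 2)) ∧
          ∀ i, |dl l (fun y => u s y i) x|
            ≤ K l.length * (ν + E / √(√(sg x) + r)) / r ^ (l.length + 1) := by
  obtain ⟨C, hC, K, hK, -, H⟩ := domN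
  refine ⟨1024 * C, by positivity,
    fun n => 1 + 48 * (1024 + K 0) + 48 * K n + 48 * K (n - 1), fun n => ?_, ?_⟩
  · have := hK 0
    have := hK n
    have := hK (n - 1)
    positivity
  intro ν T E u p hν hE hS ha r s x hr hrs hsT hI l
  have hs0 : 0 < s := lt_of_le_of_lt (by positivity) hrs
  have hs : s ∈ Ioo 0 T := ⟨hs0, hsT⟩
  have hρ : 0 ≤ √(sg x) := Real.sqrt_nonneg _
  obtain ⟨B, -, hBv, hB⟩ := H ν T E u p hν hE hS r s hr hrs hsT
  have hBv' : volume B < ENNReal.ofReal ((√(sg x) + r) * r ^ 2 / 1024) := by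
    refine lt_of_le_of_lt hBv ?_
    have h0 : ENNReal.ofReal (C / ν * r ^ 2) ≠ 0 := by
      simpa using (show 0 < C / ν * r ^ 2 by positivity)
    calc ENNReal.ofReal (C / ν * r ^ 2) *
        ∫⁻ τ in Ioo (s - r ^ 2 / ν) s, ∫⁻ y, ENNReal.ofReal (gsq (u τ) y)
        < ENNReal.ofReal (C / ν * r ^ 2) * ENNReal.ofReal (ν / (1024 * C) * (√(sg x) + r)) :=
          (ENNReal.mul_lt_mul_iff_right h0 ENNReal.ofReal_ne_top).2 hI
      _ = ENNReal.ofReal ((√(sg x) + r) * r ^ 2 / 1024) := by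
          rw [← ENNReal.ofReal_mul (by positivity)]
          congr 1
          field_simp
  obtain ⟨θ, y, hy, hyx⟩ := ring_meas hr hBv'
  have hv := osol_slice hS hs
  obtain ⟨f1, f2, f3⟩ := from_bds (E := E) hK hr hv (ha s hs) (hS.en_int s hs) (hS.en s hs) hyx
    (hB y hy)
  have k0 := (hK 0).le
  have kn := (hK l.length).le
  have kn' := (hK (l.length - 1)).le
  obtain ⟨F, hF⟩ : ∃ F : ℝ, F = E / √(√(sg x) + r) := ⟨_, rfl⟩
  have hF0 : 0 ≤ F := by rw [hF]; positivity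
  have hF2 : E ^ 2 / (√(sg x) + r) = F ^ 2 := by
    rw [hF, div_pow, Real.sq_sqrt (by positivity)]
  rw [hF2] at f2 f3
  rw [← hF]
  have hG : ν ^ 2 + 48 * F ^ 2 ≤ 48 * (ν + F) ^ 2 := by nlinarith
  refine ⟨fun i j => ?_, fun i => ?_⟩
  · refine sq_to_abs hr hν kn (by linarith) ?_
    rw [← pow_aux]
    refine le_trans ?_ (f1 l.length)
    apply mul_le_mul_of_nonneg_left _ (by positivity)
    refine (SS_foldl l (vo (u s) i j) x).trans ?_
    exact Finset.single_le_sum (f := fun q : Fin 3 × Fin 3 => SS l.length (Om q.1 q.2 (u s)) x)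
      (fun q _ => SS_nonneg _ _ _) (Finset.mem_univ (i, j))
  · have hνF : 0 < ν + F := by linarith
    have h2 : dl l (fun y => u s y i) x ^ 2 ≤ SV l.length (u s) x := by
      refine (SS_foldl l (fun y => u s y i) x).trans ?_
      exact Finset.single_le_sum (f := fun i => SS l.length (fun y => u s y i) x)
        (fun q _ => SS_nonneg _ _ _) (Finset.mem_univ i)
    rcases Nat.eq_zero_or_pos l.length with h0 | h0
    · rw [h0] at h2 ⊢
      refine sq_to_abs (b := 48 * (1024 + K 0)) hr hνF (by positivity) (by simp; linarith) ?_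
      calc (r ^ (0 + 1)) ^ 2 * dl l (fun y => u s y i) x ^ 2
          ≤ (r ^ (0 + 1)) ^ 2 * SV 0 (u s) x := by gcongr
        _ = r ^ 2 * SV 0 (u s) x := by ring
        _ ≤ (1024 + K 0) * (ν ^ 2 + 48 * F ^ 2) := f3
        _ ≤ (1024 + K 0) * (48 * (ν + F) ^ 2) := by gcongr
        _ = 48 * (1024 + K 0) * (ν + F) ^ 2 := by ring
    · obtain ⟨n, hn⟩ : ∃ n, l.length = n + 1 := ⟨l.length - 1, by omega⟩
      rw [hn] at h2 kn' ⊢
      rw [Nat.add_sub_cancel] at kn'
      refine sq_to_abs (b := 48 * K n) hr hνF (by positivity) (by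
        have := (hK (n + 1)).le
        show 1 + 48 * K n ≤ 1 + 48 * (1024 + K 0) + 48 * K (n + 1) + 48 * K (n + 1 - 1)
        rw [Nat.add_sub_cancel]
        linarith) ?_
      rw [show n + 1 + 1 = n + 2 by ring, ← pow_aux]
      calc r ^ (2 * n + 4) * dl l (fun y => u s y i) x ^ 2
          ≤ r ^ (2 * n + 4) * SV (n + 1) (u s) x := by gcongr
        _ ≤ K n * (ν ^ 2 + 48 * F ^ 2) := f2 n
        _ ≤ K n * (48 * (ν + F) ^ 2) := by gcongr
        _ = 48 * K n * (ν + F) ^ 2 := by ring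

/-- `√(m² / (ν² (m ρ + ν²)) + 1 / (ν s))`, where `ρ` is the distance of `x` to the axis. -/
noncomputable def Yw (ν m s : ℝ) (x : V) : ℝ :=
  √(m ^ 2 / (ν ^ 2 * (m * √(sg x) + ν ^ 2)) + 1 / (ν * s))

/-- The bounds at a given time, and outside a set of times. -/
theorem wd : ∃ C : ℝ, 0 < C ∧ ∃ K : ℕ → ℝ, (∀ n, 0 < K n) ∧
    ∀ (ν T E : ℝ) (u : ℝ → V → V) (p : ℝ → V → ℝ), 0 < ν → 0 ≤ E → OSol ν T E univ u p →
      (∀ t ∈ Ioo 0 T, Axi (u t)) →
      (∀ (r s : ℝ) (x : V), 0 < r → r ^ 2 / ν < s → s < T →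
        ∫⁻ t in Ioo (s - r ^ 2 / ν) s, ∫⁻ y, ENNReal.ofReal (gsq (u t) y)
          < ENNReal.ofReal (ν / C * (√(sg x) + r)) →
        ∀ l : List (Fin 3),
          (∀ i j, |dl l (vo (u s) i j) x| ≤ K l.length * ν / r ^ (l.length + 2)) ∧
          ∀ i, |dl l (fun y => u s y i) x|
            ≤ K l.length * (ν + E / √(√(sg x) + r)) / r ^ (l.length + 1)) ∧
      ∀ m : ℝ, 0 < m → ∃ Z : Set ℝ,
        volume Z ≤ ENNReal.ofReal (5 / m) *
          ∫⁻ t in Ioo 0 T, ∫⁻ y, ENNReal.ofReal (gsq (u t) y) ∧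
        ∀ s ∈ Ioo 0 T, s ∉ Z → ∀ (x : V) (l : List (Fin 3)),
          (∀ i j, |dl l (vo (u s) i j) x| ≤ K l.length * ν * Yw ν m s x ^ (l.length + 2)) ∧
          ∀ i, |dl l (fun y => u s y i) x| ≤
            K l.length * (ν + E / √(√(sg x) + 1 / Yw ν m s x)) * Yw ν m s x ^ (l.length + 1) := by
  obtain ⟨C, hC, K, hK, H⟩ := at_time
  obtain ⟨c, hc⟩ : ∃ c : ℝ, c = 2 * (C + 1) := ⟨_, rfl⟩
  have hc0 : 0 < c := by rw [hc]; positivity
  have hc1 : 1 ≤ c := by linarith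
  refine ⟨C, hC, fun n => K n * c ^ (n + 2), fun n => ?_, ?_⟩
  · have := hK n
    positivity
  intro ν T E u p hν hE hS ha
  have H1 := H ν T E u p hν hE hS ha
  refine ⟨fun r s x hr hrs hsT hI l => ?_, fun m hm => ?_⟩
  · obtain ⟨h1, h2⟩ := H1 r s x hr hrs hsT hI l
    have k0 := hK l.length
    have k1 : K l.length ≤ K l.length * c ^ (l.length + 2) :=
      le_mul_of_one_le_right k0.le (one_le_pow₀ hc1)
    have hFx : 0 ≤ E / √(√(sg x) + r) := by positivity
    refine ⟨fun i j => (h1 i j).trans ?_, fun i => (h2 i).trans ?_⟩ <;> gcongr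
  · obtain ⟨Z, hZ1, hZ2⟩ := maximal (fun t => ∫⁻ y, ENNReal.ofReal (gsq (u t) y)) T hm
    refine ⟨Z, hZ1, ?_⟩
    intro s hs hsZ x l
    have hs0 : 0 < s := hs.1
    obtain ⟨ρ, hρe⟩ : ∃ ρ : ℝ, ρ = √(sg x) := ⟨_, rfl⟩
    have hρ : 0 ≤ ρ := by rw [hρe]; exact Real.sqrt_nonneg _
    obtain ⟨a, hae⟩ : ∃ a : ℝ, a = m ^ 2 / (ν ^ 2 * (m * ρ + ν ^ 2)) := ⟨_, rfl⟩
    obtain ⟨Y, hY⟩ : ∃ Y : ℝ, Y = Yw ν m s x := ⟨_, rfl⟩
    have hAp : 0 < a := by rw [hae]; positivity
    have hBp : 0 < 1 / (ν * s) := by positivity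
    have hY' : Y = √(a + 1 / (ν * s)) := by
      rw [hY, hae, hρe]
      rfl
    have hY2 : Y ^ 2 = a + 1 / (ν * s) := by
      rw [hY', Real.sq_sqrt (by positivity)]
    have hY0 : 0 < Y := by rw [hY']; positivity
    obtain ⟨r, hr⟩ : ∃ r : ℝ, r = (c * Y)⁻¹ := ⟨_, rfl⟩
    have hr0 : 0 < r := by rw [hr]; positivity
    have hr2 : r ^ 2 * (c ^ 2 * Y ^ 2) = 1 := by
      rw [hr]
      field_simp
    have hA : a * (ν ^ 2 * (m * ρ + ν ^ 2)) = m ^ 2 := by
      rw [hae]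
      field_simp
    have hB : 1 / (ν * s) * (ν * s) = 1 := by field_simp
    have hr2p : 0 < r ^ 2 := by positivity
    have e1 : r ^ 2 / ν < s := by
      rw [div_lt_iff₀ hν]
      have h1 : r ^ 2 * (1 / (ν * s)) < 1 := by
        refine lt_of_lt_of_eq (mul_lt_mul_of_pos_left ?_ hr2p) hr2
        rw [hY2]
        have : 1 ≤ c ^ 2 := by nlinarith
        nlinarith
      have h2 : r ^ 2 = r ^ 2 * (1 / (ν * s)) * (ν * s) := by rw [mul_assoc, hB, mul_one]
      have h3 : 0 < ν * s := by positivity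
      calc r ^ 2 = r ^ 2 * (1 / (ν * s)) * (ν * s) := h2
        _ < 1 * (ν * s) := mul_lt_mul_of_pos_right h1 h3
        _ = s * ν := by ring
    have e2 : m * (r ^ 2 / ν) < ν / C * (ρ + r) := by
      have h1 : r ^ 2 * (c ^ 2 * a) < 1 := by
        refine lt_of_lt_of_eq (mul_lt_mul_of_pos_left ?_ hr2p) hr2
        rw [hY2]
        have : 0 < c ^ 2 := by positivity
        nlinarith
      have h2 : r ^ 2 * (c ^ 2 * m ^ 2) < ν ^ 2 * (m * ρ + ν ^ 2) := by
        have h3 : 0 < ν ^ 2 * (m * ρ + ν ^ 2) := by positivity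
        calc r ^ 2 * (c ^ 2 * m ^ 2) = r ^ 2 * (c ^ 2 * a) * (ν ^ 2 * (m * ρ + ν ^ 2)) := by
              rw [← hA]; ring
          _ < 1 * (ν ^ 2 * (m * ρ + ν ^ 2)) := mul_lt_mul_of_pos_right h1 h3
          _ = _ := one_mul _
      have h4 : C * m * r ^ 2 < ν ^ 2 * (ρ + r) := by
        by_contra hcon
        rw [not_lt] at hcon
        have h5 : ν ^ 2 * ρ ≤ C * m * r ^ 2 := by
          have : 0 ≤ ν ^ 2 * r := by positivity
          linarith
        have h6 : ν ^ 2 ≤ C * m * r := by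
          have h7 : ν ^ 2 * r ≤ C * m * r * r := by
            have : 0 ≤ ν ^ 2 * ρ := by positivity
            nlinarith
          exact le_of_mul_le_mul_right h7 hr0
        have h8 : ν ^ 2 * (m * ρ) ≤ C * m ^ 2 * r ^ 2 := by nlinarith
        have h9 : ν ^ 2 * ν ^ 2 ≤ C ^ 2 * m ^ 2 * r ^ 2 := by
          calc ν ^ 2 * ν ^ 2 ≤ (C * m * r) * (C * m * r) := by gcongr
            _ = C ^ 2 * m ^ 2 * r ^ 2 := by ring
        have h10 : 0 < m ^ 2 * r ^ 2 := by positivity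
        have h11 : r ^ 2 * (c ^ 2 * m ^ 2) = 4 * (C + 1) ^ 2 * (m ^ 2 * r ^ 2) := by
          rw [hc]
          ring
        nlinarith [mul_pos hC h10, mul_pos (mul_pos hC hC) h10]
      have h12 : m * (r ^ 2 / ν) = C * m * r ^ 2 / (C * ν) := by field_simp
      have h13 : ν / C * (ρ + r) = ν ^ 2 * (ρ + r) / (C * ν) := by field_simp
      rw [h12, h13]
      exact div_lt_div_of_pos_right h4 (by positivity)
    have hI : ∫⁻ t in Ioo (s - r ^ 2 / ν) s, ∫⁻ y, ENNReal.ofReal (gsq (u t) y)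
        < ENNReal.ofReal (ν / C * (√(sg x) + r)) := by
      refine lt_of_le_of_lt (hZ2 s hs hsZ (r ^ 2 / ν) (by positivity) e1.le) ?_
      rw [← hρe]
      exact (ENNReal.ofReal_lt_ofReal_iff (by positivity)).2 e2
    obtain ⟨h1, h2⟩ := H1 r s x hr0 e1 hs.2 hI l
    rw [← hρe, ← hY]
    rw [← hρe] at h2
    have k0 := hK l.length
    have hinv : ∀ k : ℕ, (r ^ k)⁻¹ = c ^ k * Y ^ k := by
      intro k
      rw [hr, inv_pow, inv_inv, mul_pow]
    refine ⟨fun i j => (h1 i j).trans (le_of_eq ?_), fun i => (h2 i).trans ?_⟩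
    · rw [div_eq_mul_inv, hinv]
      ring
    · rw [div_eq_mul_inv, hinv]
      have hF' : 0 ≤ ν + E / √(ρ + 1 / Y) := by positivity
      have h3 : ν + E / √(ρ + r) ≤ c * (ν + E / √(ρ + 1 / Y)) := by
        have h4 : √(ρ + 1 / Y) ≤ c * √(ρ + r) := by
          rw [show c * √(ρ + r) = √(c ^ 2 * (ρ + r)) by
            rw [Real.sqrt_mul (by positivity), Real.sqrt_sq hc0.le]]
          apply Real.sqrt_le_sqrt
          have h5 : c * r = 1 / Y := by rw [hr]; field_simp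
          have h6 : c ^ 2 * (ρ + r) = c ^ 2 * ρ + c * (1 / Y) := by rw [← h5]; ring
          rw [h6]
          have h7 : 0 < 1 / Y := by positivity
          have h8 : 1 ≤ c ^ 2 := by nlinarith
          nlinarith [mul_le_mul_of_nonneg_right h8 hρ, mul_le_mul_of_nonneg_right hc1 h7.le]
        have h9 : E / √(ρ + r) ≤ c * (E / √(ρ + 1 / Y)) := by
          rw [← mul_div_assoc, div_le_div_iff₀ (by positivity) (by positivity)]
          calc E * √(ρ + 1 / Y) ≤ E * (c * √(ρ + r)) := by gcongr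
            _ = c * E * √(ρ + r) := by ring
        nlinarith
      calc K l.length * (ν + E / √(ρ + r)) * (c ^ (l.length + 1) * Y ^ (l.length + 1))
          ≤ K l.length * (c * (ν + E / √(ρ + 1 / Y))) * (c ^ (l.length + 1) * Y ^ (l.length + 1)) :=
            by gcongr
        _ = _ := by ring

end Pool.Agent.TH305.AX
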