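import Pool.Agent.TH305.AX.Max

/-!
Axisymmetric flows (helper305): weights depending on the distance to the axis.
-/

set_option autoImplicit false

open MeasureTheory Set Metric Filter Topology
open scoped ContDiff

namespace Pool.Agent.TH305.AX

open H459R3.NS W221.NS Pool.Agent.TH305.DR

lemma sm_sg : ContDiff ℝ ∞ sg := by
  unfold sg
  fun_prop

/-- `1` for the first two coordinates, `0` for the third. -/
def cj (j : Fin 3) : ℝ := if j = 2 then 0 else 1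

lemma cj0 : cj 0 = 1 := by simp [cj]
lemma cj1 : cj 1 = 1 := by simp [cj]
lemma cj2 : cj 2 = 0 := by simp [cj]

lemma sg_hd (x : V) : HasFDerivAt sg
    ((2 * x 0) • (ContinuousLinearMap.proj (R := ℝ) (φ := fun _ : Fin 3 => ℝ) 0)
        + (2 * x 1) • (ContinuousLinearMap.proj (R := ℝ) (φ := fun _ : Fin 3 => ℝ) 1)) x := by
  have hp : ∀ i : Fin 3, HasFDerivAt (fun y : V => y i)
      (ContinuousLinearMap.proj (R := ℝ) (φ := fun _ : Fin 3 => ℝ) i) x := fun i =>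
    (ContinuousLinearMap.proj (R := ℝ) (φ := fun _ : Fin 3 => ℝ) i).hasFDerivAt
  have h1 := ((hp 0).pow 2).add ((hp 1).pow 2)
  refine h1.congr_fderiv ?_
  simp

lemma pd_sg (j : Fin 3) (x : V) : pd j sg x = 2 * cj j * x j := by
  unfold pd
  rw [(sg_hd x).fderiv]
  fin_cases j
  · simp [Pi.single_apply, cj]
  · simp [Pi.single_apply, cj]
  · simp [Pi.single_apply, cj]

lemma pd_cmp {φ : ℝ → ℝ} {d : ℝ} {x : V} (h : HasDerivAt φ d (sg x)) (j : Fin 3) :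
    pd j (fun y => φ (sg y)) x = d * (2 * cj j * x j) := by
  have h1 := h.comp_hasFDerivAt x (sg_hd x)
  rw [← pd_sg j x]
  unfold pd
  have e : (fun y => φ (sg y)) = φ ∘ sg := rfl
  rw [e, h1.fderiv, (sg_hd x).fderiv]
  simp
  ring

section wt
variable {S : ℝ} {ψ ψ₁ ψ₂ : ℝ → ℝ}

lemma near_sg {x : V} (h0 : 0 < sg x) (h1 : sg x < S) : ∀ᶠ y in 𝓝 x, sg y ∈ Ioo 0 S :=
  sm_sg.continuous.continuousAt.eventually (Ioo_mem_nhds h0 h1)

/-- First derivatives of a weight. -/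
lemma pd_wt (hd1 : ∀ σ ∈ Ioo 0 S, HasDerivAt ψ (ψ₁ σ) σ) (c : ℝ) {x : V} (h0 : 0 < sg x)
    (h1 : sg x < S) (j : Fin 3) :
    pd j (fun y => c * ψ (sg y)) x = c * (ψ₁ (sg x) * (2 * cj j * x j)) := by
  rw [pd_cmul]
  show c * pd j (fun y => ψ (sg y)) x = _
  rw [pd_cmp (hd1 _ ⟨h0, h1⟩)]

/-- Second derivatives of a weight. -/
lemma pd2_wt (hd1 : ∀ σ ∈ Ioo 0 S, HasDerivAt ψ (ψ₁ σ) σ)
    (hd2 : ∀ σ ∈ Ioo 0 S, HasDerivAt ψ₁ (ψ₂ σ) σ) (c : ℝ) {x : V} (h0 : 0 < sg x)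
    (h1 : sg x < S) (j : Fin 3) :
    pd j (pd j (fun y => c * ψ (sg y))) x
      = c * (ψ₂ (sg x) * (2 * cj j * x j) ^ 2 + ψ₁ (sg x) * (2 * cj j)) := by
  have hev : pd j (fun y => c * ψ (sg y)) =ᶠ[𝓝 x] fun y => c * (ψ₁ (sg y) * (2 * cj j * y j)) := by
    filter_upwards [near_sg h0 h1] with y hy
    exact pd_wt hd1 c hy.1 hy.2 j
  rw [Pool.Agent.W349.MF.pd_congr' hev j]
  have hA : HasFDerivAt (fun y => ψ₁ (sg y)) _ x :=
    (hd2 _ ⟨h0, h1⟩).comp_hasFDerivAt x (sg_hd x)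
  have hp : HasFDerivAt (fun y : V => y j)
      (ContinuousLinearMap.proj (R := ℝ) (φ := fun _ : Fin 3 => ℝ) j) x :=
    (ContinuousLinearMap.proj (R := ℝ) (φ := fun _ : Fin 3 => ℝ) j).hasFDerivAt
  have hm : HasFDerivAt (fun y : V => c * (ψ₁ (sg y) * (2 * cj j * y j))) _ x :=
    (hA.mul (hp.const_mul (2 * cj j))).const_mul c
  unfold pd
  rw [hm.fderiv]
  have e1 : (ContinuousLinearMap.proj (R := ℝ) (φ := fun _ : Fin 3 => ℝ) j)
      (Pi.single j (1 : ℝ) : V) = 1 := by simp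
  have e2 : ((2 * x 0) • (ContinuousLinearMap.proj (R := ℝ) (φ := fun _ : Fin 3 => ℝ) 0)
        + (2 * x 1) • (ContinuousLinearMap.proj (R := ℝ) (φ := fun _ : Fin 3 => ℝ) 1))
      (Pi.single j (1 : ℝ) : V) = 2 * cj j * x j := by
    have h3 := pd_sg j x
    unfold pd at h3
    rw [(sg_hd x).fderiv] at h3
    exact h3
  simp only [smul_apply, add_apply, smul_eq_mul] at e2 ⊢
  rw [e1, e2]
  ring

/-- The Laplacian of a weight. -/
lemma lap_wt (hd1 : ∀ σ ∈ Ioo 0 S, HasDerivAt ψ (ψ₁ σ) σ)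
    (hd2 : ∀ σ ∈ Ioo 0 S, HasDerivAt ψ₁ (ψ₂ σ) σ) (c : ℝ) {x : V} (h0 : 0 < sg x)
    (h1 : sg x < S) :
    lap (fun y => c * ψ (sg y)) x = c * (4 * sg x * ψ₂ (sg x) + 4 * ψ₁ (sg x)) := by
  unfold lap
  rw [Fin.sum_univ_three, pd2_wt hd1 hd2 c h0 h1, pd2_wt hd1 hd2 c h0 h1, pd2_wt hd1 hd2 c h0 h1,
    cj0, cj1, cj2]
  have : sg x = x 0 ^ 2 + x 1 ^ 2 := rfl
  linear_combination -(4 * c * ψ₂ (sg x)) * this

end wt

end Pool.Agent.TH305.AX
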